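import Pool.Agent.helper71.SW.G3

/-! The angular functions: `ψ` equals `1` outside six disjoint caps which meet every great circle -/

noncomputable section

namespace SW

open SN KBR Set Filter Topology
open scoped ContDiff RealInnerProductSpace

variable {n : ℕ}

theorem bb_smooth : ContDiff ℝ ∞ bb := by
  unfold bb
  exact (expNegInvGlue.contDiff.comp (by fun_prop)).add (expNegInvGlue.contDiff.comp (by fun_prop))

theorem bb₁_smooth : ContDiff ℝ ∞ bb₁ := by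
  have h : bb₁ = deriv bb := rfl
  rw [h]
  exact (contDiff_infty_iff_deriv.1 bb_smooth).2

theorem bb_nonneg (x : ℝ) : 0 ≤ bb x :=
  add_nonneg (expNegInvGlue.nonneg _) (expNegInvGlue.nonneg _)

theorem bb_even (x : ℝ) : bb (-x) = bb x := by
  unfold bb
  rw [neg_neg, add_comm]

theorem glue_deriv (x : ℝ) : HasDerivAt expNegInvGlue (x⁻¹ ^ 2 * expNegInvGlue x) x := by
  have := expNegInvGlue.hasDerivAt_polynomial_eval_inv_mul 1 x
  simpa using this

theorem bb_deriv (x : ℝ) : HasDerivAt bb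
    ((x - 3 / 4)⁻¹ ^ 2 * expNegInvGlue (x - 3 / 4) - (-x - 3 / 4)⁻¹ ^ 2 * expNegInvGlue (-x - 3 / 4)) x := by
  have e1 : HasDerivAt (fun x : ℝ => x - 3 / 4) 1 x := (hasDerivAt_id x).sub_const _
  have e2 : HasDerivAt (fun x : ℝ => -x - 3 / 4) (-1) x := (hasDerivAt_id x).neg.sub_const _
  have h1 : HasDerivAt (fun x : ℝ => expNegInvGlue (x - 3 / 4))
      ((x - 3 / 4)⁻¹ ^ 2 * expNegInvGlue (x - 3 / 4) * 1) x :=
    HasDerivAt.comp (h₂ := expNegInvGlue) x (glue_deriv (x - 3 / 4)) e1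
  have h2 : HasDerivAt (fun x : ℝ => expNegInvGlue (-x - 3 / 4))
      ((-x - 3 / 4)⁻¹ ^ 2 * expNegInvGlue (-x - 3 / 4) * (-1)) x :=
    HasDerivAt.comp (h₂ := expNegInvGlue) x (glue_deriv (-x - 3 / 4)) e2
  refine (h1.add h2).congr_deriv ?_
  ring

theorem bb₁_eq (x : ℝ) : bb₁ x =
    (x - 3 / 4)⁻¹ ^ 2 * expNegInvGlue (x - 3 / 4) - (-x - 3 / 4)⁻¹ ^ 2 * expNegInvGlue (-x - 3 / 4) :=
  (bb_deriv x).deriv

theorem bb_hasDeriv (x : ℝ) : HasDerivAt bb (bb₁ x) x := by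
  rw [bb₁_eq]
  exact bb_deriv x

theorem bb₁_hasDeriv (x : ℝ) : HasDerivAt bb₁ (deriv bb₁ x) x :=
  ((bb₁_smooth.differentiable (by norm_num)) x).hasDerivAt

theorem bb_zero {x : ℝ} (h : |x| ≤ 3 / 4) : bb x = 0 := by
  have h1 := abs_le.1 h
  unfold bb
  rw [expNegInvGlue.zero_of_nonpos (by linarith), expNegInvGlue.zero_of_nonpos (by linarith), add_zero]

theorem bb₁_zero {x : ℝ} (h : |x| ≤ 3 / 4) : bb₁ x = 0 := by
  have h1 := abs_le.1 h
  rw [bb₁_eq, expNegInvGlue.zero_of_nonpos (by linarith), expNegInvGlue.zero_of_nonpos (by linarith)]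
  ring

/-- the second derivative vanishes for `|x| ≤ 3/4` -/
theorem bb₂_zero {x : ℝ} (h : |x| ≤ 3 / 4) : deriv bb₁ x = 0 := by
  have hc : Continuous (deriv bb₁) := (contDiff_infty_iff_deriv.1 bb₁_smooth).2.continuous
  have hcl : IsClosed {x : ℝ | deriv bb₁ x = 0} := isClosed_eq hc continuous_const
  have h1 : Ioo (-(3 / 4) : ℝ) (3 / 4) ⊆ {x : ℝ | deriv bb₁ x = 0} := by
    intro y hy
    have h2 : bb₁ =ᶠ[𝓝 y] fun _ => (0 : ℝ) := by
      filter_upwards [isOpen_Ioo.mem_nhds hy] with u hu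
      exact bb₁_zero (abs_le.2 ⟨hu.1.le, hu.2.le⟩)
    show deriv bb₁ y = 0
    rw [h2.deriv_eq, deriv_const]
  have h3 := hcl.closure_subset_iff.2 h1
  rw [closure_Ioo (by norm_num)] at h3
  exact h3 (abs_le.1 h)

theorem bb₁_odd (x : ℝ) : bb₁ (-x) = -bb₁ x := by
  rw [bb₁_eq, bb₁_eq, neg_neg]
  ring

theorem bb_formula {x : ℝ} (h : 3 / 4 < x) : bb x = Real.exp (-(x - 3 / 4)⁻¹) ∧
    bb₁ x = (x - 3 / 4)⁻¹ ^ 2 * Real.exp (-(x - 3 / 4)⁻¹) := by
  have h1 : expNegInvGlue (-x - 3 / 4) = 0 := expNegInvGlue.zero_of_nonpos (by linarith)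
  have h2 : expNegInvGlue (x - 3 / 4) = Real.exp (-(x - 3 / 4)⁻¹) := by
    unfold expNegInvGlue
    rw [if_neg (by linarith)]
  constructor
  · unfold bb
    rw [h1, h2, add_zero]
  · rw [bb₁_eq, h1, h2, mul_zero, sub_zero]

theorem bb₁_ne {x : ℝ} (h : 3 / 4 < |x|) : bb₁ x ≠ 0 := by
  have key : ∀ y : ℝ, 3 / 4 < y → 0 < bb₁ y := by
    intro y hy
    rw [(bb_formula hy).2]
    have : 0 < (y - 3 / 4)⁻¹ := inv_pos.2 (by linarith)
    positivity
  rcases lt_abs.1 h with h | h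
  · exact (key x h).ne'
  · have := key (-x) h
    rw [bb₁_odd] at this
    linarith

/-- the basic bounds -/
theorem gg_bounds {x : ℝ} (h : |x| ≤ 1) : 0 ≤ x * bb₁ x - bb x ∧ x * bb₁ x - bb x ≤ 1 / 3 ∧
    (3 / 4 < |x| → 0 < x * bb₁ x - bb x) ∧ bb x ≤ 1 / 48 ∧ x * bb₁ x ≤ 1 / 3 ∧ |bb₁ x| ≤ 1 / 2 := by
  have key : ∀ y : ℝ, 3 / 4 < y → y ≤ 1 → 0 < y * bb₁ y - bb y ∧ y * bb₁ y ≤ 1 / 3 ∧ bb y ≤ 1 / 48 ∧
      |bb₁ y| ≤ 1 / 2 := by
    intro y hy hy1
    obtain ⟨e1, e2⟩ := bb_formula hy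
    obtain ⟨w, hw⟩ : ∃ w, w = (y - 3 / 4)⁻¹ := ⟨_, rfl⟩
    have hy0 : 0 < y - 3 / 4 := by linarith
    have hw4 : 4 ≤ w := by
      have h4 := inv_anti₀ hy0 (show y - 3 / 4 ≤ 1 / 4 by linarith)
      rw [hw]
      norm_num at h4 ⊢
      exact h4
    rw [e1, e2, ← hw]
    have hexp : 3 * w ^ 2 ≤ Real.exp w := by
      have h1 : Real.exp w = Real.exp 1 ^ 4 * Real.exp (w - 4) := by
        rw [← Real.exp_nat_mul, ← Real.exp_add]
        congr 1
        push_cast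
        ring
      have h2 : (54 : ℝ) ≤ Real.exp 1 ^ 4 := by
        have h3 : (2.718 : ℝ) ≤ Real.exp 1 := by
          have := Real.exp_one_gt_d9
          linarith
        calc (54 : ℝ) ≤ 2.718 ^ 4 := by norm_num
          _ ≤ _ := pow_le_pow_left₀ (by norm_num) h3 4
      have h4 := Real.quadratic_le_exp_of_nonneg (x := w - 4) (by linarith)
      rw [h1]
      have h5 : 0 ≤ 1 + (w - 4) + (w - 4) ^ 2 / 2 := by nlinarith
      calc 3 * w ^ 2 ≤ 54 * (1 + (w - 4) + (w - 4) ^ 2 / 2) := by nlinarith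
        _ ≤ Real.exp 1 ^ 4 * Real.exp (w - 4) := mul_le_mul h2 h4 h5 (by positivity)
    have hpos := Real.exp_pos (-w)
    have hinv : Real.exp (-w) * Real.exp w = 1 := by
      rw [← Real.exp_add]
      simp
    have hb : Real.exp (-w) * (3 * w ^ 2) ≤ 1 := by
      rw [← hinv]
      exact mul_le_mul_of_nonneg_left hexp hpos.le
    have hw0 : 0 < w := by linarith
    refine ⟨?_, ?_, ?_, ?_⟩
    · have h1 : 1 < y * w ^ 2 := by nlinarith
      nlinarith
    · have h1 : y * (w ^ 2 * Real.exp (-w)) ≤ 1 * (w ^ 2 * Real.exp (-w)) :=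
        mul_le_mul_of_nonneg_right hy1 (by positivity)
      linarith
    · have h16 : Real.exp (-w) * 48 ≤ Real.exp (-w) * (3 * w ^ 2) :=
        mul_le_mul_of_nonneg_left (by nlinarith) hpos.le
      linarith
    · rw [abs_of_pos (by positivity)]
      linarith
  rcases le_or_gt |x| (3 / 4) with h0 | h0
  · rw [bb_zero h0, bb₁_zero h0]
    refine ⟨by norm_num, by norm_num, fun h => absurd h (not_lt.2 h0), by norm_num, by norm_num, by norm_num⟩
  · have h2 : x * bb₁ x = |x| * bb₁ |x| ∧ bb x = bb |x| ∧ |bb₁ x| = |bb₁ (|x|)| := by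
      rcases abs_cases x with ⟨h3, _⟩ | ⟨h3, _⟩
      · rw [h3]
        exact ⟨rfl, rfl, rfl⟩
      · rw [h3, bb₁_odd, bb_even, abs_neg]
        exact ⟨by ring, rfl, rfl⟩
    obtain ⟨k1, k2, k3, k4⟩ := key |x| h0 h
    rw [h2.1, h2.2.1, h2.2.2]
    have k5 := bb_nonneg |x|
    exact ⟨k1.le, by linarith, fun _ => k1, k3, k2, k4⟩

theorem coord_le {X : E n} (h : ‖X‖ ≤ 1) (i : Fin n) : |X i| ≤ 1 := by
  have := PiLp.norm_apply_le X i
  rw [Real.norm_eq_abs] at this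
  linarith

theorem PhiX_smooth : ContDiff ℝ ∞ (PhiX (n := n)) := by
  unfold PhiX
  refine ContDiff.sum fun i _ => ?_
  exact bb_smooth.comp (EuclideanSpace.proj (𝕜 := ℝ) i).contDiff

theorem psiX_smooth : ContDiff ℝ ∞ (psiX (n := n)) := by
  unfold psiX
  refine contDiff_const.sub (ContDiff.sum fun i _ => ?_)
  have h : ContDiff ℝ ∞ (fun X : E n => X i) := (EuclideanSpace.proj (𝕜 := ℝ) i).contDiff
  exact (h.mul (bb₁_smooth.comp h)).sub (bb_smooth.comp h)

theorem psiX_Psi : ∃ B : ℝ, Psi (psiX (n := 3)) B := by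
  have hψ := psiX_smooth (n := 3)
  have hd1 : ContDiff ℝ ∞ (fderiv ℝ (psiX (n := 3))) := hψ.fderiv_right le_rfl
  have hd2 : ContDiff ℝ ∞ (fderiv ℝ (fderiv ℝ (psiX (n := 3)))) := hd1.fderiv_right le_rfl
  have hbd : ∀ g : E 3 → ℝ, Continuous g → ∃ B, ∀ x ∈ Metric.closedBall (0 : E 3) 1, g x ≤ B := by
    intro g hg
    obtain ⟨B, hB⟩ := (isCompact_closedBall (0 : E 3) 1).bddAbove_image hg.continuousOn
    exact ⟨B, fun x hx => hB (mem_image_of_mem g hx)⟩
  obtain ⟨B1, hB1⟩ := hbd _ hd1.continuous.norm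
  obtain ⟨B2, hB2⟩ := hbd _ ((continuous_norm (E := E 3 →L[ℝ] E 3 →L[ℝ] ℝ)).comp hd2.continuous)
  refine ⟨max 1 (max B1 B2), hψ, fun x hx => ?_, fun x hx => ?_, le_max_left _ _, fun x hx => ?_,
    fun x hx => ?_⟩
  · have h1 : ∑ i, (x i * bb₁ (x i) - bb (x i)) ≤ ∑ _i : Fin 3, (1 / 3 : ℝ) :=
      Finset.sum_le_sum fun i _ => (gg_bounds (coord_le hx i)).2.1
    simp at h1
    unfold psiX
    simp
    linarith
  · have h1 : 0 ≤ ∑ i, (x i * bb₁ (x i) - bb (x i)) :=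
      Finset.sum_nonneg fun i _ => (gg_bounds (coord_le hx i)).1
    unfold psiX
    linarith
  · exact (hB1 x (mem_closedBall_zero_iff.2 hx)).trans
      ((le_max_left _ _).trans (le_max_right _ _))
  · exact (hB2 x (mem_closedBall_zero_iff.2 hx)).trans
      ((le_max_right _ _).trans (le_max_right _ _))

theorem psiX_lt {X : E n} (hX : ‖X‖ ≤ 1) {i : Fin n} (h : 3 / 4 < |X i|) : psiX X < 1 := by
  have h1 : 0 < ∑ i, (X i * bb₁ (X i) - bb (X i)) := by
    refine Finset.sum_pos' (fun j _ => (gg_bounds (coord_le hX j)).1) ⟨i, Finset.mem_univ _, ?_⟩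
    exact (gg_bounds (coord_le hX i)).2.2.1 h
  unfold psiX
  linarith

/-- every great circle of the unit sphere of `ℝ³` meets one of the caps -/
theorem psiX_circ : Circ (psiX (n := 3)) := by
  intro a b ha hb hab
  have hpi := Real.pi_pos
  have h1 : ∑ i, ((a i) ^ 2 + (b i) ^ 2) = 2 := by
    rw [Finset.sum_add_distrib]
    have h2 := EuclideanSpace.real_norm_sq_eq a
    have h3 := EuclideanSpace.real_norm_sq_eq b
    rw [ha] at h2
    rw [hb] at h3
    linarith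
  have h2 : ∃ i, 2 / 3 ≤ (a i) ^ 2 + (b i) ^ 2 := by
    by_contra hc
    push Not at hc
    have h3 : ∑ i, ((a i) ^ 2 + (b i) ^ 2) < ∑ _i : Fin 3, (2 / 3 : ℝ) :=
      Finset.sum_lt_sum_of_nonempty Finset.univ_nonempty fun i _ => hc i
    simp at h3
    simp at h1
    linarith
  obtain ⟨i, hi⟩ := h2
  obtain ⟨R, hR⟩ : ∃ R, R = Real.sqrt ((a i) ^ 2 + (b i) ^ 2) := ⟨_, rfl⟩
  have hR2 : R ^ 2 = (a i) ^ 2 + (b i) ^ 2 := by rw [hR]; exact Real.sq_sqrt (by positivity)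
  have hR0 : 0 ≤ R := by rw [hR]; exact Real.sqrt_nonneg _
  have hR34 : 3 / 4 < R := by nlinarith
  have hRpos : 0 < R := by linarith
  have key : ∃ t ∈ Icc (0 : ℝ) Real.pi, |Real.cos t * a i + Real.sin t * b i| = R := by
    have hle : (a i / R) ^ 2 ≤ 1 := by
      rw [div_pow, div_le_one (by positivity), hR2]
      nlinarith [sq_nonneg (b i)]
    have hle' := abs_le.1 ((sq_le_one_iff_abs_le_one _).1 hle)
    have hs : Real.sqrt (1 - (a i / R) ^ 2) = |b i| / R := by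
      have : 1 - (a i / R) ^ 2 = (|b i| / R) ^ 2 := by
        rw [div_pow, div_pow, sq_abs]
        field_simp
        linarith
      rw [this, Real.sqrt_sq (by positivity)]
    rcases le_total 0 (b i) with hb0 | hb0
    · refine ⟨Real.arccos (a i / R), ⟨Real.arccos_nonneg _, Real.arccos_le_pi _⟩, ?_⟩
      rw [Real.cos_arccos hle'.1 hle'.2, Real.sin_arccos, hs, abs_of_nonneg hb0]
      have : a i / R * a i + b i / R * b i = R := by
        field_simp
        linarith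
      rw [this, abs_of_pos hRpos]
    · refine ⟨Real.arccos (-(a i / R)), ⟨Real.arccos_nonneg _, Real.arccos_le_pi _⟩, ?_⟩
      rw [Real.cos_arccos (by linarith) (by linarith), Real.sin_arccos, neg_sq, hs, abs_of_nonpos hb0]
      have : -(a i / R) * a i + -b i / R * b i = -R := by
        field_simp
        linarith
      rw [this, abs_neg, abs_of_pos hRpos]
  obtain ⟨t, ht, htR⟩ := key
  have hopen : IsOpen {t : ℝ | 3 / 4 < |Real.cos t * a i + Real.sin t * b i|} := by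
    have hc : Continuous fun t : ℝ => |Real.cos t * a i + Real.sin t * b i| := by fun_prop
    exact isOpen_lt continuous_const hc
  have hcl : t ∈ closure (Ioo (0 : ℝ) Real.pi) := by
    rw [closure_Ioo hpi.ne]
    exact ht
  obtain ⟨s, hs1, hs2⟩ := mem_closure_iff.1 hcl _ hopen (show t ∈ {t : ℝ | _} by
    show 3 / 4 < |Real.cos t * a i + Real.sin t * b i|
    rw [htR]
    exact hR34)
  refine ⟨s, hs2, psiX_lt (i := i) ?_ ?_⟩
  · have h3 : ‖Real.cos s • a + Real.sin s • b‖ ^ 2 = 1 := by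
      rw [norm_add_sq_real, norm_smul, norm_smul, inner_smul_left, inner_smul_right, hab, ha, hb]
      simp only [Real.norm_eq_abs, mul_one, sq_abs, mul_zero, add_zero]
      exact Real.cos_sq_add_sin_sq s
    nlinarith [norm_nonneg (Real.cos s • a + Real.sin s • b)]
  · exact hs1

end SW
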