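import Pool.Agent.helper71.SW.S1
import Pool.Agent.helper71.SN.J1
import Pool.Agent.helper71.SN.O4

/-! SN-C1 -/

noncomputable section

namespace SW

open SN KBR Set Filter Topology
open scoped ContDiff RealInnerProductSpace

variable {n : ℕ}

variable {τ B ε zb zn : ℝ} {μ μ₁ μ₂ Q Q₁ Q₂ : ℝ → ℝ} {ψ : E n → ℝ}

theorem C1_fderiv {κ : ℝ} (hκ : 0 < κ) (x v b : E n) :
    fderiv ℝ (fun y => ⟪XX κ y, b⟫) x v = ⟪fderiv ℝ (XX κ) x v, b⟫ := by
  have hd : DifferentiableAt ℝ (XX (n := n) κ) x := (XX_smooth hκ).differentiable (by simp) x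
  have h := fderiv_inner_apply ℝ hd (differentiableAt_const b) v
  rw [h]
  simp

theorem C1_sphere {κ : ℝ} (hκ : 0 < κ) (x v : E n) :
    ⟪XX κ x, fderiv ℝ (XX κ) x v⟫ + zz κ x * fderiv ℝ (zz κ) x v = 0 := by
  have hd : DifferentiableAt ℝ (XX (n := n) κ) x := (XX_smooth hκ).differentiable (by simp) x
  have hz : DifferentiableAt ℝ (zz (n := n) κ) x := (zz_smooth hκ).differentiable (by simp) x
  have h0 : (fun y : E n => ⟪XX κ y, XX κ y⟫ + zz κ y * zz κ y) = fun _ => (1 : ℝ) := by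
    funext y
    rw [real_inner_self_eq_norm_sq, ← round_sphere hκ y]
    ring
  have h1 : fderiv ℝ (fun y : E n => ⟪XX κ y, XX κ y⟫ + zz κ y * zz κ y) x v = 0 := by
    rw [h0]
    simp
  have h2 := ((hd.hasFDerivAt.inner ℝ hd.hasFDerivAt).add (hz.hasFDerivAt.mul hz.hasFDerivAt)).fderiv
  have h3 : fderiv ℝ (fun y : E n => ⟪XX κ y, XX κ y⟫ + zz κ y * zz κ y) x v =
      2 * (⟪XX κ x, fderiv ℝ (XX κ) x v⟫ + zz κ x * fderiv ℝ (zz κ) x v) := by
    have h4 : fderiv ℝ (fun y : E n => ⟪XX κ y, XX κ y⟫ + zz κ y * zz κ y) x =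
      _ := h2
    rw [h4]
    simp [fderivInnerCLM_apply]
    rw [real_inner_comm (XX κ x) (fderiv ℝ (XX κ) x v)]
    ring
  rw [h1] at h3
  linarith

/-- the coordinates in `ℝⁿ` along a geodesic -/
theorem C1_X (h : Par τ B ε zb zn μ μ₁ μ₂ Q Q₁ Q₂ ψ) {T : ℝ}
    (hT : T ≤ Real.pi) {c v : ℝ → E n} (hg : UGeod (LL (kap zb) μ Q ψ) T c v) (b : E n)
    (hb : ‖b‖ ≤ 1) :
    (∀ t ∈ Icc 0 T, HasDerivWithinAt (fun s => ⟪XX (kap zb) (c s), b⟫)
      ⟪fderiv ℝ (XX (kap zb)) (c t) (v t), b⟫ (Icc 0 T) t) ∧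
    (∀ t ∈ Icc 0 T, HasDerivWithinAt (fun s => ⟪fderiv ℝ (XX (kap zb)) (c s) (v s), b⟫)
      (hess (LL (kap zb) μ Q ψ) (fun y => ⟪XX (kap zb) y, b⟫) (c t) (v t)) (Icc 0 T) t) ∧
    (∀ t ∈ Icc 0 T, |hess (LL (kap zb) μ Q ψ) (fun y => ⟪XX (kap zb) y, b⟫) (c t) (v t)
      + ⟪XX (kap zb) (c t), b⟫| ≤ 20 * ε) := by
  have hκ := kap_pos h
  have hf : ContDiff ℝ 2 (fun y : E n => ⟪XX (kap zb) y, b⟫) :=
    ((XX_smooth hκ).inner ℝ contDiff_const).of_le (WithTop.coe_le_coe.2 (le_top : (2 : ℕ∞) ≤ ⊤))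
  refine ⟨?_, ?_, ?_⟩
  · intro t ht
    have := hess_along1 (L := LL (kap zb) μ Q ψ) hf hg.toCGeod t ht
    rwa [C1_fderiv hκ] at this
  · intro t ht
    have := hess_along2 (L := LL (kap zb) μ Q ψ) hf hg.toCGeod t ht
    simpa only [C1_fderiv hκ] using this
  · intro t ht
    exact est_dX h (hg.mem t ht) (hg.unit t ht) hb

/-- the height along a geodesic -/
theorem C1_z (h : Par τ B ε zb zn μ μ₁ μ₂ Q Q₁ Q₂ ψ) {T : ℝ}
    (hT : T ≤ Real.pi) {c v : ℝ → E n} (hg : UGeod (LL (kap zb) μ Q ψ) T c v) :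
    (∀ t ∈ Icc 0 T, HasDerivWithinAt (fun s => zz (kap zb) (c s))
      (fderiv ℝ (zz (kap zb)) (c t) (v t)) (Icc 0 T) t) ∧
    (∀ t ∈ Icc 0 T, HasDerivWithinAt (fun s => fderiv ℝ (zz (kap zb)) (c s) (v s))
      (hess (LL (kap zb) μ Q ψ) (zz (kap zb)) (c t) (v t)) (Icc 0 T) t) ∧
    (∀ t ∈ Icc 0 T, |hess (LL (kap zb) μ Q ψ) (zz (kap zb)) (c t) (v t)
      + zz (kap zb) (c t)| ≤ 20 * ε) := by
  have hκ := kap_pos h
  have hf : ContDiff ℝ 2 (zz (n := n) (kap zb)) :=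
    (zz_smooth hκ).of_le (WithTop.coe_le_coe.2 (le_top : (2 : ℕ∞) ≤ ⊤))
  refine ⟨?_, ?_, ?_⟩
  · intro t ht
    exact hess_along1 (L := LL (kap zb) μ Q ψ) hf hg.toCGeod t ht
  · intro t ht
    exact hess_along2 (L := LL (kap zb) μ Q ψ) hf hg.toCGeod t ht
  · intro t ht
    exact est_dz h (hg.mem t ht) (hg.unit t ht)

/-- SN-C1 (a): unit speed geodesics are close to great circles -/
theorem close_circ (h : Par τ B ε zb zn μ μ₁ μ₂ Q Q₁ Q₂ ψ) {T : ℝ} (hT0 : 0 ≤ T)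
    (hT : T ≤ Real.pi) {c v : ℝ → E n} (hg : UGeod (LL (kap zb) μ Q ψ) T c v) :
    ∃ a b : E n × ℝ, ON a b ∧ ∀ t ∈ Icc 0 T,
      ‖XX (kap zb) (c t) - (circ a b t).1‖ ≤ 50 * ε ∧
      |zz (kap zb) (c t) - (circ a b t).2| ≤ 50 * ε := by
  have hκ := kap_pos h
  have hε := h.prof.ε_pos
  have hτ := h.τ_pos
  have hτ1 : τ ≤ 1 / 200 := by
    have h1 := h.τ_le
    have h2 := h.psi.one_le
    nlinarith
  have h0 : (0 : ℝ) ∈ Icc 0 T := ⟨le_rfl, hT0⟩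
  set s : ℝ := Real.exp (2 * LR (kap zb) (c 0)) * ‖v 0‖ ^ 2 with hs
  have hs1 : |s - 1| ≤ 8 * (ε * τ) := est_s h (hg.mem 0 h0) (hg.unit 0 h0)
  have hετ : ε * τ ≤ ε / 200 := by nlinarith
  have hετ1 : ε * τ ≤ 1 / 200 := by
    have : ε ≤ 1 := h.prof.ε_le.trans (by linarith)
    nlinarith
  have hspos : 0 < s := by
    have := (abs_le.1 hs1).1
    linarith
  set r : ℝ := Real.sqrt s with hr
  have hrpos : 0 < r := Real.sqrt_pos.2 hspos
  have hrr : r ^ 2 = s := Real.sq_sqrt hspos.le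
  have hr1 : |r - 1| ≤ ε / 25 := by
    have h1 : (r - 1) * (r + 1) = s - 1 := by rw [← hrr]; ring
    have h2 : |r - 1| * (r + 1) = |s - 1| := by
      rw [← h1, abs_mul, abs_of_pos (by linarith : (0 : ℝ) < r + 1)]
    have h3 : |r - 1| ≤ |r - 1| * (r + 1) := by
      have := abs_nonneg (r - 1)
      nlinarith
    linarith
  set X₁ : E n := fderiv ℝ (XX (kap zb)) (c 0) (v 0) with hX₁
  set z₁ : ℝ := fderiv ℝ (zz (kap zb)) (c 0) (v 0) with hz₁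
  have hconf : ‖X₁‖ ^ 2 + z₁ ^ 2 = s := by
    have := round_conf hκ (c 0) (v 0) (v 0)
    rw [real_inner_self_eq_norm_sq, real_inner_self_eq_norm_sq] at this
    rw [hs, ← this]
    ring
  have hsph := C1_sphere hκ (c 0) (v 0)
  have hrs : r⁻¹ ^ 2 * s = 1 := by
    rw [← hrr]
    field_simp
  have hX₁le : ‖X₁‖ ≤ r := by
    have : ‖X₁‖ ^ 2 ≤ r ^ 2 := by
      rw [hrr, ← hconf]
      nlinarith [sq_nonneg z₁]
    exact (sq_le_sq₀ (norm_nonneg _) hrpos.le).1 this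
  have hz₁le : |z₁| ≤ r := by
    have : |z₁| ^ 2 ≤ r ^ 2 := by
      rw [sq_abs, hrr, ← hconf]
      nlinarith [sq_nonneg ‖X₁‖]
    exact (sq_le_sq₀ (abs_nonneg _) hrpos.le).1 this
  have hinv : |1 - r⁻¹| * r ≤ ε / 25 := by
    rw [← abs_of_pos hrpos, ← abs_mul, abs_of_pos hrpos]
    have : (1 - r⁻¹) * r = r - 1 := by field_simp
    rw [this]
    exact hr1
  refine ⟨(XX (kap zb) (c 0), zz (kap zb) (c 0)), (r⁻¹ • X₁, r⁻¹ * z₁), ⟨?_, ?_, ?_⟩, ?_⟩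
  · exact round_sphere hκ (c 0)
  · show ‖r⁻¹ • X₁‖ ^ 2 + (r⁻¹ * z₁) ^ 2 = 1
    rw [norm_smul, mul_pow, Real.norm_eq_abs, sq_abs, mul_pow, ← mul_add, hconf, hrs]
  · show ⟪XX (kap zb) (c 0), r⁻¹ • X₁⟫ + zz (kap zb) (c 0) * (r⁻¹ * z₁) = 0
    rw [real_inner_smul_right]
    have : r⁻¹ * ⟪XX (kap zb) (c 0), X₁⟫ + zz (kap zb) (c 0) * (r⁻¹ * z₁) =
      r⁻¹ * (⟪XX (kap zb) (c 0), X₁⟫ + zz (kap zb) (c 0) * z₁) := by ring
    rw [this, hsph, mul_zero]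
  · intro t ht
    have hcos : ∀ η : ℝ, 0 ≤ η → η * (1 - Real.cos t) ≤ 2 * η := by
      intro η hη
      have := Real.neg_one_le_cos t
      nlinarith
    have hsin : |Real.sin t| ≤ 1 := Real.abs_sin_le_one t
    constructor
    · show ‖XX (kap zb) (c t) - (Real.cos t • XX (kap zb) (c 0) + Real.sin t • (r⁻¹ • X₁))‖ ≤ 50 * ε
      set y : E n := XX (kap zb) (c t) - (Real.cos t • XX (kap zb) (c 0) + Real.sin t • (r⁻¹ • X₁)) with hy
      by_cases hy0 : y = 0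
      · rw [hy0, norm_zero]
        positivity
      have hyn : 0 < ‖y‖ := norm_pos_iff.2 hy0
      set b : E n := ‖y‖⁻¹ • y with hb
      have hbn : ‖b‖ = 1 := by
        rw [hb, norm_smul, norm_inv, norm_norm]
        field_simp
      obtain ⟨g1, g2, g3⟩ := C1_X h hT hg b hbn.le
      have g4 := od_close hT g1 g2 g3 t ht
      have g5 := hcos (20 * ε) (by positivity)
      have e1 : ‖y‖ = ⟪y, b⟫ := by
        rw [hb, real_inner_smul_right, real_inner_self_eq_norm_sq]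
        field_simp
      have e2 : ⟪y, b⟫ = (⟪XX (kap zb) (c t), b⟫ -
          (⟪XX (kap zb) (c 0), b⟫ * Real.cos t + ⟪X₁, b⟫ * Real.sin t)) +
          (1 - r⁻¹) * (⟪X₁, b⟫ * Real.sin t) := by
        rw [hy, inner_sub_left, inner_add_left, real_inner_smul_left, real_inner_smul_left,
          real_inner_smul_left]
        ring
      have e3 : |(1 - r⁻¹) * (⟪X₁, b⟫ * Real.sin t)| ≤ ε / 25 := by
        rw [abs_mul, abs_mul]
        have i1 : |⟪X₁, b⟫| ≤ r := by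
          refine (abs_real_inner_le_norm X₁ b).trans ?_
          rw [hbn, mul_one]
          exact hX₁le
        have i2 : |⟪X₁, b⟫| * |Real.sin t| ≤ r * 1 :=
          mul_le_mul i1 hsin (abs_nonneg _) hrpos.le
        calc |1 - r⁻¹| * (|⟪X₁, b⟫| * |Real.sin t|) ≤ |1 - r⁻¹| * (r * 1) :=
              mul_le_mul_of_nonneg_left i2 (abs_nonneg _)
          _ = |1 - r⁻¹| * r := by ring
          _ ≤ ε / 25 := hinv
      have e4 := (abs_le.1 g4).2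
      have e5 := (abs_le.1 e3).2
      rw [e1, e2]
      linarith
    · show |zz (kap zb) (c t) - (Real.cos t * zz (kap zb) (c 0) + Real.sin t * (r⁻¹ * z₁))| ≤ 50 * ε
      obtain ⟨g1, g2, g3⟩ := C1_z h hT hg
      have g4 := od_close hT g1 g2 g3 t ht
      have g5 := hcos (20 * ε) (by positivity)
      have e2 : zz (kap zb) (c t) - (Real.cos t * zz (kap zb) (c 0) + Real.sin t * (r⁻¹ * z₁)) =
          (zz (kap zb) (c t) - (zz (kap zb) (c 0) * Real.cos t + z₁ * Real.sin t)) +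
          (1 - r⁻¹) * (z₁ * Real.sin t) := by
        ring
      have e3 : |(1 - r⁻¹) * (z₁ * Real.sin t)| ≤ ε / 25 := by
        rw [abs_mul, abs_mul]
        have i2 : |z₁| * |Real.sin t| ≤ r * 1 :=
          mul_le_mul hz₁le hsin (abs_nonneg _) hrpos.le
        calc |1 - r⁻¹| * (|z₁| * |Real.sin t|) ≤ |1 - r⁻¹| * (r * 1) :=
              mul_le_mul_of_nonneg_left i2 (abs_nonneg _)
          _ = |1 - r⁻¹| * r := by ring
          _ ≤ ε / 25 := hinv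
      rw [e2]
      refine (abs_add_le _ _).trans ?_
      linarith

/-- SN-C1 (b): there are no geodesic loops of length at most `π` -/
theorem no_loop (h : Par τ B ε zb zn μ μ₁ μ₂ Q Q₁ Q₂ ψ) (hε : 50 * ε < 1) {T : ℝ} (hT0 : 0 < T)
    (hT : T ≤ Real.pi) {c v : ℝ → E n} (hg : UGeod (LL (kap zb) μ Q ψ) T c v) : c T ≠ c 0 := by
  intro hc
  have hκ := kap_pos h
  have hε0 := h.prof.ε_pos
  have hTm : T ∈ Icc 0 T := ⟨hT0.le, le_rfl⟩
  have hsph := round_sphere hκ (c 0)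
  have hXn : ‖XX (kap zb) (c 0)‖ ≤ 1 := by
    have : ‖XX (kap zb) (c 0)‖ ^ 2 ≤ 1 := by nlinarith [sq_nonneg (zz (kap zb) (c 0))]
    nlinarith [norm_nonneg (XX (kap zb) (c 0))]
  have hzn : |zz (kap zb) (c 0)| ≤ 1 := by
    rw [abs_le_one_iff_mul_self_le_one]
    nlinarith [sq_nonneg ‖XX (kap zb) (c 0)‖]
  obtain ⟨g1, g2, g3⟩ := C1_X h hT hg (XX (kap zb) (c 0)) hXn
  obtain ⟨k1, k2, k3⟩ := C1_z h hT hg
  set z₀ : ℝ := zz (kap zb) (c 0) with hz₀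
  have key := od_close (η := 40 * ε) hT
    (u := fun s => ⟪XX (kap zb) (c s), XX (kap zb) (c 0)⟫ + zz (kap zb) (c s) * z₀)
    (u' := fun s => ⟪fderiv ℝ (XX (kap zb)) (c s) (v s), XX (kap zb) (c 0)⟫ +
      fderiv ℝ (zz (kap zb)) (c s) (v s) * z₀)
    (u'' := fun s => hess (LL (kap zb) μ Q ψ) (fun y => ⟪XX (kap zb) y, XX (kap zb) (c 0)⟫) (c s) (v s) +
      hess (LL (kap zb) μ Q ψ) (zz (kap zb)) (c s) (v s) * z₀)
    (fun t ht => (g1 t ht).add ((k1 t ht).mul_const z₀))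
    (fun t ht => (g2 t ht).add ((k2 t ht).mul_const z₀))
    (fun t ht => by
      have e1 := g3 t ht
      have e2 := k3 t ht
      have e3 : |(hess (LL (kap zb) μ Q ψ) (zz (kap zb)) (c t) (v t) + zz (kap zb) (c t)) * z₀| ≤
          20 * ε := by
        rw [abs_mul]
        calc _ ≤ 20 * ε * 1 := mul_le_mul e2 hzn (abs_nonneg _) (by positivity)
          _ = 20 * ε := by ring
      have e4 : hess (LL (kap zb) μ Q ψ) (fun y => ⟪XX (kap zb) y, XX (kap zb) (c 0)⟫) (c t) (v t) +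
          hess (LL (kap zb) μ Q ψ) (zz (kap zb)) (c t) (v t) * z₀ +
          (⟪XX (kap zb) (c t), XX (kap zb) (c 0)⟫ + zz (kap zb) (c t) * z₀) =
          (hess (LL (kap zb) μ Q ψ) (fun y => ⟪XX (kap zb) y, XX (kap zb) (c 0)⟫) (c t) (v t) +
            ⟪XX (kap zb) (c t), XX (kap zb) (c 0)⟫) +
          (hess (LL (kap zb) μ Q ψ) (zz (kap zb)) (c t) (v t) + zz (kap zb) (c t)) * z₀ := by ring
      rw [e4]
      refine (abs_add_le _ _).trans ?_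
      linarith) T hTm
  have hu0 : ⟪XX (kap zb) (c 0), XX (kap zb) (c 0)⟫ + z₀ * z₀ = 1 := by
    rw [real_inner_self_eq_norm_sq, ← hsph]
    ring
  have hu1 : ⟪fderiv ℝ (XX (kap zb)) (c 0) (v 0), XX (kap zb) (c 0)⟫ +
      fderiv ℝ (zz (kap zb)) (c 0) (v 0) * z₀ = 0 := by
    have := C1_sphere hκ (c 0) (v 0)
    rw [real_inner_comm] at this
    linarith
  simp only [hc, hu1] at key
  rw [← hz₀, hu0] at key
  have hcos : Real.cos T < 1 := by
    have := Real.cos_lt_cos_of_nonneg_of_le_pi le_rfl hT hT0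
    rwa [Real.cos_zero] at this
  have := (abs_le.1 key).2
  nlinarith

end SW
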