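import Pool.Agent.helper71.SN.Defs2

/-!
# A simple metric on the ball of `ℝ³` and a non-injective weighted ray transform: definitions
-/

noncomputable section

namespace SW

open SN KBR Set Filter Topology
open scoped ContDiff RealInnerProductSpace

variable {n : ℕ}

/-- the angular function `ψ` -/
structure Psi (ψ : E n → ℝ) (B : ℝ) : Prop where
  smooth : ContDiff ℝ ∞ ψ
  nonneg : ∀ x, ‖x‖ ≤ 1 → 0 ≤ ψ x
  le_one : ∀ x, ‖x‖ ≤ 1 → ψ x ≤ 1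
  one_le : 1 ≤ B
  b1 : ∀ x, ‖x‖ ≤ 1 → ‖fderiv ℝ ψ x‖ ≤ B
  b2 : ∀ x, ‖x‖ ≤ 1 → ‖fderiv ℝ (fderiv ℝ ψ) x‖ ≤ B

/-- the even function `β(|x|)`, `β(x) = exp(-1/(x - 3/4))` for `x > 3/4` -/
def bb (x : ℝ) : ℝ := expNegInvGlue (x - 3 / 4) + expNegInvGlue (-x - 3 / 4)

/-- its derivative -/
def bb₁ (x : ℝ) : ℝ := deriv bb x

/-- `Φ = Σ β(|X_i|)` -/
def PhiX (X : E n) : ℝ := ∑ i, bb (X i)

/-- `ψ = 1 - Σ (|X_i| β'(|X_i|) - β(|X_i|))` -/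
def psiX (X : E n) : ℝ := 1 - ∑ i, (X i * bb₁ (X i) - bb (X i))

/-- what is needed from the geometry: a simple metric `e^{2L}|dx|²`, a domain `{ρ > 0}` and a phase
function `Φ` such that the geodesics tangent to `{ρ = 0}` and to the level sets of `Φ` enter
`{ρ > 0}` on both sides -/
structure Geo (L ρ Φ : E n → ℝ) : Prop where
  good : Good L
  smoothρ : ContDiff ℝ ∞ ρ
  smoothΦ : ContDiff ℝ ∞ Φ
  neg : ∀ x, 1 ≤ ‖x‖ → ρ x < 0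
  pos : ∃ x, 0 < ρ x
  key : ∀ x v, ‖x‖ ≤ 1 → v ≠ 0 → ρ x = 0 → fderiv ℝ ρ x v = 0 → fderiv ℝ Φ x v = 0 →
    0 < hess L ρ x v

end SW
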