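import Pool.Agent.helper71.SN.FL2
import Pool.Agent.helper71.SN.E3
import Pool.Agent.helper71.SN.E4
import Pool.Agent.helper71.SW.Defs

/-! The geodesic flow, cut off outside a neighbourhood of `M` -/

noncomputable section

namespace SW

open SN KBR Set Filter Topology
open scoped ContDiff RealInnerProductSpace NNReal

variable {n : ℕ}

/-- properties of the cut off geodesic flow -/
structure CF (L : E n → ℝ) (K δ : ℝ) (om : E n × E n → ℝ) (φ : ℝ → E n × E n → E n × E n) :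
    Prop where
  smoothL : ContDiff ℝ ∞ L
  smooth : ContDiff ℝ ∞ (fun p : ℝ × (E n × E n) => φ p.1 p.2)
  zero : ∀ z, φ 0 z = z
  add : ∀ s t z, φ (s + t) z = φ s (φ t z)
  d1 : ∀ z t, HasDerivAt (fun s => (φ s z).1) (om (φ t z) • (φ t z).2) t
  d2 : ∀ z t, HasDerivAt (fun s => (φ s z).2) (om (φ t z) • gacc L (φ t z).1 (φ t z).2) t
  stuck : ∀ z t, om (φ t z) = 0 → ∀ s, φ s z = φ t z
  om_smooth : ContDiff ℝ ∞ om
  om_nonneg : ∀ p, 0 ≤ om p
  om_one : ∀ p, ‖p.1‖ ≤ 1 + δ / 4 → ‖p.2‖ ≤ K → om p = 1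
  om_zero : ∀ p, 1 + δ / 2 ≤ ‖p.1‖ → om p = 0
  δ_pos : 0 < δ
  δ_le : δ ≤ 1
  conv : ∀ x : E n, 1 ≤ ‖x‖ → ‖x‖ < 1 + δ → 0 < 1 + fderiv ℝ L x x
  bound : ∀ x v : E n, ‖x‖ ≤ 2 → Real.exp (2 * L x) * ‖v‖ ^ 2 ≤ 4 → ‖v‖ ≤ K
  uniq : ∀ (T : ℝ) (c v : ℝ → E n), CGeod L T c v → (∀ t ∈ Icc 0 T, ‖v t‖ ≤ K) →
    ∀ t ∈ Icc 0 T, φ t (c 0, v 0) = (c t, v t)

theorem exists_K {L : E n → ℝ} (hL : ContDiff ℝ ∞ L) : ∃ K : ℝ, 0 < K ∧
    ∀ x v : E n, ‖x‖ ≤ 2 → Real.exp (2 * L x) * ‖v‖ ^ 2 ≤ 4 → ‖v‖ ≤ K := by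
  obtain ⟨C, hC⟩ := (isCompact_closedBall (0 : E n) 2).bddAbove_image
    (hL.continuous.neg.continuousOn)
  refine ⟨2 * Real.exp (|C|), by positivity, fun x v hx hv => ?_⟩
  have h1 : -L x ≤ |C| := (hC (mem_image_of_mem _ (mem_closedBall_zero_iff.2 hx))).trans (le_abs_self C)
  have h2 : ‖v‖ ^ 2 ≤ (2 * Real.exp (|C|)) ^ 2 := by
    have h3 : Real.exp (-(2 * L x)) * (Real.exp (2 * L x) * ‖v‖ ^ 2) = ‖v‖ ^ 2 := by
      rw [← mul_assoc, ← Real.exp_add]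
      simp
    have h4 : Real.exp (-(2 * L x)) ≤ Real.exp (2 * |C|) := Real.exp_le_exp.2 (by linarith)
    have h5 : Real.exp (2 * |C|) = Real.exp (|C|) ^ 2 := by
      rw [← Real.exp_nat_mul]
      norm_num
    rw [← h3, mul_pow, ← h5]
    calc Real.exp (-(2 * L x)) * (Real.exp (2 * L x) * ‖v‖ ^ 2) ≤ Real.exp (2 * |C|) * 4 :=
          mul_le_mul h4 hv (by positivity) (Real.exp_pos _).le
      _ = _ := by ring
  exact (sq_le_sq₀ (norm_nonneg _) (by positivity)).1 h2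

theorem exists_cf {L : E n → ℝ} (hL : ContDiff ℝ ∞ L)
    (hb : ∀ x, ‖x‖ = 1 → 0 < 1 + fderiv ℝ L x x) : ∃ K δ om φ, CF L K δ om φ := by
  obtain ⟨δ', hδ', hconv⟩ := stays_delta hL hb
  obtain ⟨K, hK, hbound⟩ := exists_K hL
  obtain ⟨δ, hδ⟩ : ∃ δ, δ = min δ' 1 := ⟨_, rfl⟩
  have hδ0 : 0 < δ := by rw [hδ]; exact lt_min hδ' one_pos
  have hδ1 : δ ≤ 1 := by rw [hδ]; exact min_le_right _ _
  have hδδ : δ ≤ δ' := by rw [hδ]; exact min_le_left _ _
  let b₁ : ContDiffBump (0 : E n) :=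
    { rIn := 1 + δ / 4, rOut := 1 + δ / 2, rIn_pos := by positivity, rIn_lt_rOut := by linarith }
  let b₂ : ContDiffBump (0 : E n) :=
    { rIn := K, rOut := K + 1, rIn_pos := hK, rIn_lt_rOut := by linarith }
  obtain ⟨om, hom⟩ : ∃ om : E n × E n → ℝ, om = fun p => b₁ p.1 * b₂ p.2 := ⟨_, rfl⟩
  have homs : ContDiff ℝ ∞ om := by
    rw [hom]
    exact (b₁.contDiff.comp contDiff_fst).mul (b₂.contDiff.comp contDiff_snd)
  obtain ⟨X, hX⟩ : ∃ X : E n × E n → E n × E n, X = fun p => om p • FL2Aux.fld L p := ⟨_, rfl⟩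
  have hXs : ContDiff ℝ ∞ X := by
    rw [hX]
    exact homs.smul (FL2Aux.contDiff_fld hL)
  have hXc : HasCompactSupport X := by
    refine HasCompactSupport.intro (K := tsupport b₁ ×ˢ tsupport b₂)
      (b₁.hasCompactSupport.isCompact.prod b₂.hasCompactSupport.isCompact) ?_
    rintro ⟨x, v⟩ hxv
    have h1 : om (x, v) = 0 := by
      rw [hom]
      show b₁ x * b₂ v = 0
      by_cases hx : x ∈ tsupport b₁
      · have hz : v ∉ tsupport b₂ := fun hz => hxv ⟨hx, hz⟩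
        rw [image_eq_zero_of_notMem_tsupport hz, mul_zero]
      · rw [image_eq_zero_of_notMem_tsupport hx, zero_mul]
    rw [hX]
    show om (x, v) • _ = _
    rw [h1, zero_smul]
  obtain ⟨φ, h0, h1, h2, -, h4⟩ := smooth_flow X hXs hXc
  obtain ⟨Kl, hKl⟩ := FL1.lip hXs hXc
  have hom1 : ∀ p : E n × E n, ‖p.1‖ ≤ 1 + δ / 4 → ‖p.2‖ ≤ K → om p = 1 := by
    intro p hp1 hp2
    rw [hom]
    show b₁ p.1 * b₂ p.2 = 1
    rw [b₁.one_of_mem_closedBall (mem_closedBall_zero_iff.2 hp1),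
      b₂.one_of_mem_closedBall (mem_closedBall_zero_iff.2 hp2), mul_one]
  refine ⟨K, δ, om, φ, hL, h2, h0, ?_, ?_, ?_, ?_, homs, ?_, hom1, ?_, hδ0, hδ1, ?_, hbound, ?_⟩
  · intro s t z
    have h5 := KBRA.curve_unique hKl (fun s => (h1 (s + t) z).comp_add_const s t)
      (fun s => h1 s (φ t z)) (t₀ := 0) (by simp [h0])
    exact congrFun h5 s
  · intro z t
    have h5 := h1 t z
    rw [hX] at h5
    exact (ContinuousLinearMap.fst ℝ (E n) (E n)).hasFDerivAt.comp_hasDerivAt t h5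
  · intro z t
    have h5 := h1 t z
    rw [hX] at h5
    exact (ContinuousLinearMap.snd ℝ (E n) (E n)).hasFDerivAt.comp_hasDerivAt t h5
  · intro z t hz s
    have h5 : X (φ t z) = 0 := by
      rw [hX]
      show om (φ t z) • _ = _
      rw [hz, zero_smul]
    have h6 := KBRA.curve_unique hKl (fun s => h1 s z)
      (g := fun _ => φ t z) (fun s => by
        rw [h5]
        exact hasDerivAt_const s (φ t z)) (t₀ := t) rfl
    exact congrFun h6 s
  · intro p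
    rw [hom]
    exact mul_nonneg b₁.nonneg b₂.nonneg
  · intro p hp
    rw [hom]
    show b₁ p.1 * b₂ p.2 = 0
    rw [b₁.zero_of_le_dist (by rw [dist_zero_right]; exact hp), zero_mul]
  · intro x hx1 hx2
    exact hconv x hx1 (by linarith)
  · intro T c v hg hv t ht
    refine (h4 T (fun s => (c s, v s)) ?_ t ht).symm
    intro s hs
    have h6 : HasDerivWithinAt (fun s => (c s, v s)) (v s, gacc L (c s) (v s)) (Icc 0 T) s :=
      (hg.vel s hs).prodMk (hg.acc s hs)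
    have h7 : X (c s, v s) = (v s, gacc L (c s) (v s)) := by
      rw [hX]
      show om (c s, v s) • _ = _
      rw [hom1 (c s, v s) ?_ (hv s hs), one_smul]
      · rfl
      · have := hg.mem s hs
        rw [M, mem_closedBall_zero_iff] at this
        show ‖c s‖ ≤ _
        linarith
    rw [h7]
    exact h6

end SW
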