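import Pool.Agent.helper71.SW.F1

/-! Consequences for the orbits of the cut off geodesic flow which meet `M` -/

noncomputable section

namespace SW

open SN KBR Set Filter Topology
open scoped ContDiff RealInnerProductSpace NNReal

variable {n : ℕ} {L : E n → ℝ} {K δ : ℝ} {om : E n × E n → ℝ} {φ : ℝ → E n × E n → E n × E n}

/-- square of the speed -/
def spd (L : E n → ℝ) (z : E n × E n) : ℝ := Real.exp (2 * L z.1) * ‖z.2‖ ^ 2

/-- the compact set of phase points over `M` with speed in `[1/2, 2]` -/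
def KK (L : E n → ℝ) : Set (E n × E n) := {z | ‖z.1‖ ≤ 1 ∧ 1 / 4 ≤ spd L z ∧ spd L z ≤ 4}

theorem inner_gacc (L : E n → ℝ) (x v : E n) :
    ⟪v, gacc L x v⟫ = -(fderiv ℝ L x v) * ‖v‖ ^ 2 := by
  unfold gacc
  rw [inner_add_right, inner_smul_right, inner_smul_right, real_inner_self_eq_norm_sq,
    real_inner_comm, inner_gradient_left]
  ring

theorem CF.speed (h : CF L K δ om φ) (z : E n × E n) (t : ℝ) : spd L (φ t z) = spd L z := by
  have hder : ∀ t, HasDerivAt (fun s => spd L (φ s z)) 0 t := by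
    intro t
    have hd : HasFDerivAt L (fderiv ℝ L (φ t z).1) (φ t z).1 :=
      ((h.smoothL.differentiable (by norm_num)) _).hasFDerivAt
    have h3 : HasDerivAt (fun s => L (φ s z).1) (fderiv ℝ L (φ t z).1 (om (φ t z) • (φ t z).2)) t :=
      hd.comp_hasDerivAt t (h.d1 z t)
    have h4 := (h3.const_mul 2).exp
    have h5 := (h.d2 z t).norm_sq
    have h6 := h4.mul h5
    refine h6.congr_deriv ?_
    rw [map_smul, inner_smul_right, inner_gacc, smul_eq_mul]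
    ring
  have h1 := is_const_of_deriv_eq_zero (fun t => (hder t).differentiableAt)
    (fun t => (hder t).deriv) t 0
  rw [h1, h.zero]

theorem spd_pos {z : E n × E n} (hz : 0 < spd L z) : z.2 ≠ 0 := by
  intro h0
  unfold spd at hz
  rw [h0] at hz
  simp at hz

theorem CF.om_ne (h : CF L K δ om φ) {z : E n × E n} (hz : ‖z.1‖ ≤ 1) (hs : spd L z ≤ 4) (t : ℝ) :
    0 < om (φ t z) := by
  refine lt_of_le_of_ne (h.om_nonneg _) fun h0 => ?_
  have h1 := h.stuck z t h0.symm 0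
  rw [h.zero] at h1
  rw [← h1] at h0
  have h2 := h.om_one z (by have := h.δ_pos; linarith) (h.bound _ _ (by linarith) hs)
  rw [h2] at h0
  exact zero_ne_one h0

theorem CF.lt (h : CF L K δ om φ) {z : E n × E n} (hz : ‖z.1‖ ≤ 1) (hs : spd L z ≤ 4) (t : ℝ) :
    ‖(φ t z).1‖ < 1 + δ / 2 := by
  by_contra hc
  have h1 := h.om_ne hz hs t
  rw [h.om_zero _ (not_lt.1 hc)] at h1
  exact lt_irrefl _ h1

theorem CF.leK (h : CF L K δ om φ) {z : E n × E n} (hz : ‖z.1‖ ≤ 1) (hs : spd L z ≤ 4) (t : ℝ) :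
    ‖(φ t z).2‖ ≤ K := by
  have h1 := h.lt hz hs t
  have h2 := h.δ_le
  refine h.bound (φ t z).1 _ (by linarith) ?_
  have := h.speed z t
  unfold spd at this hs
  rw [this]
  exact hs

theorem CF.cont (h : CF L K δ om φ) (z : E n × E n) : Continuous fun t => φ t z :=
  h.smooth.continuous.comp (continuous_id.prodMk continuous_const)

/-- an orbit which leaves `M` or touches its boundary from inside does not come back -/
theorem CF.convex' (h : CF L K δ om φ) {z : E n × E n} (hz : ‖z.1‖ ≤ 1) (hs : spd L z ≤ 4)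
    (hs0 : 0 < spd L z) {a b c : ℝ} (hab : a < b) (hbc : b < c) (ha : ‖(φ a z).1‖ ≤ 1)
    (hc : ‖(φ c z).1‖ ≤ 1) : ‖(φ b z).1‖ < 1 := by
  by_contra hcon
  push Not at hcon
  have hcc : Continuous fun t => ‖(φ t z).1‖ := (continuous_fst.comp (h.cont z)).norm
  obtain ⟨t1, ht1, hmax1⟩ := isCompact_Icc.exists_isMaxOn (⟨b, hab.le, hbc.le⟩ : (Icc a c).Nonempty)
    hcc.continuousOn
  have hex : ∃ t0 ∈ Ioo a c, 1 ≤ ‖(φ t0 z).1‖ ∧ ∀ t ∈ Icc a c, ‖(φ t z).1‖ ≤ ‖(φ t0 z).1‖ := by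
    rcases eq_or_lt_of_le (hcon.trans (hmax1 ⟨hab.le, hbc.le⟩)) with h1 | h1
    · refine ⟨b, ⟨hab, hbc⟩, hcon, fun t ht => ?_⟩
      have h2 : ‖(φ t z).1‖ ≤ ‖(φ t1 z).1‖ := hmax1 ht
      have h3 : (1 : ℝ) = ‖(φ t1 z).1‖ := h1
      linarith
    · refine ⟨t1, ⟨lt_of_le_of_ne ht1.1 ?_, lt_of_le_of_ne ht1.2 ?_⟩, le_of_lt h1, fun t ht => hmax1 ht⟩
      · rintro rfl
        exact absurd ha (not_le.2 h1)
      · rintro rfl
        exact absurd hc (not_le.2 h1)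
  obtain ⟨t0, ht, hgt, hmax⟩ := hex
  have hnear : ∀ᶠ t in 𝓝 t0, t ∈ Ioo a c := Ioo_mem_nhds ht.1 ht.2
  have hd : ∀ t, HasDerivAt (fun s => ‖(φ s z).1‖ ^ 2) (om (φ t z) * (2 * ⟪(φ t z).1, (φ t z).2⟫)) t := by
    intro t
    refine (h.d1 z t).norm_sq.congr_deriv ?_
    rw [inner_smul_right]
    ring
  have hlmax : IsLocalMax (fun s => ‖(φ s z).1‖ ^ 2) t0 := by
    filter_upwards [hnear] with t ht'
    have h2 : ‖(φ t z).1‖ ≤ ‖(φ t0 z).1‖ := hmax t (Ioo_subset_Icc_self ht')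
    exact pow_le_pow_left₀ (norm_nonneg _) h2 2
  have hom := h.om_ne hz hs t0
  have hzero := hlmax.hasDerivAt_eq_zero (hd t0)
  have hcv0 : ⟪(φ t0 z).1, (φ t0 z).2⟫ = 0 := by
    rcases mul_eq_zero.1 hzero with h1 | h1
    · exact absurd h1 hom.ne'
    · linarith
  have hderiv : deriv (fun s => ‖(φ s z).1‖ ^ 2) = fun t => om (φ t z) * (2 * ⟪(φ t z).1, (φ t z).2⟫) :=
    funext fun t => (hd t).deriv
  have hval : ⟪(φ t0 z).1, gacc L (φ t0 z).1 (φ t0 z).2⟫ + ⟪(φ t0 z).2, (φ t0 z).2⟫ =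
      ‖(φ t0 z).2‖ ^ 2 * (1 + fderiv ℝ L (φ t0 z).1 (φ t0 z).1) := by
    have hgrad : ⟪(φ t0 z).1, gradient L (φ t0 z).1⟫ = fderiv ℝ L (φ t0 z).1 (φ t0 z).1 := by
      rw [real_inner_comm]
      exact InnerProductSpace.toDual_symm_apply
    unfold gacc
    rw [inner_add_right, inner_smul_right, inner_smul_right, hcv0, hgrad,
      real_inner_self_eq_norm_sq]
    ring
  have hv0 : (φ t0 z).2 ≠ 0 := spd_pos (L := L) (by rw [h.speed]; exact hs0)
  have hlt := h.lt hz hs t0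
  have hpos2 : 0 < ‖(φ t0 z).2‖ ^ 2 * (1 + fderiv ℝ L (φ t0 z).1 (φ t0 z).1) :=
    mul_pos (pow_pos (norm_pos_iff.2 hv0) 2)
      (h.conv _ hgt (by have := h.δ_pos; linarith))
  have hφd : DifferentiableAt ℝ (fun t => φ t z) t0 := by
    have h1 := (h.d1 z t0).prodMk (h.d2 z t0)
    exact h1.differentiableAt
  have homd : HasDerivAt (fun t => om (φ t z)) (deriv (fun t => om (φ t z)) t0) t0 :=
    (((h.om_smooth.differentiable (by norm_num)) _).comp t0 hφd).hasDerivAt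
  have hd2 : HasDerivAt (fun t => om (φ t z) * (2 * ⟪(φ t z).1, (φ t z).2⟫))
      (om (φ t0 z) * (2 * (om (φ t0 z) * (‖(φ t0 z).2‖ ^ 2 * (1 + fderiv ℝ L (φ t0 z).1 (φ t0 z).1))))) t0 := by
    refine (homd.mul (((h.d1 z t0).inner ℝ (h.d2 z t0)).const_mul 2)).congr_deriv ?_
    rw [hcv0, inner_smul_left, inner_smul_right, ← hval]
    simp only [conj_trivial]
    ring
  have hdd : 0 < deriv (deriv (fun s => ‖(φ s z).1‖ ^ 2)) t0 := by
    rw [hderiv, hd2.deriv]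
    positivity
  have hlmin : IsLocalMin (fun s => ‖(φ s z).1‖ ^ 2) t0 := by
    refine isLocalMin_of_deriv_deriv_pos hdd ?_ (hd t0).continuousAt
    rw [(hd t0).deriv, hcv0]
    ring
  have hconst : (fun s => ‖(φ s z).1‖ ^ 2) =ᶠ[𝓝 t0] fun _ => ‖(φ t0 z).1‖ ^ 2 := by
    filter_upwards [hlmax, hlmin] with t h2 h3
    exact le_antisymm h2 h3
  have h4 : deriv (fun s => ‖(φ s z).1‖ ^ 2) =ᶠ[𝓝 t0] fun _ => (0 : ℝ) := by
    have h5 := hconst.deriv
    filter_upwards [h5] with t ht'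
    rw [ht']
    simp
  have h6 : deriv (deriv (fun s => ‖(φ s z).1‖ ^ 2)) t0 = 0 := by
    rw [h4.deriv_eq]
    simp
  rw [h6] at hdd
  exact lt_irrefl _ hdd

/-- an orbit which leaves `M` does not come back -/
theorem CF.convex (h : CF L K δ om φ) {z : E n × E n} (hz : ‖z.1‖ ≤ 1) (hs : spd L z ≤ 4)
    (hs0 : 0 < spd L z) {a b c : ℝ} (hab : a ≤ b) (hbc : b ≤ c) (ha : ‖(φ a z).1‖ ≤ 1)
    (hc : ‖(φ c z).1‖ ≤ 1) : ‖(φ b z).1‖ ≤ 1 := by
  rcases eq_or_lt_of_le hab with h1 | h1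
  · rw [← h1]; exact ha
  rcases eq_or_lt_of_le hbc with h2 | h2
  · rw [h2]; exact hc
  exact (h.convex' hz hs hs0 h1 h2 ha hc).le

theorem CF.om_eq (h : CF L K δ om φ) {z : E n × E n} (hz : ‖z.1‖ ≤ 1) (hs : spd L z ≤ 4) (t : ℝ)
    (ht : ‖(φ t z).1‖ ≤ 1) : om (φ t z) = 1 :=
  h.om_one _ (by have := h.δ_pos; linarith) (h.leK hz hs t)

/-- the part of an orbit in `M`, parametrised by arc length -/
theorem CF.ugeod (h : CF L K δ om φ) {z : E n × E n} (hz : ‖z.1‖ ≤ 1) (hs : spd L z ≤ 4)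
    {s : ℝ} (hs0 : 0 < s) (hss : s ^ 2 = spd L z) {a T : ℝ}
    (hM : ∀ t ∈ Icc a (a + T), ‖(φ t z).1‖ ≤ 1) :
    UGeod L (s * T) (fun t => (φ (a + t / s) z).1) (fun t => s⁻¹ • (φ (a + t / s) z).2) := by
  have hmem : ∀ t ∈ Icc 0 (s * T), a + t / s ∈ Icc a (a + T) := by
    intro t ht
    constructor
    · have := div_nonneg ht.1 hs0.le
      linarith
    · have : t / s ≤ T := by
        rw [div_le_iff₀ hs0]
        linarith [ht.2]
      linarith
  have hin : ∀ t : ℝ, HasDerivAt (fun t => a + t / s) s⁻¹ t := by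
    intro t
    have := ((hasDerivAt_id t).div_const s).const_add a
    simpa using this
  refine ⟨⟨?_, ?_, ?_⟩, ?_⟩
  · intro t ht
    rw [M, mem_closedBall_zero_iff]
    exact hM _ (hmem t ht)
  · intro t ht
    have h1 := (h.d1 z (a + t / s)).scomp t (hin t)
    rw [h.om_eq hz hs _ (hM _ (hmem t ht)), one_smul] at h1
    exact h1.hasDerivWithinAt
  · intro t ht
    have h1 := ((h.d2 z (a + t / s)).scomp t (hin t)).const_smul s⁻¹
    rw [h.om_eq hz hs _ (hM _ (hmem t ht)), one_smul] at h1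
    refine h1.hasDerivWithinAt.congr_deriv ?_
    rw [e4_gacc_smul, smul_smul, sq]
  · intro t ht
    have h1 := h.speed z (a + t / s)
    rw [norm_smul, mul_pow, norm_inv, Real.norm_eq_abs, inv_pow, sq_abs, mul_left_comm]
    unfold spd at h1 hss
    rw [h1, ← hss, inv_mul_cancel₀ (by positivity)]

theorem KK_sqrt {z : E n × E n} (hz : z ∈ KK L) : ∃ s : ℝ, 1 / 2 ≤ s ∧ s ≤ 2 ∧ s ^ 2 = spd L z := by
  refine ⟨Real.sqrt (spd L z), ?_, ?_, Real.sq_sqrt (by linarith [hz.2.1])⟩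
  · refine Real.le_sqrt_of_sq_le ?_
    linarith [hz.2.1]
  · refine Real.sqrt_le_iff.2 ⟨by norm_num, ?_⟩
    linarith [hz.2.2]

/-- the orbits of points of `KK` are outside `M` at the times `±8` -/
theorem CF.ends (h : CF L K δ om φ) (hg : Good L) {z : E n × E n} (hz : z ∈ KK L) :
    1 < ‖(φ 8 z).1‖ ∧ 1 < ‖(φ (-8) z).1‖ := by
  obtain ⟨s, hs1, hs2, hss⟩ := KK_sqrt hz
  have hs0 : 0 < s := by linarith
  have hpos : 0 < spd L z := by linarith [hz.2.1]
  have hpi := Real.pi_lt_four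
  have key : ∀ a, ¬ ∀ t ∈ Icc a (a + 8), ‖(φ t z).1‖ ≤ 1 := by
    intro a hM
    have h1 := hg.len _ _ _ (h.ugeod hz.1 hz.2.2 hs0 hss hM)
    linarith
  constructor
  · by_contra hc
    refine key 0 fun t ht => ?_
    refine h.convex hz.1 hz.2.2 hpos ht.1 ht.2 (by rw [h.zero]; exact hz.1) ?_
    rw [zero_add]
    exact not_lt.1 hc
  · by_contra hc
    refine key (-8) fun t ht => ?_
    refine h.convex hz.1 hz.2.2 hpos ht.1 ht.2 (not_lt.1 hc) ?_
    rw [neg_add_cancel, h.zero]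
    exact hz.1

end SW
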