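import Pool.Agent.helper71.SW.F2
import Pool.Agent.helper79.WR.Defs

/-! The hypotheses of the analysis part -/

noncomputable section

namespace SW

open SN KBR Set Filter Topology
open scoped ContDiff RealInnerProductSpace NNReal

variable {n : ℕ} {L ρ Φ : E n → ℝ} {K δ : ℝ} {om : E n × E n → ℝ}
  {φ : ℝ → E n × E n → E n × E n}

theorem spd_cont (hL : ContDiff ℝ ∞ L) : Continuous (spd L) := by
  unfold spd
  have := hL.continuous
  fun_prop

theorem KK_compact (h : CF L K δ om φ) : IsCompact (KK L) := by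
  have hc := spd_cont h.smoothL
  refine Metric.isCompact_of_isClosed_isBounded ?_ ?_
  · exact (isClosed_le (continuous_fst.norm) continuous_const).inter
      ((isClosed_le continuous_const hc).inter (isClosed_le hc continuous_const))
  · refine (Metric.isBounded_closedBall (x := (0 : E n × E n)) (r := max 1 K)).subset ?_
    intro z hz
    rw [mem_closedBall_zero_iff]
    have h1 : ‖z.1‖ ≤ 1 := hz.1
    exact max_le_max h1 (h.bound z.1 z.2 (by linarith) hz.2.2)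

theorem along_deriv (h : CF L K δ om φ) {g : E n → ℝ} (hg : ContDiff ℝ ∞ g) (z : E n × E n) (t : ℝ) :
    HasDerivAt (fun s => g (φ s z).1) (om (φ t z) * fderiv ℝ g (φ t z).1 (φ t z).2) t := by
  have hd : HasFDerivAt g (fderiv ℝ g (φ t z).1) (φ t z).1 :=
    ((hg.differentiable (by norm_num)) _).hasFDerivAt
  refine (hd.comp_hasDerivAt t (h.d1 z t)).congr_deriv ?_
  rw [map_smul, smul_eq_mul]

theorem g_smooth (h : CF L K δ om φ) {g : E n → ℝ} (hg : ContDiff ℝ ∞ g) (a : ℝ) :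
    ContDiff ℝ ∞ (fun p : ℝ × (E n × E n) => a * g (φ p.1 p.2).1) :=
  contDiff_const.mul (hg.comp (contDiff_fst.comp h.smooth))

theorem g_fderiv (h : CF L K δ om φ) {g : E n → ℝ} (hg : ContDiff ℝ ∞ g) (z : E n × E n) (t : ℝ) :
    fderiv ℝ (fun p : ℝ × (E n × E n) => g (φ p.1 p.2).1) (t, z) (1, 0) =
      om (φ t z) * fderiv ℝ g (φ t z).1 (φ t z).2 := by
  have h0 : ContDiff ℝ ∞ (fun p : ℝ × (E n × E n) => g (φ p.1 p.2).1) :=
    hg.comp (contDiff_fst.comp h.smooth)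
  have h1 : HasFDerivAt (fun p : ℝ × (E n × E n) => g (φ p.1 p.2).1)
      (fderiv ℝ (fun p : ℝ × (E n × E n) => g (φ p.1 p.2).1) (t, z)) (t, z) :=
    ((h0.differentiable (by norm_num)) _).hasFDerivAt
  have h2 : HasDerivAt (fun s : ℝ => (s, z)) ((1 : ℝ), (0 : E n × E n)) t :=
    (hasDerivAt_id t).prodMk (hasDerivAt_const t z)
  have h3 := h1.comp_hasDerivAt t h2
  exact h3.unique (along_deriv h hg z t)

/-- if an orbit touches `{ρ = 0}` from outside, the phase is not stationary at the contact point -/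
theorem touch (h : CF L K δ om φ) (hG : Geo L ρ Φ) {z : E n × E n} (hz : z ∈ KK L)
    (hle : ∀ s ∈ Icc (-8 : ℝ) 8, ρ (φ s z).1 ≤ 0) {t : ℝ} (ht : t ∈ Icc (-8 : ℝ) 8)
    (h0 : 0 ≤ ρ (φ t z).1) : fderiv ℝ Φ (φ t z).1 (φ t z).2 ≠ 0 := by
  intro hΦ
  have hpos : 0 < spd L z := by linarith [hz.2.1]
  have hends := h.ends hG.good hz
  have hx1 : ‖(φ t z).1‖ < 1 := by
    by_contra hc
    have := hG.neg _ (not_lt.1 hc)
    linarith
  have hρ : ρ (φ t z).1 = 0 := le_antisymm (hle t ht) h0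
  have ht' : t ∈ Ioo (-8 : ℝ) 8 := by
    refine ⟨lt_of_le_of_ne ht.1 ?_, lt_of_le_of_ne ht.2 ?_⟩
    · rintro rfl
      linarith [hends.2]
    · rintro rfl
      linarith [hends.1]
  have hv : (φ t z).2 ≠ 0 := spd_pos (L := L) (by rw [h.speed]; exact hpos)
  have hone : ∀ᶠ s in 𝓝 t, om (φ s z) = 1 := by
    have hc : Continuous fun s => ‖(φ s z).1‖ := (continuous_fst.comp (h.cont z)).norm
    have h1 : ∀ᶠ s in 𝓝 t, ‖(φ s z).1‖ < 1 := (hc.tendsto t).eventually_lt_const hx1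
    filter_upwards [h1] with s hs
    exact h.om_eq hz.1 hz.2.2 s hs.le
  have hd : ∀ s, HasDerivAt (fun s => ρ (φ s z).1) (om (φ s z) * fderiv ℝ ρ (φ s z).1 (φ s z).2) s :=
    fun s => along_deriv h hG.smoothρ z s
  have hlmax : IsLocalMax (fun s => ρ (φ s z).1) t := by
    filter_upwards [Ioo_mem_nhds ht'.1 ht'.2] with s hs
    rw [hρ]
    exact hle s (Ioo_subset_Icc_self hs)
  have hdρ : fderiv ℝ ρ (φ t z).1 (φ t z).2 = 0 := by
    have h1 := hlmax.hasDerivAt_eq_zero (hd t)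
    rw [hone.self_of_nhds, one_mul] at h1
    exact h1
  have hkey := hG.key _ _ hx1.le hv hρ hdρ hΦ
  -- second derivative
  have h2 : HasDerivAt (fun s => fderiv ℝ ρ (φ s z).1 (φ s z).2)
      (hess L ρ (φ t z).1 (φ t z).2) t := by
    have h3 : ContDiff ℝ ∞ (fderiv ℝ ρ) := hG.smoothρ.fderiv_right (m := ∞) (by norm_num)
    have h4 : HasFDerivAt (fderiv ℝ ρ) (fderiv ℝ (fderiv ℝ ρ) (φ t z).1) (φ t z).1 :=
      ((h3.differentiable (by norm_num)) _).hasFDerivAt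
    have h5 := (h4.comp_hasDerivAt t (h.d1 z t)).clm_apply (h.d2 z t)
    rw [hone.self_of_nhds, one_smul, one_smul] at h5
    exact h5
  have hderiv : deriv (fun s => ρ (φ s z).1) =ᶠ[𝓝 t] fun s => fderiv ℝ ρ (φ s z).1 (φ s z).2 := by
    filter_upwards [hone] with s hs
    rw [(hd s).deriv, hs, one_mul]
  have hdd : 0 < deriv (deriv (fun s => ρ (φ s z).1)) t := by
    rw [hderiv.deriv_eq, h2.deriv]
    exact hkey
  have hlmin : IsLocalMin (fun s => ρ (φ s z).1) t := by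
    refine isLocalMin_of_deriv_deriv_pos hdd ?_ (hd t).continuousAt
    rw [(hd t).deriv, hdρ, mul_zero]
  have hconst : (fun s => ρ (φ s z).1) =ᶠ[𝓝 t] fun _ => ρ (φ t z).1 := by
    filter_upwards [hlmax, hlmin] with s h3 h4
    exact le_antisymm h3 h4
  have h4 : deriv (fun s => ρ (φ s z).1) =ᶠ[𝓝 t] fun _ => (0 : ℝ) := by
    have h5 := hconst.deriv
    filter_upwards [h5] with s hs
    rw [hs]
    simp
  have h6 : deriv (deriv (fun s => ρ (φ s z).1)) t = 0 := by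
    rw [h4.deriv_eq]
    simp
  rw [h6] at hdd
  exact lt_irrefl _ hdd

/-- compactness: orbits of small depth -/
theorem phase_unif (h : CF L K δ om φ) (hG : Geo L ρ Φ) : ∃ d > 0, ∃ c > 0, ∀ z ∈ KK L,
    (∀ s ∈ Icc (-8 : ℝ) 8, ρ (φ s z).1 < d) → ∀ t ∈ Icc (-8 : ℝ) 8, 0 ≤ ρ (φ t z).1 →
      c ≤ |om (φ t z) * fderiv ℝ Φ (φ t z).1 (φ t z).2| := by
  by_contra hcon
  push Not at hcon
  have hN : ∀ k : ℕ, ∃ p : (E n × E n) × ℝ, p.1 ∈ KK L ∧ (∀ s ∈ Icc (-8 : ℝ) 8, ρ (φ s p.1).1 <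
      1 / ((k : ℝ) + 1)) ∧ p.2 ∈ Icc (-8 : ℝ) 8 ∧ 0 ≤ ρ (φ p.2 p.1).1 ∧
      |om (φ p.2 p.1) * fderiv ℝ Φ (φ p.2 p.1).1 (φ p.2 p.1).2| < 1 / ((k : ℝ) + 1) := by
    intro k
    obtain ⟨z, hz, h1, t, ht, h2, h3⟩ := hcon (1 / ((k : ℝ) + 1)) (by positivity)
      (1 / ((k : ℝ) + 1)) (by positivity)
    exact ⟨(z, t), hz, h1, ht, h2, h3⟩
  choose p hp1 hp2 hp3 hp4 hp5 using hN
  have hcomp : IsCompact (KK L ×ˢ Icc (-8 : ℝ) 8) := (KK_compact h).prod isCompact_Icc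
  obtain ⟨q, hq, θ, hθ, hlim⟩ := hcomp.tendsto_subseq (fun k => ⟨hp1 k, hp3 k⟩)
  have hφ : Continuous fun a : ℝ × (E n × E n) => φ a.1 a.2 := h.smooth.continuous
  have hρc := hG.smoothρ.continuous
  have hzero : Tendsto (fun k : ℕ => 1 / ((θ k : ℝ) + 1)) atTop (𝓝 0) :=
    tendsto_one_div_add_atTop_nhds_zero_nat.comp hθ.tendsto_atTop
  have hle : ∀ s ∈ Icc (-8 : ℝ) 8, ρ (φ s q.1).1 ≤ 0 := by
    intro s hs
    have h1 : Tendsto (fun k => ρ (φ s (p (θ k)).1).1) atTop (𝓝 (ρ (φ s q.1).1)) := by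
      have hc : Continuous fun a : (E n × E n) × ℝ => ρ (φ s a.1).1 := by fun_prop
      exact (hc.tendsto q).comp hlim
    exact le_of_tendsto_of_tendsto' h1 hzero fun k => (hp2 (θ k) s hs).le
  have hge : 0 ≤ ρ (φ q.2 q.1).1 := by
    have h1 : Tendsto (fun k => ρ (φ (p (θ k)).2 (p (θ k)).1).1) atTop (𝓝 (ρ (φ q.2 q.1).1)) := by
      have hc : Continuous fun a : (E n × E n) × ℝ => ρ (φ a.2 a.1).1 := by fun_prop
      exact (hc.tendsto q).comp hlim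
    exact ge_of_tendsto' h1 fun k => hp4 (θ k)
  have hstat : |om (φ q.2 q.1) * fderiv ℝ Φ (φ q.2 q.1).1 (φ q.2 q.1).2| ≤ 0 := by
    have h1 : Tendsto (fun k => |om (φ (p (θ k)).2 (p (θ k)).1) *
        fderiv ℝ Φ (φ (p (θ k)).2 (p (θ k)).1).1 (φ (p (θ k)).2 (p (θ k)).1).2|) atTop
        (𝓝 (|om (φ q.2 q.1) * fderiv ℝ Φ (φ q.2 q.1).1 (φ q.2 q.1).2|)) := by
      have hc : Continuous fun a : (E n × E n) × ℝ =>
          |om (φ a.2 a.1) * fderiv ℝ Φ (φ a.2 a.1).1 (φ a.2 a.1).2| := by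
        have h2 : Continuous (fderiv ℝ Φ) := hG.smoothΦ.continuous_fderiv (by norm_num)
        have h3 := h.om_smooth.continuous
        have h4 : Continuous fun a : (E n × E n) × ℝ => φ a.2 a.1 := by fun_prop
        exact ((h3.comp h4).mul ((h2.comp (continuous_fst.comp h4)).clm_apply
          (continuous_snd.comp h4))).abs
      exact (hc.tendsto q).comp hlim
    exact le_of_tendsto_of_tendsto' h1 hzero fun k => (hp5 (θ k)).le
  have h1 := touch h hG hq.1 hle hq.2 hge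
  have h2 := h.om_ne hq.1.1 hq.1.2.2 q.2
  have h3 : om (φ q.2 q.1) * fderiv ℝ Φ (φ q.2 q.1).1 (φ q.2 q.1).2 = 0 :=
    abs_eq_zero.1 (le_antisymm hstat (abs_nonneg _))
  rcases mul_eq_zero.1 h3 with h4 | h4
  · exact h2.ne' h4
  · exact h1 h4

/-- the open set of phase points with speed in `(1/2, 2)` -/
def UU (L : E n → ℝ) : Set (E n × E n) := {z | 1 / 4 < spd L z ∧ spd L z < 4}

theorem UU_open (hL : ContDiff ℝ ∞ L) : IsOpen (UU L) :=
  (isOpen_lt continuous_const (spd_cont hL)).inter (isOpen_lt (spd_cont hL) continuous_const)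

/-- there are points of every small depth -/
theorem level_point (hG : Geo L ρ Φ) (hy : ∃ y : E n, 1 ≤ ‖y‖) {d : ℝ} (hd : 0 < d) {x₀ : E n}
    (hd2 : d ≤ ρ x₀) : ∃ x : E n, ‖x‖ ≤ 1 ∧ d⁻¹ * ρ x = 3 / 8 := by
  obtain ⟨y, hy⟩ := hy
  have h1 := hG.neg y hy
  obtain ⟨x, hx⟩ := mem_range_of_exists_le_of_exists_ge (c := 3 / 8 * d) hG.smoothρ.continuous
    ⟨y, by linarith⟩ ⟨x₀, by linarith⟩
  refine ⟨x, ?_, ?_⟩
  · by_contra hc
    have := hG.neg x (not_le.1 hc).le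
    linarith
  · rw [hx]
    field_simp

/-- the hypotheses of the analysis part -/
theorem exists_ana (h : CF L K δ om φ) (hG : Geo L ρ Φ) (hy : ∃ y : E n, 1 ≤ ‖y‖) : ∃ d > 0, ∃ c,
    (∃ x, ‖x‖ ≤ 1 ∧ d⁻¹ * ρ x = 3 / 8) ∧ WR.Ana (V := E n × E n) (fun p => d⁻¹ * ρ (φ p.1 p.2).1) (fun p => Φ (φ p.1 p.2).1) c
      (KK L) (UU L) := by
  obtain ⟨d₀, hd₀, c, hc, hph₀⟩ := phase_unif h hG
  obtain ⟨x₀, hx₀⟩ := hG.pos
  obtain ⟨d, hdd⟩ : ∃ d, d = min d₀ (ρ x₀) := ⟨_, rfl⟩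
  have hd : 0 < d := by rw [hdd]; exact lt_min hd₀ hx₀
  have hd1 : d ≤ d₀ := by rw [hdd]; exact min_le_left _ _
  have hd2 : d ≤ ρ x₀ := by rw [hdd]; exact min_le_right _ _
  have hph : ∀ z ∈ KK L, (∀ s ∈ Icc (-8 : ℝ) 8, ρ (φ s z).1 < d) → ∀ t ∈ Icc (-8 : ℝ) 8,
      0 ≤ ρ (φ t z).1 → c ≤ |om (φ t z) * fderiv ℝ Φ (φ t z).1 (φ t z).2| := fun z hz h1 =>
    hph₀ z hz fun s hs => (h1 s hs).trans_le hd1
  have hsL := spd_cont h.smoothL
  refine ⟨d, hd, c, level_point hG hy hd hd2, g_smooth h hG.smoothρ d⁻¹, ?_, hc, KK_compact h, UU_open h.smoothL, ?_, ?_, ?_⟩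
  · exact hG.smoothΦ.comp (contDiff_fst.comp h.smooth)
  · intro z hz h0
    have h0' : 0 ≤ d⁻¹ * ρ (φ 0 z).1 := h0
    rw [h.zero] at h0'
    have h1 : 0 ≤ ρ z.1 := by
      by_contra hneg
      have := mul_neg_of_pos_of_neg (inv_pos.2 hd) (not_le.1 hneg)
      linarith
    have hx : ‖z.1‖ < 1 := by
      by_contra hcc
      have := hG.neg _ (not_lt.1 hcc)
      linarith
    rw [mem_interior]
    refine ⟨{z | ‖z.1‖ < 1} ∩ UU L, ?_, ?_, hx, hz⟩
    · intro y hy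
      exact ⟨le_of_lt hy.1, hy.2.1.le, hy.2.2.le⟩
    · exact (isOpen_lt continuous_fst.norm continuous_const).inter (UU_open h.smoothL)
  · intro z hz
    have hends := h.ends hG.good hz
    exact ⟨mul_neg_of_pos_of_neg (inv_pos.2 hd) (hG.neg _ hends.1.le),
      mul_neg_of_pos_of_neg (inv_pos.2 hd) (hG.neg _ hends.2.le)⟩
  · intro z hz hlt t ht h0
    rw [g_fderiv h hG.smoothΦ]
    refine hph z hz (fun s hs => ?_) t ht ?_
    · have h1 : d⁻¹ * ρ (φ s z).1 < 1 := hlt s hs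
      rw [inv_mul_lt_iff₀ hd, mul_one] at h1
      exact h1
    · by_contra hneg
      have h1 : 0 ≤ d⁻¹ * ρ (φ t z).1 := h0
      have := mul_neg_of_pos_of_neg (inv_pos.2 hd) (not_le.1 hneg)
      linarith

end SW
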