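import Pool.Agent.helper71.SW.Defs

/-! SN-G3 -/

noncomputable section

namespace SW

open SN KBR Set Filter Topology
open scoped ContDiff RealInnerProductSpace

variable {n : ℕ}

variable {ψ : E n → ℝ} {B : ℝ}

theorem chi_cont (h : Psi ψ B) : Continuous (chi ψ) := by
  have h1 : Continuous ψ := h.smooth.continuous
  unfold chi
  fun_prop

theorem chi_nonneg (h : Psi ψ B) (p : E n × ℝ) (hp1 : ‖p.1‖ ≤ 1) (hp : p.2 ^ 2 ≤ 4) :
    0 ≤ chi ψ p := by
  unfold chi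
  have h1 := h.nonneg p.1 hp1
  have h2 := h.le_one p.1 hp1
  have h3 : 0 ≤ p.2 ^ 2 := sq_nonneg _
  have h4 : ψ p.1 * (1 - p.2 ^ 2 / 4) ≤ 1 * (1 - p.2 ^ 2 / 4) :=
    mul_le_mul_of_nonneg_right h2 (by linarith)
  linarith

theorem chi_le (h : Psi ψ B) (p : E n × ℝ) (hp1 : ‖p.1‖ ≤ 1) (hp : p.2 ^ 2 ≤ 4) :
    chi ψ p ≤ 1 := by
  unfold chi
  have h1 := h.nonneg p.1 hp1
  nlinarith [mul_nonneg h1 (show 0 ≤ 1 - p.2 ^ 2 / 4 by linarith)]

/-- points of great circles -/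
theorem circ_norm {a b : E n × ℝ} (h : ON a b) (t : ℝ) :
    ‖(circ a b t).1‖ ^ 2 + (circ a b t).2 ^ 2 = 1 := by
  have e1 : (circ a b t).1 = Real.cos t • a.1 + Real.sin t • b.1 := rfl
  have e2 : (circ a b t).2 = Real.cos t * a.2 + Real.sin t * b.2 := rfl
  rw [e1, e2, norm_add_sq_real, norm_smul, norm_smul, inner_smul_left, inner_smul_right]
  simp only [conj_trivial, Real.norm_eq_abs, mul_pow, sq_abs]
  have h1 := h.aa
  have h2 := h.bb
  have h3 := h.ab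
  have h4 := Real.sin_sq_add_cos_sq t
  have h5 : ‖a.1‖ ^ 2 = 1 - a.2 ^ 2 := by linarith
  have h6 : ‖b.1‖ ^ 2 = 1 - b.2 ^ 2 := by linarith
  have h7 : ⟪a.1, b.1⟫ = - (a.2 * b.2) := by linarith
  rw [h5, h6, h7]
  linear_combination h4

theorem G3_snd_le {a b : E n × ℝ} (h : ON a b) (t : ℝ) : (circ a b t).2 ^ 2 ≤ 1 := by
  have h1 := circ_norm h t
  have h2 := sq_nonneg ‖(circ a b t).1‖
  linarith

theorem G3_fst_le {a b : E n × ℝ} (h : ON a b) (t : ℝ) : ‖(circ a b t).1‖ ≤ 1 := by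
  have h1 := circ_norm h t
  nlinarith [sq_nonneg (circ a b t).2, norm_nonneg (circ a b t).1]

/-- every great circle of the unit sphere meets `{ψ < 1}` -/
def Circ (ψ : E n → ℝ) : Prop := ∀ a b : E n, ‖a‖ = 1 → ‖b‖ = 1 → ⟪a, b⟫ = 0 →
  ∃ t ∈ Ioo (0 : ℝ) Real.pi, ψ (Real.cos t • a + Real.sin t • b) < 1

theorem G3_circ_cont : Continuous fun p : ((E n × ℝ) × (E n × ℝ)) × ℝ =>
    circ p.1.1 p.1.2 p.2 := by
  unfold circ
  fun_prop

/-- the chi function is positive somewhere on an open great semicircle -/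
theorem G3_pos (hn : Circ ψ) (h : Psi ψ B) {a b : E n × ℝ} (hab : ON a b) :
    ∃ t ∈ Ioo (0 : ℝ) Real.pi, 0 < chi ψ (circ a b t) := by
  have hpi := Real.pi_pos
  have key : ∀ t, (circ a b t).2 ≠ 0 → 0 < chi ψ (circ a b t) := by
    intro t ht
    have h1 := G3_snd_le hab t
    have h2 := h.le_one (circ a b t).1 (G3_fst_le hab t)
    have h3 : 0 < (circ a b t).2 ^ 2 := by positivity
    unfold chi
    nlinarith [mul_nonneg (sub_nonneg.2 h2) (show 0 ≤ 1 - (circ a b t).2 ^ 2 / 4 by linarith)]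
  by_cases hb : b.2 = 0
  · by_cases ha : a.2 = 0
    · have ha1 : ‖a.1‖ = 1 := by
        have := hab.aa
        rw [ha] at this
        nlinarith [norm_nonneg a.1]
      have hb1 : ‖b.1‖ = 1 := by
        have := hab.bb
        rw [hb] at this
        nlinarith [norm_nonneg b.1]
      have hab1 : ⟪a.1, b.1⟫ = 0 := by
        have := hab.ab
        rw [hb, mul_zero, add_zero] at this
        exact this
      obtain ⟨s, hs2, hs1⟩ := hn a.1 b.1 ha1 hb1 hab1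
      refine ⟨s, hs2, ?_⟩
      have e1 : (circ a b s).1 = Real.cos s • a.1 + Real.sin s • b.1 := rfl
      have e2 : (circ a b s).2 = 0 := by
        change Real.cos s * a.2 + Real.sin s * b.2 = 0
        rw [ha, hb]
        ring
      unfold chi
      rw [e2, e1]
      linarith
    · refine ⟨Real.pi / 4, ⟨by linarith, by linarith⟩, key _ ?_⟩
      change Real.cos (Real.pi / 4) * a.2 + Real.sin (Real.pi / 4) * b.2 ≠ 0
      rw [hb, mul_zero, add_zero, Real.cos_pi_div_four]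
      positivity
  · refine ⟨Real.pi / 2, ⟨by linarith, by linarith⟩, key _ ?_⟩
    change Real.cos (Real.pi / 2) * a.2 + Real.sin (Real.pi / 2) * b.2 ≠ 0
    rw [Real.cos_pi_div_two, Real.sin_pi_div_two]
    simpa using hb

/-- the integrand -/
def G3_f (ψ : E n → ℝ) (p : (E n × ℝ) × (E n × ℝ)) (t : ℝ) : ℝ :=
  chi ψ (circ p.1 p.2 t) * Real.sin t

theorem G3_f_cont (h : Psi ψ B) : Continuous (Function.uncurry (G3_f ψ)) :=
  ((chi_cont h).comp G3_circ_cont).mul (Real.continuous_sin.comp continuous_snd)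

theorem G3_F_cont (h : Psi ψ B) : Continuous fun p => ∫ t in (0 : ℝ)..Real.pi, G3_f ψ p t :=
  intervalIntegral.continuous_parametric_intervalIntegral_of_continuous' (G3_f_cont h) _ _

theorem G3_F_pos (hn : Circ ψ) (h : Psi ψ B) (p : (E n × ℝ) × (E n × ℝ)) (hp : ON p.1 p.2) :
    0 < ∫ t in (0 : ℝ)..Real.pi, G3_f ψ p t := by
  obtain ⟨t, ht, htp⟩ := G3_pos hn h hp
  have h1 : ContinuousOn (G3_f ψ p) (Icc 0 Real.pi) :=
    ((G3_f_cont h).comp (Continuous.prodMk continuous_const continuous_id)).continuousOn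
  have h2 : ∀ s ∈ Ioc (0 : ℝ) Real.pi, 0 ≤ G3_f ψ p s := by
    intro s hs
    have h1 := G3_snd_le hp s
    exact mul_nonneg (chi_nonneg h _ (G3_fst_le hp s) (by linarith))
      (Real.sin_nonneg_of_nonneg_of_le_pi hs.1.le hs.2)
  have h3 : 0 < G3_f ψ p t := mul_pos htp (Real.sin_pos_of_pos_of_lt_pi ht.1 ht.2)
  exact intervalIntegral.integral_pos Real.pi_pos h1 h2 ⟨t, ⟨ht.1.le, ht.2.le⟩, h3⟩

theorem G3_closed : IsClosed {p : (E n × ℝ) × (E n × ℝ) | ON p.1 p.2} := by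
  have : {p : (E n × ℝ) × (E n × ℝ) | ON p.1 p.2} = {p | ‖p.1.1‖ ^ 2 + p.1.2 ^ 2 = 1} ∩
      ({p | ‖p.2.1‖ ^ 2 + p.2.2 ^ 2 = 1} ∩ {p | ⟪p.1.1, p.2.1⟫ + p.1.2 * p.2.2 = 0}) := by
    ext p
    exact ⟨fun h => ⟨h.aa, h.bb, h.ab⟩, fun h => ⟨h.1, h.2.1, h.2.2⟩⟩
  rw [this]
  have c1 : Continuous fun p : (E n × ℝ) × (E n × ℝ) => ‖p.1.1‖ ^ 2 + p.1.2 ^ 2 := by fun_prop
  have c2 : Continuous fun p : (E n × ℝ) × (E n × ℝ) => ‖p.2.1‖ ^ 2 + p.2.2 ^ 2 := by fun_prop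
  have c3 : Continuous fun p : (E n × ℝ) × (E n × ℝ) => ⟪p.1.1, p.2.1⟫ + p.1.2 * p.2.2 :=
    (Continuous.inner (continuous_fst.comp continuous_fst)
      (continuous_fst.comp continuous_snd)).add (by fun_prop)
  exact (isClosed_eq c1 continuous_const).inter
    ((isClosed_eq c2 continuous_const).inter (isClosed_eq c3 continuous_const))

theorem G3_compact : IsCompact {p : (E n × ℝ) × (E n × ℝ) | ON p.1 p.2} := by
  refine Metric.isCompact_of_isClosed_isBounded G3_closed ?_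
  refine (Metric.isBounded_closedBall (x := (0 : (E n × ℝ) × (E n × ℝ))) (r := 1)).subset ?_
  intro p hp
  have h1 := ON.aa hp
  have h2 := ON.bb hp
  have e1 : ‖p.1.1‖ ≤ 1 := by nlinarith [norm_nonneg p.1.1, sq_nonneg p.1.2]
  have e2 : ‖p.1.2‖ ≤ 1 := by
    rw [Real.norm_eq_abs, abs_le]
    constructor <;> nlinarith [sq_nonneg ‖p.1.1‖]
  have e3 : ‖p.2.1‖ ≤ 1 := by nlinarith [norm_nonneg p.2.1, sq_nonneg p.2.2]
  have e4 : ‖p.2.2‖ ≤ 1 := by
    rw [Real.norm_eq_abs, abs_le]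
    constructor <;> nlinarith [sq_nonneg ‖p.2.1‖]
  rw [mem_closedBall_zero_iff]
  exact max_le (max_le e1 e2) (max_le e3 e4)

/-- SN-G3 (a): lower bound for the mean over great semicircles -/
theorem exists_c (hn : Circ ψ) (h : Psi ψ B) : ∃ c > 0, ∀ a b : E n × ℝ, ON a b →
    c ≤ ∫ t in (0 : ℝ)..Real.pi, chi ψ (circ a b t) * Real.sin t := by
  by_cases hne : {p : (E n × ℝ) × (E n × ℝ) | ON p.1 p.2}.Nonempty
  · obtain ⟨p0, hp0, hmin⟩ := G3_compact.exists_isMinOn hne (G3_F_cont h).continuousOn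
    refine ⟨_, G3_F_pos hn h p0 hp0, fun a b hab => ?_⟩
    have := hmin (show (a, b) ∈ {p : (E n × ℝ) × (E n × ℝ) | ON p.1 p.2} from hab)
    exact this
  · exact ⟨1, one_pos, fun a b hab => absurd ⟨(a, b), hab⟩ hne⟩

/-- SN-G3 (b): uniform continuity -/
theorem chi_unif (h : Psi ψ B) (η : ℝ) (hη : 0 < η) : ∃ δ > 0, ∀ p q : E n × ℝ,
    ‖p.1‖ ≤ 1 → |p.2| ≤ 1 → ‖q.1‖ ≤ 1 → |q.2| ≤ 1 → ‖p.1 - q.1‖ ≤ δ → |p.2 - q.2| ≤ δ →
    |chi ψ p - chi ψ q| ≤ η := by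
  have hc : IsCompact (Metric.closedBall (0 : E n × ℝ) 1) := isCompact_closedBall _ _
  have hu := hc.uniformContinuousOn_of_continuous (chi_cont h).continuousOn
  rw [Metric.uniformContinuousOn_iff] at hu
  obtain ⟨δ, hδ, H⟩ := hu η hη
  refine ⟨δ / 2, by positivity, fun p q hp1 hp2 hq1 hq2 h1 h2 => ?_⟩
  have hp : p ∈ Metric.closedBall (0 : E n × ℝ) 1 := by
    rw [mem_closedBall_zero_iff]
    exact max_le hp1 hp2
  have hq : q ∈ Metric.closedBall (0 : E n × ℝ) 1 := by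
    rw [mem_closedBall_zero_iff]
    exact max_le hq1 hq2
  have hd : dist p q < δ := by
    rw [dist_eq_norm]
    refine lt_of_le_of_lt (max_le ?_ ?_) (half_lt_self hδ)
    · exact h1
    · exact h2
  have := H p hp q hq hd
  rw [Real.dist_eq] at this
  exact this.le

end SW
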