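import Pool.Agent.helper71.SN.P1
import Pool.Agent.helper71.SW.Defs

/-! Profile functions with a neck -/

noncomputable section

namespace SW

open SN KBR Set Filter Topology
open scoped ContDiff RealInnerProductSpace

variable {n : ℕ}

/-- additional properties of the profile: above `z0` the level surfaces are concave where `ψ = 1` -/
structure Neck (τ B ε zb A z0 : ℝ) (μ₁ Q Q₁ : ℝ → ℝ) : Prop where
  A_pos : 0 < A
  A_le : A ≤ 2 * ε
  z0_gt : zb < z0
  z0_le : z0 ≤ ε
  lev : ∀ z, z0 ≤ z → z0 + ε * τ / 20 ≤ A + μ₁ z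
  bQA : ∀ z ∈ Icc zb 1, τ * |A + Q₁ z| ≤ 32 * B * A * z
  bQ : ∀ z ∈ Icc zb 1, Q z ≤ A

/-- the function `P1P` is small from `3/4` on -/
theorem P1P_small {y : ℝ} (h : 3 / 4 ≤ y) : P1P y ≤ 1 / 80 := by
  have h1 : P1P y ≤ P1P (3 / 4) := by
    have hmono : Antitone P1P := by
      refine antitone_of_deriv_nonpos (fun y => (P1P_deriv y).differentiableAt) fun y => ?_
      rw [(P1P_deriv y).deriv]
      exact P1D_nonpos y
    exact hmono h
  refine h1.trans ?_
  obtain ⟨w, hw, e1, -, e3⟩ := P1_formula (y := 3 / 4) (by norm_num) (by norm_num)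
  have hw6 : w = 6 := by linarith
  rw [e1, hw6, Real.exp_neg]
  have h2 : (80 : ℝ) ≤ Real.exp 6 := by
    have h3 : (2.7 : ℝ) ≤ Real.exp 1 := by
      have := Real.exp_one_gt_d9
      linarith
    have h4 : Real.exp 6 = Real.exp 1 ^ 6 := by
      rw [← Real.exp_nat_mul]
      norm_num
    rw [h4]
    calc (80 : ℝ) ≤ 2.7 ^ 6 := by norm_num
      _ ≤ _ := pow_le_pow_left₀ (by norm_num) h3 6
  rw [one_div]
  exact inv_anti₀ (by norm_num) h2

/-- existence of the profile functions -/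
theorem exists_prof_neck (τ B : ℝ) (hτ : 0 < τ) (hτ1 : τ ≤ 1 / 100) (hB : 1 ≤ B) (e : ℝ) (he : 0 < e) :
    ∃ (ε zb zn : ℝ) (μ μ₁ μ₂ Q Q₁ Q₂ : ℝ → ℝ) (A z0 : ℝ), ε ≤ e ∧
      Prof τ B ε zb zn μ μ₁ μ₂ Q Q₁ Q₂ ∧ Neck τ B ε zb A z0 μ₁ Q Q₁ := by
  have hB0 : 0 < B := by linarith
  obtain ⟨ε, S, A, hεpos, hεe, hSpos, hBS, hS16, hεleS, hεS', hApos, hAeq, hAle⟩ :=
    P1_params τ B hτ hτ1 hB e he
  have hSlt : S ≤ 1 / 1600 := by linarith
  have hετ : ε ≤ τ := by linarith
  have hε1 : ε < 1 / 100 := by linarith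
  have hA2 : A ≤ 2 * ε := by
    have : ε * (1 + τ / 2) ≤ ε * 2 := mul_le_mul_of_nonneg_left (by linarith) hεpos.le
    linarith
  have hεt : 0 < ε * τ := by positivity
  have hAS : A * S ≤ ε * τ / 8 := by
    have h1 : A * S ≤ 2 * ε * S := mul_le_mul_of_nonneg_right hA2 hSpos.le
    have h2 : ε * (16 * S) ≤ ε * τ := mul_le_mul_of_nonneg_left hS16 hεpos.le
    linarith
  have hAB : A * (B * S) ≤ ε * τ / 8 := by
    have h0 : 0 ≤ B * S := by positivity
    have h1 : A * (B * S) ≤ 2 * ε * (B * S) := mul_le_mul_of_nonneg_right hA2 h0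
    have h2 : ε * (16 * (B * S)) = ε * τ := by rw [hBS]
    linarith
  obtain ⟨σ, hσ⟩ : ∃ σ, σ = ε * τ / 4 := ⟨_, rfl⟩
  have hσpos : 0 < σ := by rw [hσ]; positivity
  obtain ⟨β, hβ⟩ : ∃ β, β = ε * τ := ⟨_, rfl⟩
  have hβpos : 0 < β := by rw [hβ]; exact hεt
  obtain ⟨zb, hzb⟩ : ∃ zb, zb = ε - σ := ⟨_, rfl⟩
  have hσε : σ ≤ ε / 400 := by
    have : ε * τ ≤ ε * (1 / 100) := mul_le_mul_of_nonneg_left hτ1 hεpos.le
    rw [hσ]
    linarith
  have hzbpos : 0 < zb := by rw [hzb]; linarith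
  have hzb1 : zb ≤ 1 := by linarith
  obtain ⟨m1, m2, m3⟩ := P1_scaled β σ zb hσpos
  obtain ⟨k1, k2, k3⟩ := P1_scaled A S 0 hSpos
  simp only [sub_zero] at k1 k2 k3
  refine ⟨ε, zb, ε, fun z => β * σ * P1q ((z - zb) / σ), fun z => -(β * P1P ((z - zb) / σ)),
    fun z => -(β / σ * P1D ((z - zb) / σ)), fun z => A * S * P1q (z / S), fun z => -(A * P1P (z / S)),
    fun z => -(A / S * P1D (z / S)), A, zb + 3 / 4 * σ, hεe, ?_, ?_⟩
  rotate_left
  · have hA1 : ε ≤ A := by
      have h1 : (1 - ε ^ 2) * P1P (ε / S) ≤ 1 := by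
        have h2 := P1P_le (div_pos hεpos hSpos).le
        have h3 := P1P_nonneg (ε / S)
        have h4 : 0 ≤ 1 - ε ^ 2 := by nlinarith
        calc (1 - ε ^ 2) * P1P (ε / S) ≤ (1 - ε ^ 2) * 1 := mul_le_mul_of_nonneg_left h2 h4
          _ ≤ 1 := by linarith [sq_nonneg ε]
      calc ε = A * ((1 - ε ^ 2) * P1P (ε / S)) := hAeq.symm
        _ ≤ A * 1 := mul_le_mul_of_nonneg_left h1 hApos.le
        _ = A := mul_one _
    refine ⟨hApos, hA2, by linarith, by rw [hzb]; linarith, ?_, ?_, ?_⟩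
    · intro z hz
      have h0 : 3 / 4 ≤ (z - zb) / σ := by
        rw [le_div_iff₀ hσpos]
        linarith
      have h1 : P1P ((z - zb) / σ) ≤ 1 / 80 := P1P_small h0
      show zb + 3 / 4 * σ + ε * τ / 20 ≤ A + -(β * P1P ((z - zb) / σ))
      have h2 : β * P1P ((z - zb) / σ) ≤ β * (1 / 80) := mul_le_mul_of_nonneg_left h1 hβpos.le
      have h3 : σ = β / 4 := by rw [hσ, hβ]
      have h4 : ε * τ = β := hβ.symm
      rw [h4]
      linarith
    · intro z hz
      have hz0 : 0 ≤ z := by linarith [hz.1]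
      have h1 := P1P_ge (div_nonneg hz0 hSpos.le)
      have h2 := P1P_le (div_nonneg hz0 hSpos.le)
      show τ * |A + -(A * P1P (z / S))| ≤ 32 * B * A * z
      have h3 : A + -(A * P1P (z / S)) = A * (1 - P1P (z / S)) := by ring
      rw [h3, abs_mul, abs_of_pos hApos, abs_of_nonneg (by linarith)]
      have h4 : A * (1 - P1P (z / S)) ≤ A * (2 * (z / S)) := mul_le_mul_of_nonneg_left (by linarith) hApos.le
      calc τ * (A * (1 - P1P (z / S))) ≤ τ * (A * (2 * (z / S))) := mul_le_mul_of_nonneg_left h4 hτ.le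
        _ = 32 * B * A * z := by
            rw [← hBS]
            field_simp
            ring
    · intro z hz
      have hz0 : 0 ≤ z := by linarith [hz.1]
      have h2 := P1q_le (div_nonneg hz0 hSpos.le)
      calc A * S * P1q (z / S) ≤ A * S * 1 := mul_le_mul_of_nonneg_left h2 (by positivity)
        _ ≤ A * 1 := by
            rw [mul_one]
            exact mul_le_mul_of_nonneg_left (by linarith) hApos.le
        _ = A := mul_one _
  have hmz : ∀ z ∈ Icc zb 1, 0 ≤ (z - zb) / σ := fun z hz => div_nonneg (by linarith [hz.1]) hσpos.le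
  have hqz : ∀ z ∈ Icc zb 1, 0 ≤ z / S := fun z hz => div_nonneg (by linarith [hz.1]) hSpos.le
  refine ⟨m1, k1, m2, m3, k2, k3, hεpos, hετ, hzbpos, ?_, ?_, by linarith, ?_, ?_, ?_, ?_, ?_, ?_, ?_, ?_,
    ?_, ?_, ?_, ?_⟩
  · rw [hzb, hσ]
    linarith
  · rw [hzb]
    linarith
  · intro z hz
    have h1 := P1q_nonneg ((z - zb) / σ)
    have h2 := P1q_le (hmz z hz)
    rw [abs_of_nonneg (by positivity)]
    calc β * σ * P1q ((z - zb) / σ) ≤ β * σ * 1 := mul_le_mul_of_nonneg_left h2 (by positivity)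
      _ = β * σ := mul_one _
      _ ≤ β * 1 := mul_le_mul_of_nonneg_left (by linarith) hβpos.le
      _ = ε * τ := by rw [hβ, mul_one]
  · intro z hz
    have h1 := P1P_nonneg ((z - zb) / σ)
    have h2 := P1P_le (hmz z hz)
    rw [abs_neg, abs_of_nonneg (by positivity)]
    calc β * P1P ((z - zb) / σ) ≤ β * 1 := mul_le_mul_of_nonneg_left h2 hβpos.le
      _ = ε * τ := by rw [hβ, mul_one]
  · intro z _
    have h1 := P1D_nonpos ((z - zb) / σ)
    have h2 : 0 < β / σ := div_pos hβpos hσpos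
    have h3 : β / σ * P1D ((z - zb) / σ) ≤ 0 := mul_nonpos_of_nonneg_of_nonpos h2.le h1
    show -(ε * τ) ≤ -(β / σ * P1D ((z - zb) / σ))
    linarith
  · intro z _
    exact mul_nonneg (by positivity) (P1q_nonneg _)
  · intro z hz
    have h2 := P1q_le (hqz z hz)
    calc A * S * P1q (z / S) ≤ A * S * 1 := mul_le_mul_of_nonneg_left h2 (by positivity)
      _ ≤ ε * τ := by linarith
  · intro z hz
    have h1 := P1P_nonneg (z / S)
    have h2 := P1P_le (hqz z hz)
    rw [abs_neg, abs_of_nonneg (by positivity)]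
    rcases le_total z S with h | h
    · have hz0 : 0 ≤ z := by linarith [hz.1]
      calc z * (A * P1P (z / S)) ≤ z * (A * 1) :=
            mul_le_mul_of_nonneg_left (mul_le_mul_of_nonneg_left h2 hApos.le) hz0
        _ = A * z := by ring
        _ ≤ A * S := mul_le_mul_of_nonneg_left h hApos.le
        _ ≤ ε * τ := by linarith
    · rw [(P1_zero ((one_le_div hSpos).2 h)).1, mul_zero, mul_zero]
      positivity
  · intro z hz
    have h1 := P1D_nonpos (z / S)
    have h2 := P1D_ge (hqz z hz)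
    have h3 : 0 < A / S := div_pos hApos hSpos
    rw [abs_neg, abs_mul, abs_of_pos h3, abs_of_nonpos h1]
    calc A / S * -P1D (z / S) ≤ A / S * 2 := mul_le_mul_of_nonneg_left (by linarith) h3.le
      _ ≤ τ := by
        have h4 : A / S ≤ 2 * (ε / S) := by
          rw [← mul_div_assoc]
          exact div_le_div_of_nonneg_right hA2 hSpos.le
        linarith
  · intro z hz
    have hz0 : 0 ≤ z := by linarith [hz.1]
    have hz1 : z ≤ 1 := hz.2
    have h1 := P1D_nonpos (z / S)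
    have h0 := P1P_nonneg (z / S)
    have h3 : 0 < A / S := div_pos hApos hSpos
    have h4 := P1_comb (hqz z hz)
    show |-(A * P1P (z / S))| + z * |-(A / S * P1D (z / S))| ≤ ε * (1 - z ^ 2 / 4) + ε * τ
    rw [abs_neg, abs_neg, abs_mul (A / S), abs_of_pos h3, abs_of_nonpos h1, abs_of_nonneg (by positivity)]
    rcases le_total z S with h | h
    · have h5 : A * P1P (z / S) + z * (A / S * -P1D (z / S)) = A * (P1P (z / S) - z / S * P1D (z / S)) := by
        field_simp
        ring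
      rw [h5]
      have h6 : z ^ 2 / 4 ≤ τ / 2 := by
        have : z * z ≤ S * 1 := mul_le_mul h hz1 hz0 hSpos.le
        nlinarith only [this, hS16, hτ]
      have h7 : ε * (z ^ 2 / 4) ≤ ε * (τ / 2) := mul_le_mul_of_nonneg_left h6 hεpos.le
      calc A * (P1P (z / S) - z / S * P1D (z / S)) ≤ A * 1 := mul_le_mul_of_nonneg_left h4 hApos.le
        _ ≤ ε * (1 + τ / 2) := by linarith
        _ ≤ ε * (1 - z ^ 2 / 4) + ε * τ := by linarith
    · rw [(P1_zero ((one_le_div hSpos).2 h)).1, (P1_zero ((one_le_div hSpos).2 h)).2]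
      have : 0 ≤ 1 - z ^ 2 / 4 := by nlinarith only [hz0, hz1]
      simp only [mul_zero, neg_zero, add_zero]
      positivity
  · have h1 : (ε - zb) / σ = 1 := by
      rw [hzb]
      have : ε - (ε - σ) = σ := by ring
      rw [this, div_self hσpos.ne']
    show ε = (1 - ε ^ 2) * (-(β * P1P ((ε - zb) / σ)) - -(A * P1P (ε / S)))
    rw [h1, (P1_zero le_rfl).1]
    linarith
  · have h1 : (zb - zb) / σ = 0 := by
      rw [sub_self, zero_div]
    have hzb0 : 0 ≤ zb / S := div_nonneg hzbpos.le hSpos.le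
    have h2 := P1q_le hzb0
    have h3 := P1P_le hzb0
    have h3' := P1P_nonneg (zb / S)
    show B * (A * S * P1q (zb / S)) < zb - (1 - zb ^ 2) * (-(β * P1P ((zb - zb) / σ)) - -(A * P1P (zb / S)))
    rw [h1, P1P_zero']
    have h4 : B * (A * S * P1q (zb / S)) ≤ ε * τ / 8 := by
      calc B * (A * S * P1q (zb / S)) ≤ B * (A * S * 1) :=
            mul_le_mul_of_nonneg_left (mul_le_mul_of_nonneg_left h2 (by positivity)) hB0.le
        _ = A * (B * S) := by ring
        _ ≤ ε * τ / 8 := hAB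
    have h5 : A * P1P (zb / S) ≤ A * 1 := mul_le_mul_of_nonneg_left h3 hApos.le
    have h6 : -(β * 1) - -(A * P1P (zb / S)) ≤ ε * (1 - τ / 2) := by
      rw [hβ]
      linarith
    have h7 : (1 - zb ^ 2) * (-(β * 1) - -(A * P1P (zb / S))) ≤ ε * (1 - τ / 2) := by
      have h8 : 0 ≤ 1 - zb ^ 2 := by nlinarith only [hzbpos, hzb1]
      have h9 : 0 ≤ ε * (1 - τ / 2) := by
        have : 0 ≤ 1 - τ / 2 := by linarith
        positivity
      calc _ ≤ (1 - zb ^ 2) * (ε * (1 - τ / 2)) := mul_le_mul_of_nonneg_left h6 h8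
        _ ≤ 1 * (ε * (1 - τ / 2)) := mul_le_mul_of_nonneg_right (by linarith [sq_nonneg zb]) h9
        _ = _ := one_mul _
    have h11 : zb = ε - ε * τ / 4 := by rw [hzb, hσ]
    linarith
  · have h3' := P1P_nonneg (zb / S)
    show -(A * P1P (zb / S)) ≤ 0
    have : 0 ≤ A * P1P (zb / S) := mul_nonneg hApos.le h3'
    linarith
  · intro z hz
    constructor
    · show β * σ * P1q ((z - zb) / σ) = 0
      rw [P1q_zero, mul_zero]
      rw [one_le_div hσpos, hzb]
      linarith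
    · show A * S * P1q (z / S) = 0
      rw [P1q_zero, mul_zero]
      rw [one_le_div hSpos]
      linarith

end SW
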