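import Pool.Agent.helper71.SW.B1
import Pool.Agent.helper71.SW.M1
import Pool.Agent.helper71.SW.P1

/-! The domain `{ρ > 0}`, `ρ = z - z0 - A Σ β(|X_i|)` -/

noncomputable section

namespace SW

open SN KBR Set Filter Topology
open scoped ContDiff RealInnerProductSpace

variable {n : ℕ}

theorem smooth_hasFDeriv {u : E n → ℝ} (hu : ContDiff ℝ ∞ u) (x : E n) :
    HasFDerivAt u (fderiv ℝ u x) x := ((hu.differentiable (by norm_num)) x).hasFDerivAt

theorem smooth_hasFDeriv2 {u : E n → ℝ} (hu : ContDiff ℝ ∞ u) (x : E n) :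
    HasFDerivAt (fderiv ℝ u) (fderiv ℝ (fderiv ℝ u) x) x := by
  have h : ContDiff ℝ ∞ (fderiv ℝ u) := hu.fderiv_right (m := ∞) (by norm_num)
  exact ((h.differentiable (by norm_num)) x).hasFDerivAt

theorem hess_comp {L u : E n → ℝ} {b : ℝ → ℝ} (hu : ContDiff ℝ ∞ u) (hb : ContDiff ℝ ∞ b)
    (x v : E n) : hess L (fun y => b (u y)) x v =
      deriv b (u x) * hess L u x v + deriv (deriv b) (u x) * (fderiv ℝ u x v) ^ 2 := by
  have hb1 : ContDiff ℝ ∞ (deriv b) := (contDiff_infty_iff_deriv.1 hb).2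
  have d1 : ∀ t, HasDerivAt b (deriv b t) t := fun t => ((hb.differentiable (by norm_num)) t).hasDerivAt
  have d2 : ∀ t, HasDerivAt (deriv b) (deriv (deriv b) t) t := fun t =>
    ((hb1.differentiable (by norm_num)) t).hasDerivAt
  have h1 : ∀ y, HasFDerivAt (fun y => b (u y)) (deriv b (u y) • fderiv ℝ u y) y := fun y =>
    (d1 (u y)).comp_hasFDerivAt y (smooth_hasFDeriv hu y)
  have h2 : fderiv ℝ (fun y => b (u y)) = fun y => deriv b (u y) • fderiv ℝ u y :=
    funext fun y => (h1 y).fderiv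
  have h3 : HasFDerivAt (fun y => deriv b (u y)) (deriv (deriv b) (u x) • fderiv ℝ u x) x :=
    (d2 (u x)).comp_hasFDerivAt x (smooth_hasFDeriv hu x)
  have h4 := (h3.smul (smooth_hasFDeriv2 hu x)).fderiv
  unfold hess
  rw [h2]
  have h5 : fderiv ℝ (fun y => deriv b (u y) • fderiv ℝ u y) x = _ := h4
  rw [h5]
  simp
  ring

theorem hess_add {L f g : E n → ℝ} (hf : ContDiff ℝ ∞ f) (hg : ContDiff ℝ ∞ g) (x v : E n) :
    hess L (fun y => f y + g y) x v = hess L f x v + hess L g x v := by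
  have h1 : fderiv ℝ (fun y => f y + g y) = fun y => fderiv ℝ f y + fderiv ℝ g y :=
    funext fun y => ((smooth_hasFDeriv hf y).add (smooth_hasFDeriv hg y)).fderiv
  have h2 : fderiv ℝ (fun y => fderiv ℝ f y + fderiv ℝ g y) x = _ :=
    ((smooth_hasFDeriv2 hf x).add (smooth_hasFDeriv2 hg x)).fderiv
  unfold hess
  rw [h1, h2]
  simp
  ring

theorem hess_const_mul {L f : E n → ℝ} (c : ℝ) (hf : ContDiff ℝ ∞ f) (x v : E n) :
    hess L (fun y => c * f y) x v = c * hess L f x v := by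
  have h1 : fderiv ℝ (fun y => c * f y) = fun y => c • fderiv ℝ f y :=
    funext fun y => ((smooth_hasFDeriv hf y).const_mul c).fderiv
  have h2 : fderiv ℝ (fun y => c • fderiv ℝ f y) x = _ :=
    ((smooth_hasFDeriv2 hf x).const_smul c).fderiv
  unfold hess
  rw [h1, h2]
  simp
  ring

theorem hess_const {L : E n → ℝ} (c : ℝ) (x v : E n) : hess L (fun _ => c) x v = 0 := by
  unfold hess
  have h1 : fderiv ℝ (fun _ : E n => c) = fun _ => 0 := by
    funext y
    simp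
  rw [h1]
  simp

theorem hess_sum {L : E n → ℝ} {ι : Type*} (s : Finset ι) {f : ι → E n → ℝ}
    (hf : ∀ i, ContDiff ℝ ∞ (f i)) (x v : E n) :
    hess L (fun y => ∑ i ∈ s, f i y) x v = ∑ i ∈ s, hess L (f i) x v := by
  classical
  induction s using Finset.induction_on with
  | empty => simpa using hess_const (L := L) 0 x v
  | insert a s ha ih =>
    simp only [Finset.sum_insert ha]
    rw [hess_add (hf a) (ContDiff.sum fun i _ => hf i), ih]

/-- coordinate vectors -/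
def ee (i : Fin n) : E n := EuclideanSpace.single i 1

theorem ee_norm (i : Fin n) : ‖ee i‖ = 1 := by simp [ee]

theorem inner_ee (X : E n) (i : Fin n) : ⟪X, ee i⟫ = X i := by
  simp [ee, EuclideanSpace.inner_single_right]

section

variable {κ : ℝ}

theorem co_smooth (hκ : 0 < κ) (i : Fin n) : ContDiff ℝ ∞ (fun y : E n => XX κ y i) := by
  have h : ContDiff ℝ ∞ (fun X : E n => X i) := (EuclideanSpace.proj (𝕜 := ℝ) i).contDiff
  exact h.comp (XX_smooth hκ)

theorem co_fderiv (hκ : 0 < κ) (i : Fin n) (x v : E n) :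
    fderiv ℝ (fun y : E n => XX κ y i) x v = fderiv ℝ (XX κ) x v i := by
  have h1 : HasFDerivAt (fun X : E n => X i) (EuclideanSpace.proj (𝕜 := ℝ) i : E n →L[ℝ] ℝ) (XX κ x) :=
    (EuclideanSpace.proj (𝕜 := ℝ) i : E n →L[ℝ] ℝ).hasFDerivAt
  have h2 : HasFDerivAt (XX (n := n) κ) (fderiv ℝ (XX κ) x) x :=
    (((XX_smooth hκ).differentiable (by norm_num)) x).hasFDerivAt
  have h3 : HasFDerivAt (fun y : E n => XX κ y i) _ x := h1.comp x h2
  rw [h3.fderiv]
  rfl

/-- `Φ` on the ball -/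
def Phi (κ : ℝ) (x : E n) : ℝ := PhiX (XX κ x)

/-- `ρ` on the ball -/
def rho (κ A z0 : ℝ) (x : E n) : ℝ := zz κ x + (-z0 + (-A) * Phi κ x)

theorem Phi_smooth (hκ : 0 < κ) : ContDiff ℝ ∞ (Phi (n := n) κ) :=
  PhiX_smooth.comp (XX_smooth hκ)

theorem rho_smooth (hκ : 0 < κ) (A z0 : ℝ) : ContDiff ℝ ∞ (rho (n := n) κ A z0) :=
  (zz_smooth hκ).add (contDiff_const.add (contDiff_const.mul (Phi_smooth hκ)))

theorem Phi_eq (κ : ℝ) : Phi (n := n) κ = fun y => ∑ i, bb (XX κ y i) := rfl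

theorem Phi_nonneg (κ : ℝ) (x : E n) : 0 ≤ Phi κ x := by
  unfold Phi PhiX
  exact Finset.sum_nonneg fun i _ => bb_nonneg _

theorem Phi_fderiv (hκ : 0 < κ) (x v : E n) :
    fderiv ℝ (Phi (n := n) κ) x v = ∑ i, bb₁ (XX κ x i) * fderiv ℝ (XX κ) x v i := by
  have h1 : HasFDerivAt (fun y : E n => ∑ i, bb (XX κ y i))
      (∑ i, bb₁ (XX κ x i) • fderiv ℝ (fun y : E n => XX κ y i) x) x :=
    HasFDerivAt.fun_sum fun i _ => HasDerivAt.comp_hasFDerivAt (h₂ := bb) x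
      (bb_hasDeriv (XX κ x i)) (smooth_hasFDeriv (co_smooth hκ i) x)
  rw [Phi_eq, h1.fderiv]
  simp [co_fderiv hκ]

theorem rho_fderiv (hκ : 0 < κ) (A z0 : ℝ) (x v : E n) :
    fderiv ℝ (rho (n := n) κ A z0) x v = fderiv ℝ (zz κ) x v - A * fderiv ℝ (Phi κ) x v := by
  have h1 : HasFDerivAt (rho (n := n) κ A z0)
      (fderiv ℝ (zz κ) x + (-A) • fderiv ℝ (Phi κ) x) x := by
    have h2 := (smooth_hasFDeriv (zz_smooth hκ) x).add
      (((smooth_hasFDeriv (Phi_smooth hκ) x).const_mul (-A)).const_add (-z0))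
    exact h2
  rw [h1.fderiv]
  simp
  ring

theorem rho_hess (hκ : 0 < κ) (L : E n → ℝ) (A z0 : ℝ) (x v : E n) :
    hess L (rho κ A z0) x v = hess L (zz κ) x v - A * ∑ i,
      (bb₁ (XX κ x i) * hess L (fun y => XX κ y i) x v +
        deriv bb₁ (XX κ x i) * (fderiv ℝ (XX κ) x v i) ^ 2) := by
  have h1 : rho κ A z0 = fun y : E n => zz κ y + (-z0 + (-A) * Phi κ y) := rfl
  rw [h1, hess_add (zz_smooth hκ) (contDiff_const.add (contDiff_const.mul (Phi_smooth hκ))),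
    hess_add contDiff_const (contDiff_const.mul (Phi_smooth hκ)), hess_const,
    hess_const_mul _ (Phi_smooth hκ), Phi_eq,
    hess_sum (f := fun i y => bb (XX κ y i)) _ fun i => bb_smooth.comp (co_smooth hκ i)]
  have h2 : ∀ i : Fin n, hess L (fun y => bb (XX κ y i)) x v =
      bb₁ (XX κ x i) * hess L (fun y => XX κ y i) x v +
        deriv bb₁ (XX κ x i) * (fderiv ℝ (XX κ) x v i) ^ 2 := by
    intro i
    rw [hess_comp (co_smooth hκ i) bb_smooth, co_fderiv hκ]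
    rfl
  simp only [h2]
  ring

end

/-- at most one coordinate of a vector of the unit ball is larger than `3/4` -/
theorem one_active {X : E n} (hX : ‖X‖ ≤ 1) {i j : Fin n} (hi : 3 / 4 < |X i|) (hj : 3 / 4 < |X j|) :
    i = j := by
  by_contra hij
  have h1 := EuclideanSpace.real_norm_sq_eq X
  have h2 : (X i) ^ 2 + (X j) ^ 2 ≤ ∑ k, (X k) ^ 2 := by
    rw [← Finset.sum_pair hij (f := fun k => (X k) ^ 2)]
    exact Finset.sum_le_sum_of_subset_of_nonneg (Finset.subset_univ _) fun k _ _ => sq_nonneg _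
  have h3 : 9 / 16 < (X i) ^ 2 := by
    rw [← sq_abs]
    nlinarith
  have h4 : 9 / 16 < (X j) ^ 2 := by
    rw [← sq_abs]
    nlinarith
  have h5 : ‖X‖ ^ 2 ≤ 1 := by nlinarith [norm_nonneg X]
  linarith

/-- if `dΦ(v) = 0` then `v` is tangent to the level sets of the active coordinate -/
theorem level_zero {X ξ : E n} (hX : ‖X‖ ≤ 1) (h : ∑ i, bb₁ (X i) * ξ i = 0) (i : Fin n) :
    bb₁ (X i) * ξ i = 0 ∧ deriv bb₁ (X i) * (ξ i) ^ 2 = 0 := by
  rcases le_or_gt |X i| (3 / 4) with h0 | h0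
  · rw [bb₁_zero h0, bb₂_zero h0]
    simp
  · have h1 : ∑ j, bb₁ (X j) * ξ j = bb₁ (X i) * ξ i := by
      refine Finset.sum_eq_single i (fun j _ hj => ?_) (fun hi => absurd (Finset.mem_univ i) hi)
      have h2 : |X j| ≤ 3 / 4 := by
        by_contra hc
        exact hj (one_active hX (not_le.1 hc) h0)
      rw [bb₁_zero h2, zero_mul]
    have h2 : bb₁ (X i) * ξ i = 0 := by rw [← h1]; exact h
    have h3 : ξ i = 0 := (mul_eq_zero.1 h2).resolve_left (bb₁_ne h0)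
    rw [h3]
    simp

theorem zz_le_zb {zb : ℝ} (h0 : 0 < zb) (h1 : zb < 1) {x : E n} (hx : 1 ≤ ‖x‖) :
    zz (kap zb) x ≤ zb := by
  have hk : 0 < kap zb := by unfold kap; exact div_pos (by linarith) (by linarith)
  have h5 : 1 + kap zb ≤ 1 + kap zb * ‖x‖ ^ 2 := by
    have : 1 ≤ ‖x‖ ^ 2 := by nlinarith
    nlinarith
  have h6 : (1 + kap zb * ‖x‖ ^ 2)⁻¹ ≤ (1 + kap zb)⁻¹ := inv_anti₀ (by positivity) h5
  have h7 : (1 + kap zb)⁻¹ = (1 + zb) / 2 := by
    unfold kap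
    have h4 : (1 + zb) ≠ 0 := by positivity
    field_simp
    ring_nf
  unfold zz pp
  rw [h7] at h6
  linarith

/-- the numerical inequality behind the key property -/
theorem key_num {τ B ε A z0 z m1 q q1 P G F R T D s : ℝ} (hτ : 0 < τ) (hτ1 : τ ≤ 1 / 100)
    (hB : 1 ≤ B) (hε : 0 < ε) (hετ : 3000 * B * ε ≤ τ ^ 2) (hA : 0 < A) (hA2 : A ≤ 2 * ε)
    (hs : 0 < s) (hz0 : 0 < z0) (hz0' : z0 ≤ ε) (hz : z = z0 + A * F) (hF0 : 0 ≤ F) (hF : F ≤ 1 / 16)
    (hG0 : 0 ≤ G) (hG : G ≤ 1) (hP : P = 1 - G + F) (hP0 : 0 ≤ P) (hP1 : P ≤ 1)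
    (hm : |m1| ≤ ε * τ) (hq0 : 0 ≤ q) (hq : q ≤ A) (hq1 : τ * |A + q1| ≤ 32 * B * A * z)
    (hD : |D| ≤ B) (hT : |T| ≤ 3 / 2 * B) (hR : R = (m1 - P * q1) * z - q * D)
    (hlev : z0 + ε * τ / 20 ≤ A + m1) :
    0 < s * (-z + (m1 - P * q1) - z * R) + A * s * (G + q * T + G * R) := by
  have hzpos : 0 < z := by rw [hz]; positivity
  have hz2 : z ≤ 2 * ε := by
    rw [hz]
    have : A * F ≤ 2 * ε * (1 / 16) := mul_le_mul hA2 hF hF0 (by positivity)
    linarith
  have hε1 : ε ≤ 1 / 100 := by nlinarith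
  have a1 : τ * |A + q1| ≤ 128 * B * ε ^ 2 := by
    have : A * z ≤ 2 * ε * (2 * ε) := mul_le_mul hA2 hz2 hzpos.le (by positivity)
    calc τ * |A + q1| ≤ 32 * B * A * z := hq1
      _ = 32 * B * (A * z) := by ring
      _ ≤ 32 * B * (2 * ε * (2 * ε)) := mul_le_mul_of_nonneg_left this (by positivity)
      _ = _ := by ring
  have a2 : |A + q1| ≤ ε * τ / 22 := by
    have h1 : 128 * B * ε ^ 2 ≤ τ * (ε * τ / 22) := by nlinarith
    exact le_of_mul_le_mul_left (a1.trans h1) hτ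
  have a3 : |q1| ≤ 3 * ε := by
    have h1 : |q1| ≤ |A + q1| + |A| := by
      have := abs_sub (A + q1) A
      rwa [add_sub_cancel_left] at this
    rw [abs_of_pos hA] at h1
    nlinarith
  have a4 : |m1 - P * q1| ≤ 4 * ε := by
    have h1 := abs_sub m1 (P * q1)
    rw [abs_mul, abs_of_nonneg hP0] at h1
    have h2 : P * |q1| ≤ 1 * (3 * ε) := mul_le_mul hP1 a3 (abs_nonneg _) (by norm_num)
    nlinarith
  have a5 : |R| ≤ 3 * ε * B := by
    rw [hR]
    have h1 := abs_sub ((m1 - P * q1) * z) (q * D)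
    rw [abs_mul, abs_mul, abs_of_pos hzpos, abs_of_nonneg hq0] at h1
    have h2 : |m1 - P * q1| * z ≤ 4 * ε * (2 * ε) := mul_le_mul a4 hz2 hzpos.le (by positivity)
    have h3 : q * |D| ≤ 2 * ε * B := mul_le_mul (hq.trans hA2) hD (abs_nonneg _) (by positivity)
    have h4 : 4 * ε * (2 * ε) ≤ ε * B := by nlinarith
    linarith
  have b1 : |P * (A + q1)| ≤ ε * τ / 22 := by
    rw [abs_mul, abs_of_nonneg hP0]
    calc P * |A + q1| ≤ 1 * (ε * τ / 22) := mul_le_mul hP1 a2 (abs_nonneg _) (by norm_num)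
      _ = _ := one_mul _
  have b2 : |z * R| ≤ 6 * ε ^ 2 * B := by
    rw [abs_mul, abs_of_pos hzpos]
    calc z * |R| ≤ 2 * ε * (3 * ε * B) := mul_le_mul hz2 a5 (abs_nonneg _) (by positivity)
      _ = _ := by ring
  have b3 : |A * (q * T)| ≤ 6 * ε ^ 2 * B := by
    rw [abs_mul, abs_of_pos hA, abs_mul, abs_of_nonneg hq0]
    calc A * (q * |T|) ≤ 2 * ε * (2 * ε * (3 / 2 * B)) := by
          refine mul_le_mul hA2 ?_ (by positivity) (by positivity)
          exact mul_le_mul (hq.trans hA2) hT (abs_nonneg _) (by positivity)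
      _ = _ := by ring
  have b4 : |A * (G * R)| ≤ 6 * ε ^ 2 * B := by
    rw [abs_mul, abs_of_pos hA, abs_mul, abs_of_nonneg hG0]
    calc A * (G * |R|) ≤ 2 * ε * (1 * (3 * ε * B)) := by
          refine mul_le_mul hA2 ?_ (by positivity) (by positivity)
          exact mul_le_mul hG a5 (abs_nonneg _) (by positivity)
      _ = _ := by ring
  have e : s * (-z + (m1 - P * q1) - z * R) + A * s * (G + q * T + G * R) =
      s * ((A + m1 - z0) - P * (A + q1) - z * R + A * (q * T) + A * (G * R)) := by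
    rw [hz, hP]
    ring
  rw [e]
  refine mul_pos hs ?_
  have c1 := (abs_le.1 b1).2
  have c2 := (abs_le.1 b2).2
  have c3 := (abs_le.1 b3).1
  have c4 := (abs_le.1 b4).1
  have c5 : 18 * (ε ^ 2 * B) ≤ 18 * (ε * τ * (τ / 3000)) := by nlinarith
  have c6 : ε * τ * (τ / 3000) ≤ ε * τ * (1 / 300000) := mul_le_mul_of_nonneg_left (by linarith) (by positivity)
  have c7 : 0 < ε * τ := by positivity
  linarith

/-- the geometric part of the construction -/
theorem exists_geo : ∃ L ρ Φ : E 3 → ℝ, Geo L ρ Φ := by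
  obtain ⟨B, hψ⟩ := psiX_Psi
  obtain ⟨τ, e, hτ, hτ1, hBτ, he, hgood⟩ := exists_good hψ psiX_circ
  have hB := hψ.one_le
  obtain ⟨ε, zb, zn, μ, μ₁, μ₂, Q, Q₁, Q₂, A, z0, hεe, hP, hN⟩ :=
    exists_prof_neck τ B hτ hτ1 hB (min e (τ ^ 2 / (3000 * B))) (lt_min he (by positivity))
  have hε := hP.ε_pos
  have hεB : 3000 * B * ε ≤ τ ^ 2 := by
    have h1 := hεe.trans (min_le_right _ _)
    rw [le_div_iff₀ (by positivity)] at h1
    linarith
  have hPar : Par τ B ε zb zn μ μ₁ μ₂ Q Q₁ Q₂ (psiX (n := 3)) := ⟨hP, hψ, hτ, hBτ⟩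
  have hκ := kap_pos hPar
  have hzb := hP.zb_pos
  have hz0 : 0 < z0 := hzb.trans hN.z0_gt
  have hε1 : ε ≤ 1 / 100 := hP.ε_le.trans hτ1
  have hz01 : z0 < 1 := by
    have := hN.z0_le
    linarith
  have hzb1 : zb < 1 := hN.z0_gt.trans hz01
  refine ⟨LL (kap zb) μ Q psiX, rho (kap zb) A z0, Phi (kap zb),
    hgood ε zb zn μ μ₁ μ₂ Q Q₁ Q₂ (hεe.trans (min_le_left _ _)) hP, rho_smooth hκ A z0, Phi_smooth hκ,
    ?_, ?_, ?_⟩
  · intro x hx
    have h1 := zz_le_zb hzb hzb1 hx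
    have h2 : 0 ≤ Phi (kap zb) x := Phi_nonneg _ _
    have h3 := hN.z0_gt
    have h4 : 0 ≤ A * Phi (kap zb) x := mul_nonneg hN.A_pos.le h2
    unfold rho
    linarith
  · refine ⟨0, ?_⟩
    have h1 : XX (kap zb) (0 : E 3) = 0 := by simp [XX]
    have h2 : Phi (kap zb) (0 : E 3) = 0 := by
      rw [Phi, h1, PhiX]
      refine Finset.sum_eq_zero fun i _ => bb_zero ?_
      simp
      norm_num
    have h3 : zz (kap zb) (0 : E 3) = 1 := by
      simp [zz, pp]
      norm_num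
    rw [rho, h2, h3]
    linarith
  · intro x v hx hv hρ hdρ hdΦ
    have hxM : x ∈ M 3 := by
      rw [M, Metric.mem_closedBall, dist_zero_right]
      exact hx
    have hz := zz_mem hPar hxM
    have hXn := S1_nX hκ x
    rw [rho_fderiv hκ, hdΦ, mul_zero, sub_zero] at hdρ
    rw [Phi_fderiv hκ] at hdΦ
    have hlz := level_zero hXn hdΦ
    obtain ⟨s, hs⟩ : ∃ s, s = Real.exp (2 * LR (kap zb) x) * ‖v‖ ^ 2 := ⟨_, rfl⟩
    have hspos : 0 < s := by
      rw [hs]
      have := norm_pos_iff.2 hv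
      positivity
    have hd := hPar.dat
    have hHz := hess_zz hκ hd x v
    rw [hdρ, ← hs, mul_zero, sub_zero] at hHz
    have hHX : ∀ i, bb₁ (XX (kap zb) x i) * hess (LL (kap zb) μ Q psiX) (fun y => XX (kap zb) y i) x v =
        -(s * (bb₁ (XX (kap zb) x i) * XX (kap zb) x i)) - s * (Q (zz (kap zb) x) *
          (bb₁ (XX (kap zb) x i) * fderiv ℝ (psiX (n := 3)) (XX (kap zb) x) (ee i))) -
          s * (lamR (kap zb) μ₁ Q Q₁ psiX x * (bb₁ (XX (kap zb) x i) * XX (kap zb) x i)) := by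
      intro i
      have h1 := hess_XX hκ hd x v (ee i)
      simp only [inner_ee] at h1
      rw [h1, ← hs]
      have h2 := (hlz i).1
      linear_combination (-2 * lamD (kap zb) μ₁ Q Q₁ psiX x v) * h2
    rw [rho_hess hκ, hHz]
    have hsum : ∑ i, (bb₁ (XX (kap zb) x i) * hess (LL (kap zb) μ Q psiX) (fun y => XX (kap zb) y i) x v +
        deriv bb₁ (XX (kap zb) x i) * (fderiv ℝ (XX (kap zb)) x v i) ^ 2) =
        -(s * ∑ i, XX (kap zb) x i * bb₁ (XX (kap zb) x i)) - s * (Q (zz (kap zb) x) *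
          ∑ i, bb₁ (XX (kap zb) x i) * fderiv ℝ (psiX (n := 3)) (XX (kap zb) x) (ee i)) -
          s * (lamR (kap zb) μ₁ Q Q₁ psiX x * ∑ i, XX (kap zb) x i * bb₁ (XX (kap zb) x i)) := by
      rw [Finset.mul_sum, Finset.mul_sum, Finset.mul_sum, Finset.mul_sum, Finset.mul_sum,
        ← Finset.sum_neg_distrib, ← Finset.sum_sub_distrib, ← Finset.sum_sub_distrib]
      refine Finset.sum_congr rfl fun i _ => ?_
      rw [hHX, (hlz i).2]
      ring
    rw [hsum]
    obtain ⟨G, hG⟩ : ∃ G, G = ∑ i, XX (kap zb) x i * bb₁ (XX (kap zb) x i) := ⟨_, rfl⟩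
    obtain ⟨T, hT⟩ : ∃ T, T = ∑ i, bb₁ (XX (kap zb) x i) *
      fderiv ℝ (psiX (n := 3)) (XX (kap zb) x) (ee i) := ⟨_, rfl⟩
    rw [← hG, ← hT]
    have hcoord := coord_le hXn
    have hb1 := hψ.b1 _ hXn
    have hz1 : z0 ≤ zz (kap zb) x := by
      have h2 : 0 ≤ Phi (kap zb) x := Phi_nonneg _ _
      have h4 : 0 ≤ A * Phi (kap zb) x := mul_nonneg hN.A_pos.le h2
      unfold rho at hρ
      linarith
    have hkey := key_num (τ := τ) (B := B) (ε := ε) (A := A) (z0 := z0) (z := zz (kap zb) x)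
      (m1 := μ₁ (zz (kap zb) x)) (q := Q (zz (kap zb) x)) (q1 := Q₁ (zz (kap zb) x))
      (P := psiX (XX (kap zb) x)) (G := G) (F := Phi (kap zb) x) (R := lamR (kap zb) μ₁ Q Q₁ psiX x)
      (T := T) (D := fderiv ℝ (psiX (n := 3)) (XX (kap zb) x) (XX (kap zb) x)) (s := s)
      hτ hτ1 hB hε hεB hN.A_pos hN.A_le hspos hz0 hN.z0_le ?_ ?_ ?_ ?_ ?_ ?_ (hψ.nonneg _ hXn)
      (hψ.le_one _ hXn) (hP.bμ₁ _ hz) (hP.bQ0 _ hz) (hN.bQ _ hz) (hN.bQA _ hz) ?_ ?_ rfl
      (hN.lev _ hz1)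
    · refine hkey.trans_le (le_of_eq ?_)
      ring
    · unfold rho at hρ
      linarith
    · exact Phi_nonneg _ _
    · have h1 : Phi (kap zb) x ≤ ∑ _i : Fin 3, (1 / 48 : ℝ) := by
        unfold Phi PhiX
        exact Finset.sum_le_sum fun i _ => (gg_bounds (hcoord i)).2.2.2.1
      simp at h1
      linarith
    · rw [hG]
      refine Finset.sum_nonneg fun i _ => ?_
      have h1 := (gg_bounds (hcoord i)).1
      have h2 := bb_nonneg (XX (kap zb) x i)
      linarith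
    · rw [hG]
      have h1 : ∑ i, XX (kap zb) x i * bb₁ (XX (kap zb) x i) ≤ ∑ _i : Fin 3, (1 / 3 : ℝ) :=
        Finset.sum_le_sum fun i _ => (gg_bounds (hcoord i)).2.2.2.2.1
      simp at h1
      linarith
    · rw [psiX, hG, Phi, PhiX, Finset.sum_sub_distrib]
      ring
    · rw [← Real.norm_eq_abs]
      refine (ContinuousLinearMap.le_opNorm _ _).trans ?_
      have := mul_le_mul hb1 hXn (norm_nonneg _) (by linarith)
      linarith
    · rw [hT]
      refine (Finset.abs_sum_le_sum_abs _ _).trans ?_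
      have h1 : ∀ i ∈ Finset.univ, |bb₁ (XX (kap zb) x i) *
          fderiv ℝ (psiX (n := 3)) (XX (kap zb) x) (ee i)| ≤ 1 / 2 * B := by
        intro i _
        rw [abs_mul]
        refine mul_le_mul (gg_bounds (hcoord i)).2.2.2.2.2 ?_ (abs_nonneg _) (by norm_num)
        rw [← Real.norm_eq_abs]
        refine (ContinuousLinearMap.le_opNorm _ _).trans ?_
        rw [ee_norm, mul_one]
        exact hb1
      refine (Finset.sum_le_sum h1).trans ?_
      simp
      linarith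

end SW
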