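import Pool.Agent.helper71.SN.Defs

/-! Definitions used in the statement of the theorem on the weighted ray transform -/

noncomputable section

namespace SW

open SN KBR Set
open scoped ContDiff RealInnerProductSpace

variable {n : ℕ}

/-- `c : [0,T] → M` is a unit speed geodesic of the metric `g` with velocity `v` -/
def UnitGeod (G : Fld n) (T : ℝ) (c v : ℝ → E n) : Prop :=
  Geod G T c v ∧ ∀ t ∈ Icc 0 T, gm G (c t) (v t) (v t) = 1

/-- `(J, W)`, `W = J'`, solves the linearised geodesic equation along `c` -/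
def Jacobi (Γ : E n → E n → E n → E n) (T : ℝ) (c v J W : ℝ → E n) : Prop :=
  ∀ t ∈ Icc 0 T, HasDerivWithinAt J (W t) (Icc 0 T) t ∧
    HasDerivWithinAt W (-(fderiv ℝ (fun p : E n × E n => Γ p.1 p.2 p.2) (c t, v t) (J t, W t)))
      (Icc 0 T) t

/-- `M` has no conjugate points -/
def NoConj (G : Fld n) (Γ : E n → E n → E n → E n) : Prop :=
  ∀ T c v J W, 0 < T → UnitGeod G T c v → Jacobi Γ T c v J W → J 0 = 0 → J T = 0 →
    ∀ t ∈ Icc 0 T, J t = 0

/-- every geodesic leaves `M` in finite time (the unit speed geodesics in `M` have bounded length) -/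
def NonTrapping (G : Fld n) : Prop :=
  ∃ l : ℝ, ∀ T c v, UnitGeod G T c v → T ≤ l

/-- the weighted integral of `f` over the geodesic `c : [0,T] → M` -/
def rayInt (w : E n × E n → ℝ) (f : E n → ℝ) (T : ℝ) (c v : ℝ → E n) : ℝ :=
  ∫ t in (0 : ℝ)..T, w (c t, v t) * f (c t)

/-- `I_w f = 0`: the weighted integrals of `f` over all unit speed geodesics of `M` between boundary
points vanish -/
def RayZero (G : Fld n) (w : E n × E n → ℝ) (f : E n → ℝ) : Prop :=
  ∀ T c v, 0 ≤ T → UnitGeod G T c v → c 0 ∈ bM n → c T ∈ bM n → rayInt w f T c v = 0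

end SW
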