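import Pool.Agent.helper71.SW.F3
import Pool.Agent.helper71.SW.Stmt
import Pool.Agent.helper71.SW.N1
import Pool.Agent.helper71.SN.E2
import Pool.Agent.helper71.SN.E4
import Pool.Agent.helper79.WR.AnaMain

/-! The weight on the sphere bundle and the vanishing of the weighted ray transform -/

noncomputable section

namespace SW

open SN KBR Set Filter Topology
open scoped ContDiff RealInnerProductSpace NNReal

variable {n : ℕ} {L ρ Φ : E n → ℝ} {K δ : ℝ} {om : E n × E n → ℝ}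
  {φ : ℝ → E n × E n → E n × E n}

/-- the integral of a function of `f` over an orbit which starts on a geodesic between boundary
points -/
theorem orbit_int (h : CF L K δ om φ) (hG : Geo L ρ Φ) {f : E n → ℝ} (hf : Continuous f)
    (hf0 : ∀ x, ρ x ≤ 0 → f x = 0) {T : ℝ} (hT : 0 < T) {c v : ℝ → E n} (hg : UGeod L T c v)
    (hc0 : ‖c 0‖ = 1) (hcT : ‖c T‖ = 1) {F : ℝ → ℝ} (hF : Continuous F) (hF0 : F 0 = 0) {s : ℝ}
    (hs : s ∈ Icc 0 T) :
    ∫ t in (-8 : ℝ)..8, F (f (φ t (c s, v s)).1) = ∫ t in (0 : ℝ)..T, F (f (c t)) := by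
  have hπ := hg.toCGeod
  have hTπ : T < 4 := (hG.good.len T c v hg).trans Real.pi_lt_four
  have h0T : (0 : ℝ) ∈ Icc 0 T := ⟨le_rfl, hT.le⟩
  have hTT : T ∈ Icc 0 T := ⟨hT.le, le_rfl⟩
  have hspd : ∀ t ∈ Icc 0 T, spd L (c t, v t) = 1 := fun t ht => hg.unit t ht
  have hM : ∀ t ∈ Icc 0 T, ‖c t‖ ≤ 1 := fun t ht => mem_closedBall_zero_iff.1 (hg.mem t ht)
  have hvK : ∀ t ∈ Icc 0 T, ‖v t‖ ≤ K := fun t ht =>
    h.bound (c t) (v t) (by linarith [hM t ht]) (by
      have := hspd t ht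
      unfold spd at this
      linarith)
  have hu := h.uniq T c v hg.toCGeod hvK
  obtain ⟨z, hz⟩ : ∃ z, z = (c 0, v 0) := ⟨_, rfl⟩
  have hz1 : ‖z.1‖ ≤ 1 := by rw [hz]; exact hM 0 h0T
  have hzs : spd L z = 1 := by rw [hz]; exact hspd 0 h0T
  have hzs4 : spd L z ≤ 4 := by rw [hzs]; norm_num
  have hzs0 : 0 < spd L z := by rw [hzs]; norm_num
  rw [← hz] at hu
  -- outside `[0, T]` the orbit is outside `M`
  have hout : ∀ t, t ∉ Icc 0 T → F (f (φ t z).1) = 0 := by
    intro t ht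
    have h1 : 1 < ‖(φ t z).1‖ := by
      by_contra hcc
      have hle := not_lt.1 hcc
      rcases lt_or_ge t 0 with h2 | h2
      · have h3 := h.convex' hz1 hzs4 hzs0 h2 hT hle (by rw [hu T hTT]; exact hcT.le)
        rw [h.zero, hz] at h3
        exact absurd hc0 h3.ne
      · have h2' : T < t := by
          by_contra hcc'
          exact ht ⟨h2, not_lt.1 hcc'⟩
        have h3 := h.convex' hz1 hzs4 hzs0 hT h2' (by rw [h.zero]; exact hz1) hle
        rw [hu T hTT] at h3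
        exact absurd hcT h3.ne
    rw [hf0 _ (hG.neg _ h1.le).le, hF0]
  have hcont : Continuous fun t => F (f (φ t z).1) :=
    hF.comp (hf.comp (continuous_fst.comp (h.cont z)))
  have hshift : ∀ t, F (f (φ t (c s, v s)).1) = (fun t => F (f (φ t z).1)) (t + s) := by
    intro t
    show _ = F (f (φ (t + s) z).1)
    rw [h.add, hu s hs]
  simp_rw [hshift]
  rw [intervalIntegral.integral_comp_add_right (fun t => F (f (φ t z).1)) s]
  have e1 : ∫ t in (-8 + s)..(8 + s), F (f (φ t z).1) =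
      (∫ t in (-8 + s)..0, F (f (φ t z).1)) + ((∫ t in (0 : ℝ)..T, F (f (φ t z).1)) +
        ∫ t in T..(8 + s), F (f (φ t z).1)) := by
    rw [intervalIntegral.integral_add_adjacent_intervals (hcont.intervalIntegrable _ _)
      (hcont.intervalIntegrable _ _), intervalIntegral.integral_add_adjacent_intervals
      (hcont.intervalIntegrable _ _) (hcont.intervalIntegrable _ _)]
  have e2 : ∫ t in (-8 + s)..0, F (f (φ t z).1) = 0 := by
    have hs8 : -8 + s < 0 := by linarith [hs.2]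
    rw [intervalIntegral.integral_of_le hs8.le, MeasureTheory.integral_Ioc_eq_integral_Ioo]
    rw [MeasureTheory.setIntegral_congr_fun (g := fun _ => (0 : ℝ)) measurableSet_Ioo
      (fun t ht => hout t fun hh => absurd ht.2 (not_lt.2 hh.1))]
    simp
  have e3 : ∫ t in T..(8 + s), F (f (φ t z).1) = 0 := by
    have hs8 : T ≤ 8 + s := by linarith [hs.1]
    rw [intervalIntegral.integral_of_le hs8]
    rw [MeasureTheory.setIntegral_congr_fun (g := fun _ => (0 : ℝ)) measurableSet_Ioc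
      (fun t ht => hout t fun hh => absurd ht.1 (not_lt.2 hh.2))]
    simp
  rw [e1, e2, e3, zero_add, add_zero]
  refine intervalIntegral.integral_congr fun t ht => ?_
  rw [uIcc_of_le hT.le] at ht
  show F (f (φ t z).1) = F (f (c t))
  rw [hu t ht]

/-- existence of the weight -/
theorem exists_weight (h : CF L K δ om φ) (hG : Geo L ρ Φ) (hy : ∃ y : E n, 1 ≤ ‖y‖)
    (hr : ∃ r < 1, ∀ x : E n, r ≤ ‖x‖ → ρ x ≤ 0) :
    ∃ (w : E n × E n → ℝ) (f : E n → ℝ), ContDiff ℝ ∞ w ∧ (∀ p, 0 < w p) ∧ ContDiff ℝ ∞ f ∧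
      (∃ r < 1, ∀ x : E n, r ≤ ‖x‖ → f x = 0) ∧ (∃ x ∈ M n, f x ≠ 0) ∧ ∀ T c v, 0 < T → UGeod L T c v → ‖c 0‖ = 1 → ‖c T‖ = 1 →
        ∫ t in (0 : ℝ)..T, w (c t, v t) * f (c t) = 0 := by
  obtain ⟨d, hd, c₀, ⟨x₁, hx₁, hx₁'⟩, hA⟩ := exists_ana h hG hy
  obtain ⟨σ, α, β, hw⟩ := WR.ana_main hA
  obtain ⟨R, hR⟩ : ∃ R : ℝ × (E n × E n) → ℝ, R = fun p => d⁻¹ * ρ (φ p.1 p.2).1 := ⟨_, rfl⟩
  obtain ⟨Ph, hPh⟩ : ∃ Ph : ℝ × (E n × E n) → ℝ, Ph = fun p => Φ (φ p.1 p.2).1 := ⟨_, rfl⟩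
  rw [← hR, ← hPh] at hw
  obtain ⟨f, hfdef⟩ : ∃ f : E n → ℝ, f = fun x => WR.FF (d⁻¹ * ρ x) (Φ x) := ⟨_, rfl⟩
  have hf : ContDiff ℝ ∞ f := by
    rw [hfdef]
    exact WR.FF_smooth.comp ((contDiff_const.mul hG.smoothρ).prodMk hG.smoothΦ)
  have hf0 : ∀ x, ρ x ≤ 0 → f x = 0 := by
    intro x hx
    rw [hfdef]
    exact WR.FF_zero (mul_nonpos_of_nonneg_of_nonpos (inv_pos.2 hd).le hx) _
  have hfh : ∀ t z, WR.fh R Ph t z = f (φ t z).1 := by
    intro t z
    rw [hR, hPh, hfdef]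
    rfl
  obtain ⟨w₀, hw₀⟩ : ∃ w₀ : E n × E n → ℝ, w₀ = fun z =>
      1 - σ (WR.IA R Ph z) (WR.IB R Ph z) (WR.IP R Ph z) (WR.IN R Ph z) * WR.fh R Ph 0 z
        + α (WR.IA R Ph z) (WR.IB R Ph z) (WR.IP R Ph z) (WR.IN R Ph z) *
          expNegInvGlue (WR.fh R Ph 0 z)
        + β (WR.IA R Ph z) (WR.IB R Ph z) (WR.IP R Ph z) (WR.IN R Ph z) *
          expNegInvGlue (-WR.fh R Ph 0 z) := ⟨_, rfl⟩
  obtain ⟨hws, hwp, hwI⟩ := hw w₀ (fun z => by rw [hw₀])
  -- cut off
  let b : ContDiffBump (1 : ℝ) :=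
    { rIn := 1 / 4, rOut := 1 / 2, rIn_pos := by norm_num, rIn_lt_rOut := by norm_num }
  have hspd : ContDiff ℝ ∞ (spd L) := by
    unfold spd
    exact ((contDiff_const.mul (h.smoothL.comp contDiff_fst)).exp).mul
      (contDiff_snd.norm_sq ℝ)
  have hb : ContDiff ℝ ∞ (fun z => b (spd L z)) := b.contDiff.comp hspd
  have hUo := UU_open h.smoothL
  obtain ⟨r, hr1, hr2⟩ := hr
  refine ⟨fun z => 1 + b (spd L z) * (w₀ z - 1), f, ?_, ?_, hf,
    ⟨r, hr1, fun x hx => hf0 x (hr2 x hx)⟩, ⟨x₁, ?_, ?_⟩, ?_⟩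
  · rw [contDiff_iff_contDiffAt]
    intro z
    by_cases hz : z ∈ UU L
    · have h1 : ContDiffAt ℝ ∞ w₀ z := hws.contDiffAt (hUo.mem_nhds hz)
      exact contDiffAt_const.add (hb.contDiffAt.mul (h1.sub contDiffAt_const))
    · have h1 : (fun z => 1 + b (spd L z) * (w₀ z - 1)) =ᶠ[𝓝 z] fun _ => (1 : ℝ) := by
        have h2 : ∀ᶠ y in 𝓝 z, 1 / 2 < |spd L y - 1| := by
          have h3 : 1 / 2 < |spd L z - 1| := by
            by_contra hc
            have h4 := abs_le.1 (not_lt.1 hc)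
            exact hz ⟨by linarith, by linarith⟩
          exact ((hspd.continuous.sub continuous_const).abs.tendsto z).eventually_const_lt h3
        filter_upwards [h2] with y hy2
        rw [b.zero_of_le_dist (by rw [Real.dist_eq]; exact hy2.le), zero_mul, add_zero]
      exact contDiffAt_const.congr_of_eventuallyEq h1
  · intro z
    have hb0 : 0 ≤ b (spd L z) := b.nonneg
    have hb1 : b (spd L z) ≤ 1 := b.le_one
    by_cases hz : z ∈ UU L
    · have h1 := hwp z hz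
      have h2 : 1 + b (spd L z) * (w₀ z - 1) = (1 - b (spd L z)) + b (spd L z) * w₀ z := by ring
      show 0 < 1 + b (spd L z) * (w₀ z - 1)
      rw [h2]
      rcases eq_or_lt_of_le hb0 with h3 | h3
      · rw [← h3]
        norm_num
      · have := mul_pos h3 h1
        linarith
    · have h3 : b (spd L z) = 0 := by
        refine b.zero_of_le_dist ?_
        rw [Real.dist_eq]
        by_contra hc
        have h4 := abs_le.1 (not_le.1 hc).le
        have h5 : b.rOut = 1 / 2 := rfl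
        rw [h5] at h4
        exact hz ⟨by linarith, by linarith⟩
      show 0 < 1 + b (spd L z) * (w₀ z - 1)
      rw [h3]
      norm_num
  · rw [M, mem_closedBall_zero_iff]
    exact hx₁
  · rw [hfdef]
    show WR.FF (d⁻¹ * ρ x₁) (Φ x₁) ≠ 0
    rw [hx₁']
    exact (WR.FF_pos _).ne'
  · intro T c v hT hg hc0 hcT
    have hC : ∀ F : ℝ → ℝ, Continuous F → F 0 = 0 → ∀ s ∈ Icc 0 T,
        ∫ t in (-8 : ℝ)..8, F (f (φ t (c s, v s)).1) = ∫ t in (0 : ℝ)..T, F (f (c t)) :=
      fun F hF hF0 s hs => orbit_int h hG hf.continuous hf0 hT hg hc0 hcT hF hF0 hs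
    have hglue : Continuous expNegInvGlue := expNegInvGlue.contDiff.continuous (n := 0)
    have hIA : ∀ s ∈ Icc 0 T, WR.IA R Ph (c s, v s) = ∫ t in (0 : ℝ)..T, f (c t) := by
      intro s hs
      rw [← hC (fun y => y) continuous_id rfl s hs]
      exact intervalIntegral.integral_congr fun t _ => hfh t _
    have hIB : ∀ s ∈ Icc 0 T, WR.IB R Ph (c s, v s) = ∫ t in (0 : ℝ)..T, f (c t) ^ 2 := by
      intro s hs
      rw [← hC (fun y => y ^ 2) (by fun_prop) (by simp) s hs]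
      exact intervalIntegral.integral_congr fun t _ => by simp only [hfh]
    have hIP : ∀ s ∈ Icc 0 T, WR.IP R Ph (c s, v s) =
        ∫ t in (0 : ℝ)..T, expNegInvGlue (f (c t)) * f (c t) := by
      intro s hs
      rw [← hC (fun y => expNegInvGlue y * y) (by fun_prop) (by simp) s hs]
      exact intervalIntegral.integral_congr fun t _ => by simp only [hfh]
    have hIN : ∀ s ∈ Icc 0 T, WR.IN R Ph (c s, v s) =
        ∫ t in (0 : ℝ)..T, expNegInvGlue (-f (c t)) * (-f (c t)) := by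
      intro s hs
      rw [← hC (fun y => expNegInvGlue (-y) * (-y)) (by fun_prop) (by simp) s hs]
      exact intervalIntegral.integral_congr fun t _ => by simp only [hfh]
    obtain ⟨A, hAe⟩ : ∃ A, A = ∫ t in (0 : ℝ)..T, f (c t) := ⟨_, rfl⟩
    obtain ⟨B, hBe⟩ : ∃ B, B = ∫ t in (0 : ℝ)..T, f (c t) ^ 2 := ⟨_, rfl⟩
    obtain ⟨P, hPe⟩ : ∃ P, P = ∫ t in (0 : ℝ)..T, expNegInvGlue (f (c t)) * f (c t) := ⟨_, rfl⟩
    obtain ⟨N, hNe⟩ : ∃ N, N = ∫ t in (0 : ℝ)..T, expNegInvGlue (-f (c t)) * (-f (c t)) := ⟨_, rfl⟩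
    have h0T : (0 : ℝ) ∈ Icc 0 T := ⟨le_rfl, hT.le⟩
    have hz0 : (c 0, v 0) ∈ KK L := by
      have h1 : spd L (c 0, v 0) = 1 := hg.unit 0 h0T
      refine ⟨hc0.le, ?_, ?_⟩ <;> rw [h1] <;> norm_num
    have hI := hwI _ hz0
    rw [hIA 0 h0T, hIB 0 h0T, hIP 0 h0T, hIN 0 h0T, ← hAe, ← hBe, ← hPe, ← hNe] at hI
    have hw' : ∀ t ∈ Icc 0 T, (1 + b (spd L (c t, v t)) * (w₀ (c t, v t) - 1)) * f (c t) =
        f (c t) - σ A B P N * f (c t) ^ 2 + α A B P N * (expNegInvGlue (f (c t)) * f (c t))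
          - β A B P N * (expNegInvGlue (-f (c t)) * (-f (c t))) := by
      intro t ht
      have h1 : spd L (c t, v t) = 1 := hg.unit t ht
      rw [h1, b.one_of_mem_closedBall (Metric.mem_closedBall_self (by norm_num)), hw₀]
      simp only [hIA t ht, hIB t ht, hIP t ht, hIN t ht, hfh, h.zero]
      rw [← hAe, ← hBe, ← hPe, ← hNe]
      ring
    have hcc : ContinuousOn c (Icc 0 T) := fun t ht => (hg.vel t ht).continuousWithinAt
    have hfc : ContinuousOn (fun t => f (c t)) (Icc 0 T) := hf.continuous.comp_continuousOn hcc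
    have i1 : IntervalIntegrable (fun t => f (c t)) MeasureTheory.volume 0 T :=
      (by rw [← uIcc_of_le hT.le] at hfc; exact hfc.intervalIntegrable)
    have hin : ∀ F : ℝ → ℝ, Continuous F →
        IntervalIntegrable (fun t => F (f (c t))) MeasureTheory.volume 0 T := by
      intro F hF
      have h1 : ContinuousOn (fun t => F (f (c t))) (uIcc 0 T) := by
        rw [uIcc_of_le hT.le]
        exact hF.comp_continuousOn hfc
      exact h1.intervalIntegrable
    have i2 := hin (fun y => y ^ 2) (by fun_prop)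
    have i3 := hin (fun y => expNegInvGlue y * y) (by fun_prop)
    have i4 := hin (fun y => expNegInvGlue (-y) * (-y)) (by fun_prop)
    have hcongr : ∫ t in (0 : ℝ)..T, (1 + b (spd L (c t, v t)) * (w₀ (c t, v t) - 1)) * f (c t) =
        ∫ t in (0 : ℝ)..T, (f (c t) - σ A B P N * f (c t) ^ 2 +
          α A B P N * (expNegInvGlue (f (c t)) * f (c t))
          - β A B P N * (expNegInvGlue (-f (c t)) * (-f (c t)))) := by
      refine intervalIntegral.integral_congr fun t ht => ?_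
      rw [uIcc_of_le hT.le] at ht
      exact hw' t ht
    show ∫ t in (0 : ℝ)..T, (1 + b (spd L (c t, v t)) * (w₀ (c t, v t) - 1)) * f (c t) = 0
    rw [hcongr, intervalIntegral.integral_sub ((i1.sub (i2.const_mul _)).add (i3.const_mul _))
      (i4.const_mul _), intervalIntegral.integral_add (i1.sub (i2.const_mul _)) (i3.const_mul _),
      intervalIntegral.integral_sub i1 (i2.const_mul _), intervalIntegral.integral_const_mul,
      intervalIntegral.integral_const_mul, intervalIntegral.integral_const_mul,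
      ← hAe, ← hBe, ← hPe, ← hNe]
    exact hI

end SW
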