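import Pool.Agent.helper71.SW.F2
import Pool.Agent.helper71.SN.E2
import Pool.Agent.helper79.WR.Stmt

/-! Every unit speed geodesic reaches the boundary -/

noncomputable section

namespace SW

open SN KBR Set Filter Topology
open scoped ContDiff RealInnerProductSpace NNReal

variable {n : ℕ} {L : E n → ℝ}

theorem gm_cG (L : E n → ℝ) (x v : E n) : gm (cG L) x v v = Real.exp (2 * L x) * ‖v‖ ^ 2 := by
  simp only [gm, cG, smul_apply, ContinuousLinearMap.id_apply,
    real_inner_smul_left, real_inner_self_eq_norm_sq]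

theorem nonTrap (hg : Good L) : WR.NonTrap (cG L) := by
  intro x hx u hu
  obtain ⟨K, δ, om, φ, h⟩ := exists_cf hg.smooth hg.conv
  obtain ⟨z, hz⟩ : ∃ z : E n × E n, z = (x, u) := ⟨_, rfl⟩
  have hxn : ‖x‖ ≤ 1 := mem_closedBall_zero_iff.1 hx
  have hz1 : ‖z.1‖ ≤ 1 := by rw [hz]; exact hxn
  have hzs : spd L z = 1 := by
    rw [hz]
    unfold spd
    rw [← gm_cG]
    exact hu
  have hz4 : spd L z ≤ 4 := by rw [hzs]; norm_num
  have hz0 : 0 < spd L z := by rw [hzs]; norm_num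
  have hzK : z ∈ KK L := ⟨hz1, by rw [hzs]; norm_num, hz4⟩
  have hends := h.ends hg hzK
  have hcc : Continuous fun t => ‖(φ t z).1‖ := (continuous_fst.comp (h.cont z)).norm
  -- the last time in `M`
  obtain ⟨T, hT, hTmax⟩ := (isCompact_Icc.inter_right (isClosed_le hcc continuous_const) :
    IsCompact (Icc (0 : ℝ) 8 ∩ {t | ‖(φ t z).1‖ ≤ 1})).exists_isMaxOn
    ⟨0, ⟨le_rfl, by norm_num⟩, by show ‖(φ 0 z).1‖ ≤ 1; rw [h.zero]; exact hz1⟩
    (continuous_id.continuousOn)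
  have hT1 : ‖(φ T z).1‖ ≤ 1 := hT.2
  have hT8 : T < 8 := by
    refine lt_of_le_of_ne hT.1.2 ?_
    rintro rfl
    linarith [hends.1]
  have hTe : ‖(φ T z).1‖ = 1 := by
    refine le_antisymm hT1 ?_
    by_contra hc
    have h1 : ∀ᶠ t in 𝓝 T, ‖(φ t z).1‖ < 1 := (hcc.tendsto T).eventually_lt_const (not_le.1 hc)
    have h2 : ∀ᶠ t in 𝓝 T, t < 8 := (continuous_id.tendsto T).eventually_lt_const hT8
    have h3 : ∃ᶠ t in 𝓝 T, T < t := by
      have := (frequently_gt_nhds T)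
      exact this
    obtain ⟨t, ht1, ht2, ht3⟩ := (h3.and_eventually (h1.and h2)).exists
    have h4 : t ≤ T := hTmax ⟨⟨hT.1.1.trans ht1.le, ht3.le⟩, ht2.le⟩
    linarith
  have hin : ∀ t ∈ Icc (0 : ℝ) (0 + T), ‖(φ t z).1‖ ≤ 1 := by
    intro t ht
    rw [zero_add] at ht
    exact h.convex hz1 hz4 hz0 ht.1 ht.2 (by rw [h.zero]; exact hz1) hT1
  have hug := h.ugeod hz1 hz4 (s := 1) one_pos (by rw [hzs]; norm_num) hin
  have hug' : UGeod L T (fun t => (φ t z).1) (fun t => (φ t z).2) := by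
    have e1 : (fun t : ℝ => (φ (0 + t / 1) z).1) = fun t => (φ t z).1 := by
      funext t
      rw [zero_add, div_one]
    have e2 : (fun t : ℝ => (1 : ℝ)⁻¹ • (φ (0 + t / 1) z).2) = fun t => (φ t z).2 := by
      funext t
      rw [zero_add, div_one, inv_one, one_smul]
    rw [e1, e2, one_mul] at hug
    exact hug
  refine ⟨T, fun t => (φ t z).1, fun t => (φ t z).2, hT.1.1,
    ⟨(geod_iff hg.smooth).2 hug'.toCGeod, fun t ht => ?_⟩, ?_, ?_, ?_⟩
  · rw [gm_cG]
    exact hug'.unit t ht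
  · show (φ 0 z).1 = x
    rw [h.zero, hz]
  · show (φ 0 z).2 = u
    rw [h.zero, hz]
  · rw [bM, mem_sphere_zero_iff_norm]
    exact hTe

end SW
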