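import Pool.Agent.helper71.SW.F4
import Pool.Agent.helper71.SW.F5
import Pool.Agent.helper79.WR.F15

/-! The theorem: a simple metric on the ball of `ℝ³` with a non-injective weighted ray transform -/

noncomputable section

namespace SW

open SN KBR Set Filter Topology
open scoped ContDiff RealInnerProductSpace NNReal

theorem exists_radius {n : ℕ} {L ρ Φ : E n → ℝ} (hG : Geo L ρ Φ) :
    ∃ r < 1, ∀ x : E n, r ≤ ‖x‖ → ρ x ≤ 0 := by
  have hc := hG.smoothρ.continuous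
  obtain ⟨x₀, hx₀⟩ := hG.pos
  have hcomp : IsCompact {x : E n | 0 ≤ ρ x} := by
    refine Metric.isCompact_of_isClosed_isBounded (isClosed_le continuous_const hc) ?_
    refine (Metric.isBounded_closedBall (x := (0 : E n)) (r := 1)).subset ?_
    intro x hx
    rw [mem_closedBall_zero_iff]
    by_contra hcc
    have h1 := hG.neg x (not_le.1 hcc).le
    have h2 : 0 ≤ ρ x := hx
    linarith
  obtain ⟨x₁, hx₁, hmax⟩ := hcomp.exists_isMaxOn ⟨x₀, hx₀.le⟩ continuous_norm.continuousOn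
  have h1 : ‖x₁‖ < 1 := by
    by_contra hcc
    have h1 := hG.neg x₁ (not_lt.1 hcc)
    have h2 : 0 ≤ ρ x₁ := hx₁
    linarith
  refine ⟨(1 + ‖x₁‖) / 2, by linarith, fun x hx => ?_⟩
  by_contra hcc
  have h2 : ‖x‖ ≤ ‖x₁‖ := hmax (show 0 ≤ ρ x from (not_le.1 hcc).le)
  linarith

/-- the theorem -/
theorem main : ∃ (G : Fld 3) (Γ : E 3 → E 3 → E 3 → E 3) (w : E 3 × E 3 → ℝ) (f : E 3 → ℝ),
    Simple G Γ ∧ LenLtPi G ∧ WR.NonTrap G ∧ WR.NoConj G Γ ∧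
    ContDiff ℝ ∞ w ∧ (∀ p, 0 < w p) ∧
    ContDiff ℝ ∞ f ∧ (∃ r < 1, ∀ x, r ≤ ‖x‖ → f x = 0) ∧ (∃ x ∈ M 3, f x ≠ 0) ∧
    ∀ T c v, 0 ≤ T → WR.UGeo G T c v → c 0 ∈ bM 3 → c T ∈ bM 3 → WR.rayInt w f T c v = 0 := by
  obtain ⟨L, ρ, Φ, hG⟩ := exists_geo
  have hg := hG.good
  obtain ⟨K, δ, om, φ, h⟩ := exists_cf hg.smooth hg.conv
  have hy : ∃ y : E 3, 1 ≤ ‖y‖ := ⟨ee 0, (ee_norm 0).ge⟩
  obtain ⟨w, f, hw, hwp, hf, ⟨r, hr, hfr⟩, hfx, hI⟩ := exists_weight h hG hy (exists_radius hG)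
  have hU : ∀ T c v, WR.UGeo (cG L) T c v → UGeod L T c v := fun T c v hc =>
    ⟨(geod_iff hg.smooth).1 hc.toGeod, fun t ht => by rw [← gm_cG]; exact hc.unit t ht⟩
  refine ⟨cG L, cGam L, w, f, ⟨cG_isMet hg.smooth, cGam_chr hg.smooth,
    convexBd_of hg.smooth hg.conv, exp_diffeo hg⟩, ?_, nonTrap hg, WR.noConj hg, hw, hwp, hf,
    ⟨r, hr, hfr⟩, hfx, ?_⟩
  · intro T c v hc hu
    exact hg.len T c v (hU T c v ⟨hc, hu⟩)
  · intro T c v hT hc h0 h1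
    rcases eq_or_lt_of_le hT with hT0 | hT0
    · rw [WR.rayInt, ← hT0, intervalIntegral.integral_same]
    · rw [bM, mem_sphere_zero_iff_norm] at h0 h1
      exact hI T c v hT0 (hU T c v hc) h0 h1

end SW
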