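import Pool.Agent.helper71.SN.R3
import Pool.Agent.helper71.SW.Defs

/-! SN-S1 -/

noncomputable section

namespace SW

open SN KBR Set Filter Topology
open scoped ContDiff RealInnerProductSpace

variable {n : ℕ}

variable {κ τ B ε zb zn : ℝ} {μ μ₁ μ₂ Q Q₁ Q₂ : ℝ → ℝ} {ψ : E n → ℝ}

theorem S1_nX (hκ : 0 < κ) (x : E n) : ‖XX κ x‖ ≤ 1 := by
  have h := round_sphere hκ x
  nlinarith [sq_nonneg (zz κ x), norm_nonneg (XX κ x)]

/-- the relation between `κ` and the height `zb` of the boundary -/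
def kap (zb : ℝ) : ℝ := (1 - zb) / (1 + zb)

/-- all the hypotheses on the parameters and functions -/
structure Par (τ B ε zb zn : ℝ) (μ μ₁ μ₂ Q Q₁ Q₂ : ℝ → ℝ) (ψ : E n → ℝ) : Prop where
  prof : Prof τ B ε zb zn μ μ₁ μ₂ Q Q₁ Q₂
  psi : Psi ψ B
  τ_pos : 0 < τ
  τ_le : 100 * (1 + B) * τ ≤ 1

theorem Par.dat (h : Par τ B ε zb zn μ μ₁ μ₂ Q Q₁ Q₂ ψ) : Dat μ μ₁ μ₂ Q Q₁ Q₂ ψ :=
  ⟨h.prof.smoothμ, h.prof.smoothQ, h.psi.smooth, h.prof.dμ, h.prof.dμ₁, h.prof.dQ, h.prof.dQ₁⟩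

theorem kap_pos (h : Par τ B ε zb zn μ μ₁ μ₂ Q Q₁ Q₂ ψ) : 0 < kap zb := by
  have h1 := h.prof.zb_pos
  have h2 := h.prof.zb_lt
  have h3 := h.prof.zn_lt
  unfold kap
  exact div_pos (by linarith) (by linarith)

theorem S1_zz_one (h : Par τ B ε zb zn μ μ₁ μ₂ Q Q₁ Q₂ ψ) {x : E n} (hx : ‖x‖ = 1) :
    zz (kap zb) x = zb := by
  have h1 := h.prof.zb_pos
  unfold zz pp kap
  rw [hx]
  have h4 : (1 + zb) ≠ 0 := by positivity
  field_simp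
  ring_nf

/-- `M` is the region above the height `zb` -/
theorem zz_mem (h : Par τ B ε zb zn μ μ₁ μ₂ Q Q₁ Q₂ ψ) {x : E n} (hx : x ∈ M n) :
    zz (kap zb) x ∈ Icc zb 1 := by
  have h1 := h.prof.zb_pos
  have hk := kap_pos h
  have hx1 : ‖x‖ ≤ 1 := by
    have := hx
    rw [M, Metric.mem_closedBall, dist_zero_right] at this
    exact this
  have hx2 : ‖x‖ ^ 2 ≤ 1 := by
    have := norm_nonneg x
    nlinarith
  have hpos : 0 < 1 + kap zb * ‖x‖ ^ 2 := by positivity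
  unfold zz pp
  constructor
  · have h5 : 1 + kap zb * ‖x‖ ^ 2 ≤ 1 + kap zb := by nlinarith
    have h6 : (1 + kap zb)⁻¹ ≤ (1 + kap zb * ‖x‖ ^ 2)⁻¹ := inv_anti₀ hpos h5
    have h7 : (1 + kap zb)⁻¹ = (1 + zb) / 2 := by
      unfold kap
      have h4 : (1 + zb) ≠ 0 := by positivity
      field_simp
      ring_nf
    rw [h7] at h6
    linarith
  · have h5 : (1 + kap zb * ‖x‖ ^ 2)⁻¹ ≤ 1 := inv_le_one_of_one_le₀ (by nlinarith [sq_nonneg ‖x‖])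
    linarith

section S1aux

theorem S1_bessel {X ξ ξ' : E n} {z ζ ζ' s : ℝ} (hs : 0 < s) (h0 : ‖X‖ ^ 2 + z ^ 2 = 1) (h1 : ‖ξ‖ ^ 2 + ζ ^ 2 = s)
    (h2 : ‖ξ'‖ ^ 2 + ζ' ^ 2 = s) (h3 : ⟪X, ξ⟫ + z * ζ = 0) (h4 : ⟪X, ξ'⟫ + z * ζ' = 0) (h5 : ⟪ξ, ξ'⟫ + ζ * ζ' = 0) :
    ζ ^ 2 + ζ' ^ 2 ≤ s * (1 - z ^ 2) := by
  have h6 : 0 ≤ ‖(s * z) • X + ζ • ξ + ζ' • ξ'‖ ^ 2 := by positivity
  have h7 : ‖(s * z) • X + ζ • ξ + ζ' • ξ'‖ ^ 2 = (s * z) ^ 2 * ‖X‖ ^ 2 + ζ ^ 2 * ‖ξ‖ ^ 2 + ζ' ^ 2 * ‖ξ'‖ ^ 2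
      + 2 * (s * z) * ζ * ⟪X, ξ⟫ + 2 * (s * z) * ζ' * ⟪X, ξ'⟫ + 2 * ζ * ζ' * ⟪ξ, ξ'⟫ := by
    rw [norm_add_sq_real, norm_add_sq_real, inner_add_left, norm_smul, norm_smul, norm_smul]
    simp only [real_inner_smul_left, real_inner_smul_right, mul_pow, Real.norm_eq_abs, sq_abs]
    ring
  have e0 : ‖X‖ ^ 2 = 1 - z ^ 2 := by linarith
  have e1 : ‖ξ‖ ^ 2 = s - ζ ^ 2 := by linarith
  have e2 : ‖ξ'‖ ^ 2 = s - ζ' ^ 2 := by linarith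
  have e3 : ⟪X, ξ⟫ = -(z * ζ) := by linarith
  have e4 : ⟪X, ξ'⟫ = -(z * ζ') := by linarith
  have e5 : ⟪ξ, ξ'⟫ = -(ζ * ζ') := by linarith
  rw [h7, e0, e1, e2, e3, e4, e5] at h6
  have h8 : 0 ≤ (s * z ^ 2 + ζ ^ 2 + ζ' ^ 2) * (s - (s * z ^ 2 + ζ ^ 2 + ζ' ^ 2)) := by
    refine h6.trans (le_of_eq ?_)
    ring
  by_contra hc
  push Not at hc
  have h9 : s < s * z ^ 2 + ζ ^ 2 + ζ' ^ 2 := by linarith
  have h10 : (s * z ^ 2 + ζ ^ 2 + ζ' ^ 2) * (s - (s * z ^ 2 + ζ ^ 2 + ζ' ^ 2)) < 0 :=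
    mul_neg_of_pos_of_neg (by linarith) (by linarith)
  linarith

theorem S1_bessel1 {X ξ : E n} {z ζ s : ℝ} (h0 : ‖X‖ ^ 2 + z ^ 2 = 1) (h1 : ‖ξ‖ ^ 2 + ζ ^ 2 = s)
    (h3 : ⟪X, ξ⟫ + z * ζ = 0) : ζ ^ 2 ≤ s * (1 - z ^ 2) := by
  have h2 : ⟪X, ξ⟫ ^ 2 ≤ ‖X‖ ^ 2 * ‖ξ‖ ^ 2 := by
    have := abs_real_inner_le_norm X ξ
    rw [← sq_abs, ← mul_pow]
    exact pow_le_pow_left₀ (abs_nonneg _) this 2
  have e0 : ‖X‖ ^ 2 = 1 - z ^ 2 := by linarith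
  have e1 : ‖ξ‖ ^ 2 = s - ζ ^ 2 := by linarith
  have e3 : ⟪X, ξ⟫ = -(z * ζ) := by linarith
  rw [e0, e1, e3] at h2
  nlinarith

/-- derivative of the equation of the sphere -/
theorem S1_orth (hκ : 0 < κ) (x v : E n) :
    ⟪XX κ x, fderiv ℝ (XX κ) x v⟫ + zz κ x * fderiv ℝ (zz κ) x v = 0 := by
  have hX : HasFDerivAt (XX (n := n) κ) (fderiv ℝ (XX κ) x) x :=
    ((XX_smooth hκ).differentiable (by simp)).differentiableAt.hasFDerivAt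
  have hz : HasFDerivAt (zz (n := n) κ) (fderiv ℝ (zz κ) x) x :=
    ((zz_smooth hκ).differentiable (by simp)).differentiableAt.hasFDerivAt
  have h1 := (hX.norm_sq).add (hz.pow 2)
  have h2 : (fun y : E n => ‖XX κ y‖ ^ 2 + zz κ y ^ 2) = fun _ => (1 : ℝ) := by
    funext y
    exact round_sphere hκ y
  have h3 : HasFDerivAt (fun y : E n => ‖XX κ y‖ ^ 2 + zz κ y ^ 2) (0 : E n →L[ℝ] ℝ) x := by
    rw [h2]
    exact hasFDerivAt_const _ _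
  have h4 := h1.unique h3
  have h5 := DFunLike.congr_fun h4 v
  simp at h5
  linarith

theorem S1_num_H {B s z P m1 q q1 ζ α ρ mm : ℝ} (hs : 0 ≤ s) (hz0 : 0 ≤ z) (hz1 : z ≤ 1)
    (hq : 0 ≤ q) (hζ : ζ ^ 2 ≤ s * (1 - z ^ 2)) (ht : |2 * (ζ * α)| ≤ B * s) (hρ : |ρ| ≤ B)
    (hm : |m1 - P * q1| ≤ mm) :
    |-s * z - 2 * ((m1 - P * q1) * ζ - q * α) * ζ + s * ((m1 - P * q1) - z * ((m1 - P * q1) * z - q * ρ)) + s * z| ≤
      s * (mm + 2 * B * q) := by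
  have e : -s * z - 2 * ((m1 - P * q1) * ζ - q * α) * ζ + s * ((m1 - P * q1) - z * ((m1 - P * q1) * z - q * ρ)) + s * z =
      (m1 - P * q1) * (s * (1 - z ^ 2) - 2 * ζ ^ 2) + q * (2 * (ζ * α)) + s * z * q * ρ := by ring
  rw [e]
  have h1 : |s * (1 - z ^ 2) - 2 * ζ ^ 2| ≤ s := by
    rw [abs_le]
    constructor
    · nlinarith [sq_nonneg z, mul_nonneg hs (sq_nonneg z)]
    · nlinarith [sq_nonneg ζ, mul_nonneg hs (sq_nonneg z)]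
  have h2 : |(m1 - P * q1) * (s * (1 - z ^ 2) - 2 * ζ ^ 2)| ≤ mm * s := by
    rw [abs_mul]
    exact mul_le_mul hm h1 (abs_nonneg _) ((abs_nonneg _).trans hm)
  have h3 : |q * (2 * (ζ * α))| ≤ q * (B * s) := by
    rw [abs_mul, abs_of_nonneg hq]
    exact mul_le_mul_of_nonneg_left ht hq
  have h4 : |s * z * q * ρ| ≤ s * q * B := by
    rw [abs_mul, abs_of_nonneg (by positivity)]
    have : s * z * q ≤ s * q := by
      have := mul_le_mul_of_nonneg_left hz1 (mul_nonneg hs hq)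
      nlinarith
    exact mul_le_mul this hρ (abs_nonneg _) (by positivity)
  have h5 := abs_add_le ((m1 - P * q1) * (s * (1 - z ^ 2) - 2 * ζ ^ 2) + q * (2 * (ζ * α))) (s * z * q * ρ)
  have h6 := abs_add_le ((m1 - P * q1) * (s * (1 - z ^ 2) - 2 * ζ ^ 2)) (q * (2 * (ζ * α)))
  linarith

theorem S1_num_S {B s z P m1 m2 q q1 q2 ζ ζ' t t' u u' ρ mm k : ℝ} (hs : 0 ≤ s) (hz0 : 0 ≤ z)
    (hq : 0 ≤ q) (hζ : ζ ^ 2 + ζ' ^ 2 ≤ s) (ht : |2 * t| ≤ B * s) (ht' : |2 * t'| ≤ B * s)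
    (hu : |u| ≤ B * s) (hu' : |u'| ≤ B * s) (hρ : |ρ| ≤ B)
    (hm : |m1 - P * q1| ≤ mm) (hk : -(m2 - P * q2) ≤ k) (hk0 : 0 ≤ k) :
    s - (((m2 - P * q2) * ζ ^ 2 - 2 * q1 * t - q * u) + ((m2 - P * q2) * ζ' ^ 2 - 2 * q1 * t' - q * u')) +
      2 * s * ((m1 - P * q1) * z - q * ρ) ≤ s * (1 + k + 2 * B * |q1| + 4 * B * q + 2 * mm * z) := by
  have h1 : -(m2 - P * q2) * (ζ ^ 2 + ζ' ^ 2) ≤ k * s := by
    calc -(m2 - P * q2) * (ζ ^ 2 + ζ' ^ 2) ≤ k * (ζ ^ 2 + ζ' ^ 2) := mul_le_mul_of_nonneg_right hk (by positivity)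
      _ ≤ k * s := mul_le_mul_of_nonneg_left hζ hk0
  have h2 : q1 * (2 * t) ≤ |q1| * (B * s) := by
    refine (le_abs_self _).trans ?_
    rw [abs_mul]
    exact mul_le_mul_of_nonneg_left ht (abs_nonneg _)
  have h3 : q1 * (2 * t') ≤ |q1| * (B * s) := by
    refine (le_abs_self _).trans ?_
    rw [abs_mul]
    exact mul_le_mul_of_nonneg_left ht' (abs_nonneg _)
  have h4 : q * u ≤ q * (B * s) := mul_le_mul_of_nonneg_left ((le_abs_self _).trans hu) hq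
  have h5 : q * u' ≤ q * (B * s) := mul_le_mul_of_nonneg_left ((le_abs_self _).trans hu') hq
  have h6 : (m1 - P * q1) * z ≤ mm * z := mul_le_mul_of_nonneg_right ((le_abs_self _).trans hm) hz0
  have h7 : -(q * ρ) ≤ q * B := by
    have := mul_le_mul_of_nonneg_left ((neg_le_abs ρ).trans hρ) hq
    linarith
  have h8 : s * ((m1 - P * q1) * z - q * ρ) ≤ s * (mm * z + q * B) :=
    mul_le_mul_of_nonneg_left (by linarith) hs
  nlinarith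

/-- bounds for the profile functions at a point of `M` -/
structure S1P (τ B ε zb z P m1 m2 q q1 q2 s : ℝ) : Prop where
  τ0 : 0 < τ
  B1 : 1 ≤ B
  τB : 100 * (1 + B) * τ ≤ 1
  ε0 : 0 < ε
  ετ : ε ≤ τ
  zb0 : 0 < zb
  zbε : ε * (1 - τ) ≤ zb
  z0 : zb ≤ z
  z1 : z ≤ 1
  P0 : 0 ≤ P
  P1 : P ≤ 1
  bm1 : |m1| ≤ ε * τ
  bm2 : -(ε * τ) ≤ m2
  q0 : 0 ≤ q
  bq : q ≤ ε * τ
  bq1 : z * |q1| ≤ ε * τ
  bq2 : |q2| ≤ τ
  bq12 : |q1| + z * |q2| ≤ ε * (1 - z ^ 2 / 4) + ε * τ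
  bs : |s - 1| ≤ 8 * (ε * τ)

variable {z P m1 m2 q q1 q2 s : ℝ}

theorem S1P.τs (h : S1P τ B ε zb z P m1 m2 q q1 q2 s) : τ ≤ 1 / 200 := by
  have := h.τB
  have := h.B1
  have := h.τ0
  nlinarith

theorem S1P.bτ (h : S1P τ B ε zb z P m1 m2 q q1 q2 s) : B * τ ≤ 1 / 100 := by
  have := h.τB
  have := h.τ0
  nlinarith

theorem S1P.et0 (h : S1P τ B ε zb z P m1 m2 q q1 q2 s) : 0 < ε * τ := mul_pos h.ε0 h.τ0

theorem S1P.s2 (h : S1P τ B ε zb z P m1 m2 q q1 q2 s) : s ≤ 2 := by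
  have h1 := abs_le.1 h.bs
  have h2 := h.τs
  have h3 := h.ετ
  have h4 := h.ε0
  have h5 := h.τ0
  nlinarith [h1.2]

theorem S1P.s0 (h : S1P τ B ε zb z P m1 m2 q q1 q2 s) : 1 / 2 ≤ s := by
  have h1 := abs_le.1 h.bs
  have h2 := h.τs
  have h3 := h.ετ
  have h4 := h.ε0
  have h5 := h.τ0
  nlinarith [h1.1]

theorem S1P.bm (h : S1P τ B ε zb z P m1 m2 q q1 q2 s) : |m1 - P * q1| ≤ |m1| + P * |q1| := by
  have h1 := abs_sub m1 (P * q1)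
  rwa [abs_mul, abs_of_nonneg h.P0] at h1

theorem S1P.bk (h : S1P τ B ε zb z P m1 m2 q q1 q2 s) : -(m2 - P * q2) ≤ ε * τ + P * |q2| := by
  have h1 := mul_le_mul_of_nonneg_left (le_abs_self q2) h.P0
  have h2 := h.bm2
  linarith

theorem S1P.q1e (h : S1P τ B ε zb z P m1 m2 q q1 q2 s) : |q1| ≤ ε * (1 + τ) := by
  have h1 := h.bq12
  have h2 : 0 ≤ z * |q2| := mul_nonneg (h.zb0.le.trans h.z0) (abs_nonneg _)
  have h3 : 0 ≤ ε * z ^ 2 := mul_nonneg h.ε0.le (sq_nonneg _)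
  nlinarith

/-- from `s Y` to `Y` -/
theorem S1P.fin (h : S1P τ B ε zb z P m1 m2 q q1 q2 s) :
    s * (-(ε * (1 - P * (1 - z ^ 2 / 4))) + ε * τ * (8 + 8 * B)) ≤
      -(ε * (1 - P * (1 - z ^ 2 / 4))) + ε * τ * (24 + 8 * B) := by
  have hz : 0 ≤ z := h.zb0.le.trans h.z0
  have hz2 : z ^ 2 ≤ 1 := by
    have := h.z1
    nlinarith
  have h1 : 0 ≤ 1 - P * (1 - z ^ 2 / 4) := by
    have : P * (1 - z ^ 2 / 4) ≤ 1 * 1 := mul_le_mul h.P1 (by nlinarith [sq_nonneg z]) (by linarith) (by norm_num)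
    linarith
  have h2 : 1 - P * (1 - z ^ 2 / 4) ≤ 1 := by
    have : 0 ≤ P * (1 - z ^ 2 / 4) := mul_nonneg h.P0 (by linarith)
    linarith
  have h3 : |-(ε * (1 - P * (1 - z ^ 2 / 4))) + ε * τ * (8 + 8 * B)| ≤ 2 := by
    have h4 := h.ε0
    have h5 := h.τ0
    have h6 := h.τs
    have h7 := h.ετ
    have h8 := h.bτ
    have h9 : ε * (1 - P * (1 - z ^ 2 / 4)) ≤ ε * 1 := mul_le_mul_of_nonneg_left h2 h4.le
    have h10 : 0 ≤ ε * (1 - P * (1 - z ^ 2 / 4)) := mul_nonneg h4.le h1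
    have h11 : ε * τ * (8 + 8 * B) = ε * (8 * τ + 8 * (B * τ)) := by ring
    have h12 : ε * (8 * τ + 8 * (B * τ)) ≤ ε * 1 := mul_le_mul_of_nonneg_left (by linarith) h4.le
    have h13 : 0 ≤ ε * (8 * τ + 8 * (B * τ)) := mul_nonneg h4.le (by have := h.B1; positivity)
    rw [h11, abs_le]
    constructor <;> linarith
  set Y := -(ε * (1 - P * (1 - z ^ 2 / 4))) + ε * τ * (8 + 8 * B) with hY
  have h4 : s * Y = Y + (s - 1) * Y := by ring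
  have h5 : (s - 1) * Y ≤ 8 * (ε * τ) * 2 := by
    refine (le_abs_self _).trans ?_
    rw [abs_mul]
    exact mul_le_mul h.bs h3 (abs_nonneg _) (by have := h.et0; positivity)
  rw [h4]
  linarith

theorem S1P.fin' (h : S1P τ B ε zb z P m1 m2 q q1 q2 s) :
    -(ε * (1 - P * (1 - z ^ 2 / 4))) + ε * τ * (32 + 8 * B) ≤
      -(ε * ((1 - P * (1 - z ^ 2 / 4)) - 100 * (1 + B) * τ)) := by
  have h1 := h.et0
  have h2 := h.B1
  have h3 : -(ε * ((1 - P * (1 - z ^ 2 / 4)) - 100 * (1 + B) * τ)) =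
      -(ε * (1 - P * (1 - z ^ 2 / 4))) + ε * τ * (100 + 100 * B) := by ring
  rw [h3]
  have h4 : ε * τ * (32 + 8 * B) ≤ ε * τ * (100 + 100 * B) := mul_le_mul_of_nonneg_left (by linarith) h1.le
  linarith

/-- (b) -/
theorem S1P.b (h : S1P τ B ε zb z P m1 m2 q q1 q2 s) {H S : ℝ}
    (hH : H ≤ s * (-z + (|m1| + P * |q1|) + 2 * B * q))
    (hS : S ≤ s * (1 + (ε * τ + P * |q2|) + 2 * B * |q1| + 4 * B * q + 2 * (|m1| + P * |q1|) * z)) :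
    H + S * (z - zb) ≤ -(ε * ((1 - P * (1 - z ^ 2 / 4)) - 100 * (1 + B) * τ)) := by
  refine le_trans ?_ h.fin'
  have hs0 : 0 ≤ s := by have := h.s0; linarith
  have hz : 0 ≤ z := h.zb0.le.trans h.z0
  have hB : 0 ≤ B := by have := h.B1; linarith
  have h1 : S * (z - zb) ≤ s * (1 + (ε * τ + P * |q2|) + 2 * B * |q1| + 4 * B * q + 2 * (|m1| + P * |q1|) * z) * (z - zb) :=
    mul_le_mul_of_nonneg_right hS (by have := h.z0; linarith)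
  set R := (ε * τ + P * |q2|) + 2 * B * |q1| + 4 * B * q + 2 * (|m1| + P * |q1|) * z with hR
  have hR0 : 0 ≤ R := by
    have h2 := h.et0
    have h3 := h.P0
    have h4 := h.q0
    rw [hR]
    positivity
  have h2 : (1 + R) * (z - zb) ≤ (z - zb) + R * z := by
    have := mul_nonneg hR0 h.zb0.le
    nlinarith
  have h3 : H + S * (z - zb) ≤ s * (-z + (|m1| + P * |q1|) + 2 * B * q + ((z - zb) + R * z)) := by
    have h4 : s * ((1 + R) * (z - zb)) ≤ s * ((z - zb) + R * z) := mul_le_mul_of_nonneg_left h2 hs0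
    have h5 : s * (1 + (ε * τ + P * |q2|) + 2 * B * |q1| + 4 * B * q + 2 * (|m1| + P * |q1|) * z) * (z - zb) =
        s * ((1 + R) * (z - zb)) := by
      rw [hR]
      ring
    rw [h5] at h1
    linarith
  have h4 : R * z ≤ ε * τ + P * (z * |q2|) + 2 * B * (ε * τ) + 4 * B * (ε * τ) + 2 * (ε * τ) + 2 * (ε * τ) := by
    have e : R * z = ε * τ * z + P * (z * |q2|) + 2 * B * (z * |q1|) + 4 * B * (q * z) + 2 * (|m1| * z ^ 2) + 2 * (P * z) * (z * |q1|) := by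
      rw [hR]
      ring
    rw [e]
    have a1 : ε * τ * z ≤ ε * τ * 1 := mul_le_mul_of_nonneg_left h.z1 h.et0.le
    have a2 : 2 * B * (z * |q1|) ≤ 2 * B * (ε * τ) := mul_le_mul_of_nonneg_left h.bq1 (by positivity)
    have a3 : q * z ≤ ε * τ * 1 := mul_le_mul h.bq h.z1 hz h.et0.le
    have a3' : 4 * B * (q * z) ≤ 4 * B * (ε * τ * 1) := mul_le_mul_of_nonneg_left a3 (by positivity)
    have a4 : |m1| * z ^ 2 ≤ ε * τ * 1 := mul_le_mul h.bm1 (by have := h.z1; nlinarith) (sq_nonneg _) h.et0.le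
    have a5 : P * z ≤ 1 * 1 := mul_le_mul h.P1 h.z1 hz (by norm_num)
    have a6 : 2 * (P * z) * (z * |q1|) ≤ 2 * (1 * 1) * (ε * τ) :=
      mul_le_mul (by linarith) h.bq1 (by positivity) (by norm_num)
    linarith
  have h5 : P * (|q1| + z * |q2|) ≤ ε * (P * (1 - z ^ 2 / 4)) + ε * τ := by
    have a1 : P * (|q1| + z * |q2|) ≤ P * (ε * (1 - z ^ 2 / 4) + ε * τ) := mul_le_mul_of_nonneg_left h.bq12 h.P0
    have a2 : P * (ε * τ) ≤ 1 * (ε * τ) := mul_le_mul_of_nonneg_right h.P1 h.et0.le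
    nlinarith
  have h6 : -z + (|m1| + P * |q1|) + 2 * B * q + ((z - zb) + R * z) ≤
      -(ε * (1 - P * (1 - z ^ 2 / 4))) + ε * τ * (8 + 8 * B) := by
    have a1 := h.bm1
    have a2 : 2 * B * q ≤ 2 * B * (ε * τ) := mul_le_mul_of_nonneg_left h.bq (by positivity)
    have a3 := h.zbε
    nlinarith
  refine h3.trans ((mul_le_mul_of_nonneg_left h6 hs0).trans (h.fin.trans ?_))
  have := h.et0
  nlinarith

/-- (b') -/
theorem S1P.b' (h : S1P τ B ε zb z P m1 m2 q q1 q2 s) {H : ℝ}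
    (hH : H ≤ s * (-z + (|m1| + P * |q1|) + 2 * B * q)) :
    H + (z - zb) ≤ -(ε * ((1 - P * (1 - z ^ 2 / 4)) - 100 * (1 + B) * τ)) := by
  refine le_trans ?_ h.fin'
  have hs0 : 0 ≤ s := by have := h.s0; linarith
  have hz : 0 ≤ z := h.zb0.le.trans h.z0
  have hB : 0 ≤ B := by have := h.B1; linarith
  have h1 : z - zb ≤ s * (z - zb) + 8 * (ε * τ) := by
    have a1 : (1 - s) * (z - zb) ≤ 8 * (ε * τ) * 1 := by
      refine mul_le_mul ?_ (by have := h.z1; have := h.zb0; linarith) (by have := h.z0; linarith) (by have := h.et0; positivity)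
      have := (abs_le.1 h.bs).1
      linarith
    nlinarith
  have h5 : P * |q1| ≤ ε * (P * (1 - z ^ 2 / 4)) + ε * τ := by
    have a0 : |q1| ≤ |q1| + z * |q2| := by
      have : 0 ≤ z * |q2| := by positivity
      linarith
    have a1 : P * |q1| ≤ P * (ε * (1 - z ^ 2 / 4) + ε * τ) := mul_le_mul_of_nonneg_left (a0.trans h.bq12) h.P0
    have a2 : P * (ε * τ) ≤ 1 * (ε * τ) := mul_le_mul_of_nonneg_right h.P1 h.et0.le
    nlinarith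
  have h6 : -z + (|m1| + P * |q1|) + 2 * B * q + (z - zb) ≤
      -(ε * (1 - P * (1 - z ^ 2 / 4))) + ε * τ * (8 + 8 * B) := by
    have a1 := h.bm1
    have a2 : 2 * B * q ≤ 2 * B * (ε * τ) := mul_le_mul_of_nonneg_left h.bq (by positivity)
    have a3 := h.zbε
    have a4 := h.et0
    nlinarith [mul_nonneg hB a4.le]
  have h7 : H + (z - zb) ≤ s * (-z + (|m1| + P * |q1|) + 2 * B * q + (z - zb)) + 8 * (ε * τ) := by
    nlinarith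
  have h8 := (mul_le_mul_of_nonneg_left h6 hs0).trans h.fin
  linarith

/-- (c) -/
theorem S1P.c (h : S1P τ B ε zb z P m1 m2 q q1 q2 s) {S : ℝ}
    (hS : S ≤ s * (1 + (ε * τ + P * |q2|) + 2 * B * |q1| + 4 * B * q + 2 * (|m1| + P * |q1|) * z)) :
    S ≤ 1 + 100 * (1 + B) * τ := by
  have hs0 : 0 ≤ s := by have := h.s0; linarith
  have hz : 0 ≤ z := h.zb0.le.trans h.z0
  have hB : 0 ≤ B := by have := h.B1; linarith
  have t0 := h.τ0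
  have t1 := h.τs
  have e0 := h.ε0
  have et := h.ετ
  have hett : ε * τ ≤ τ * τ := mul_le_mul_of_nonneg_right et t0.le
  have htt : τ * τ ≤ 1 / 200 * τ := mul_le_mul_of_nonneg_right t1 t0.le
  have hq1 : |q1| ≤ 2 * τ := by
    refine h.q1e.trans ?_
    nlinarith
  have a1 : P * |q2| ≤ 1 * τ := mul_le_mul h.P1 h.bq2 (abs_nonneg _) (by norm_num)
  have a2 : 2 * B * |q1| ≤ 2 * B * (2 * τ) := mul_le_mul_of_nonneg_left hq1 (by positivity)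
  have a3 : 4 * B * q ≤ 4 * B * (1 / 200 * τ) := mul_le_mul_of_nonneg_left (h.bq.trans (hett.trans htt)) (by positivity)
  have a4 : |m1| * z ≤ (1 / 200 * τ) * 1 := mul_le_mul (h.bm1.trans (hett.trans htt)) h.z1 hz (by positivity)
  have a5 : P * (z * |q1|) ≤ 1 * (1 / 200 * τ) := mul_le_mul h.P1 (h.bq1.trans (hett.trans htt)) (by positivity) (by norm_num)
  have h1 : 1 + (ε * τ + P * |q2|) + 2 * B * |q1| + 4 * B * q + 2 * (|m1| + P * |q1|) * z ≤ 1 + τ * (2 + 5 * B) := by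
    have e : 2 * (|m1| + P * |q1|) * z = 2 * (|m1| * z) + 2 * (P * (z * |q1|)) := by ring
    rw [e]
    nlinarith
  have h2 : s ≤ 1 + τ := by
    have := (abs_le.1 h.bs).2
    linarith
  have h3 : s * (1 + (ε * τ + P * |q2|) + 2 * B * |q1| + 4 * B * q + 2 * (|m1| + P * |q1|) * z) ≤ s * (1 + τ * (2 + 5 * B)) :=
    mul_le_mul_of_nonneg_left h1 hs0
  have h4 : s * (1 + τ * (2 + 5 * B)) ≤ (1 + τ) * (1 + τ * (2 + 5 * B)) :=
    mul_le_mul_of_nonneg_right h2 (by positivity)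
  have h5 : (1 + τ) * (1 + τ * (2 + 5 * B)) ≤ 1 + 100 * (1 + B) * τ := by
    have : τ * (τ * (2 + 5 * B)) ≤ 1 * (τ * (2 + 5 * B)) := mul_le_mul_of_nonneg_right (by linarith) (by positivity)
    nlinarith [mul_nonneg hB t0.le]
  linarith

theorem S1P.mm2 (h : S1P τ B ε zb z P m1 m2 q q1 q2 s) : (|m1| + P * |q1|) + 2 * B * q ≤ ε * 2 := by
  have hB : 0 ≤ B := by have := h.B1; linarith
  have e0 := h.ε0
  have a1 := h.bm1
  have a2 : P * |q1| ≤ 1 * (ε * (1 + τ)) := mul_le_mul h.P1 h.q1e (abs_nonneg _) (by norm_num)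
  have a3 : 2 * B * q ≤ 2 * B * (ε * τ) := mul_le_mul_of_nonneg_left h.bq (by positivity)
  have a4 : 2 * B * (ε * τ) = ε * (2 * (B * τ)) := by ring
  have a5 : ε * (2 * (B * τ)) ≤ ε * (1 / 50) := mul_le_mul_of_nonneg_left (by have := h.bτ; linarith) e0.le
  have a6 : ε * τ ≤ ε * (1 / 200) := mul_le_mul_of_nonneg_left h.τs e0.le
  nlinarith

/-- (d) -/
theorem S1P.dz (h : S1P τ B ε zb z P m1 m2 q q1 q2 s) {H : ℝ}
    (hH : |H + s * z| ≤ s * ((|m1| + P * |q1|) + 2 * B * q)) : |H + z| ≤ 20 * ε := by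
  have hs0 : 0 ≤ s := by have := h.s0; linarith
  have hz : 0 ≤ z := h.zb0.le.trans h.z0
  have hB : 0 ≤ B := by have := h.B1; linarith
  have e0 := h.ε0
  have t0 := h.τ0
  have e : H + z = (H + s * z) + -((s - 1) * z) := by ring
  rw [e]
  refine (abs_add_le _ _).trans ?_
  have h1 : |-((s - 1) * z)| ≤ 8 * (ε * τ) * 1 := by
    rw [abs_neg, abs_mul, abs_of_nonneg hz]
    exact mul_le_mul h.bs h.z1 hz (by have := h.et0; positivity)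
  have h2 := h.mm2
  have h3 : s * ((|m1| + P * |q1|) + 2 * B * q) ≤ 2 * (ε * 2) :=
    mul_le_mul h.s2 h2 (by have := h.P0; have := h.q0; positivity) (by norm_num)
  have a6 : ε * τ ≤ ε * (1 / 200) := mul_le_mul_of_nonneg_left h.τs e0.le
  linarith

end S1aux

theorem S1_abs_lam (h : Par τ B ε zb zn μ μ₁ μ₂ Q Q₁ Q₂ ψ) {x : E n} (hx : x ∈ M n) :
    |μ (zz (kap zb) x) - ψ (XX (kap zb) x) * Q (zz (kap zb) x)| ≤ 2 * (ε * τ) := by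
  have hz := zz_mem h hx
  have h1 := h.prof.bμ _ hz
  have h2 := h.prof.bQ0 _ hz
  have h3 := h.prof.bQ _ hz
  have h4 := h.psi.nonneg (XX (kap zb) x) (S1_nX (kap_pos h) x)
  have h5 := h.psi.le_one (XX (kap zb) x) (S1_nX (kap_pos h) x)
  have h6 := abs_sub (μ (zz (kap zb) x)) (ψ (XX (kap zb) x) * Q (zz (kap zb) x))
  have h7 : |ψ (XX (kap zb) x) * Q (zz (kap zb) x)| ≤ 1 * (ε * τ) := by
    rw [abs_mul, abs_of_nonneg h4, abs_of_nonneg h2]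
    exact mul_le_mul h5 h3 h2 (by norm_num)
  linarith

theorem S1_s_eq {x v : E n} (hu : Real.exp (2 * LL κ μ Q ψ x) * ‖v‖ ^ 2 = 1) :
    Real.exp (2 * LR κ x) * ‖v‖ ^ 2 = Real.exp (-(2 * (μ (zz κ x) - ψ (XX κ x) * Q (zz κ x)))) := by
  unfold LL at hu
  rw [mul_add, Real.exp_add] at hu
  rw [Real.exp_neg]
  have h1 := Real.exp_pos (2 * (μ (zz κ x) - ψ (XX κ x) * Q (zz κ x)))
  field_simp
  linarith

/-- SN-S1 (a): the factor `e^{-2λ}` is close to one -/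
theorem est_s (h : Par τ B ε zb zn μ μ₁ μ₂ Q Q₁ Q₂ ψ) {x v : E n} (hx : x ∈ M n)
    (hu : Real.exp (2 * LL (kap zb) μ Q ψ x) * ‖v‖ ^ 2 = 1) :
    |Real.exp (2 * LR (kap zb) x) * ‖v‖ ^ 2 - 1| ≤ 8 * (ε * τ) := by
  rw [S1_s_eq hu]
  have h1 := S1_abs_lam h hx
  have h2 : |-(2 * (μ (zz (kap zb) x) - ψ (XX (kap zb) x) * Q (zz (kap zb) x)))| ≤ 4 * (ε * τ) := by
    rw [abs_neg, abs_mul, abs_of_pos (by norm_num : (0 : ℝ) < 2)]
    linarith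
  have h3 : ε * τ ≤ 1 / 4 := by
    have a1 := h.prof.ε_le
    have a2 := h.τ_pos
    have a3 := h.τ_le
    have a4 := h.psi.one_le
    have a5 := h.prof.ε_pos
    nlinarith
  have h4 := Real.abs_exp_sub_one_le (h2.trans (by linarith))
  linarith

theorem S1_v_ne {L : E n → ℝ} {x v : E n} (hu : Real.exp (2 * L x) * ‖v‖ ^ 2 = 1) : v ≠ 0 := by
  rintro rfl
  simp at hu

theorem S1_P (h : Par τ B ε zb zn μ μ₁ μ₂ Q Q₁ Q₂ ψ) {x v : E n} (hx : x ∈ M n)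
    (hu : Real.exp (2 * LL (kap zb) μ Q ψ x) * ‖v‖ ^ 2 = 1) :
    S1P τ B ε zb (zz (kap zb) x) (ψ (XX (kap zb) x)) (μ₁ (zz (kap zb) x)) (μ₂ (zz (kap zb) x)) (Q (zz (kap zb) x))
      (Q₁ (zz (kap zb) x)) (Q₂ (zz (kap zb) x)) (Real.exp (2 * LR (kap zb) x) * ‖v‖ ^ 2) := by
  have hz := zz_mem h hx
  have h0 := h.prof.zb_pos
  exact
    { τ0 := h.τ_pos
      B1 := h.psi.one_le
      τB := h.τ_le
      ε0 := h.prof.ε_pos
      ετ := h.prof.ε_le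
      zb0 := h0
      zbε := h.prof.zb_ge
      z0 := hz.1
      z1 := hz.2
      P0 := h.psi.nonneg _ (S1_nX (kap_pos h) x)
      P1 := h.psi.le_one _ (S1_nX (kap_pos h) x)
      bm1 := h.prof.bμ₁ _ hz
      bm2 := h.prof.bμ₂ _ hz
      q0 := h.prof.bQ0 _ hz
      bq := h.prof.bQ _ hz
      bq1 := h.prof.bQ₁ _ hz
      bq2 := h.prof.bQ₂ _ hz
      bq12 := h.prof.bQ₁₂ _ hz
      bs := est_s h hx hu }

theorem S1_norm_X (hκ : 0 < κ) (x : E n) : ‖XX κ x‖ ≤ 1 := by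
  have h1 := round_sphere hκ x
  have h2 := norm_nonneg (XX κ x)
  nlinarith [sq_nonneg (zz κ x)]

/-- data for one vector -/
theorem S1_one (h : Par τ B ε zb zn μ μ₁ μ₂ Q Q₁ Q₂ ψ) (x v : E n) :
    (fderiv ℝ (zz (kap zb)) x v) ^ 2 ≤ Real.exp (2 * LR (kap zb) x) * ‖v‖ ^ 2 * (1 - zz (kap zb) x ^ 2) ∧
    ‖fderiv ℝ (XX (kap zb)) x v‖ ^ 2 + (fderiv ℝ (zz (kap zb)) x v) ^ 2 = Real.exp (2 * LR (kap zb) x) * ‖v‖ ^ 2 ∧
    |2 * (fderiv ℝ (zz (kap zb)) x v * fderiv ℝ ψ (XX (kap zb) x) (fderiv ℝ (XX (kap zb)) x v))| ≤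
      B * (Real.exp (2 * LR (kap zb) x) * ‖v‖ ^ 2) ∧
    |fderiv ℝ (fderiv ℝ ψ) (XX (kap zb) x) (fderiv ℝ (XX (kap zb)) x v) (fderiv ℝ (XX (kap zb)) x v)| ≤
      B * (Real.exp (2 * LR (kap zb) x) * ‖v‖ ^ 2) ∧
    |fderiv ℝ ψ (XX (kap zb) x) (XX (kap zb) x)| ≤ B := by
  have hκ := kap_pos h
  have hB : 0 ≤ B := by have := h.psi.one_le; linarith
  have h0 := round_sphere hκ x
  have h1 : ‖fderiv ℝ (XX (kap zb)) x v‖ ^ 2 + (fderiv ℝ (zz (kap zb)) x v) ^ 2 = Real.exp (2 * LR (kap zb) x) * ‖v‖ ^ 2 := by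
    have := round_conf hκ x v v
    rw [real_inner_self_eq_norm_sq, real_inner_self_eq_norm_sq] at this
    linarith
  have h3 := S1_orth hκ x v
  have hX := S1_norm_X hκ x
  have b1 := h.psi.b1 _ hX
  have b2 := h.psi.b2 _ hX
  refine ⟨S1_bessel1 h0 h1 h3, h1, ?_, ?_, ?_⟩
  · have a1 : |fderiv ℝ ψ (XX (kap zb) x) (fderiv ℝ (XX (kap zb)) x v)| ≤ B * ‖fderiv ℝ (XX (kap zb)) x v‖ := by
      rw [← Real.norm_eq_abs]
      exact (ContinuousLinearMap.le_opNorm _ _).trans (mul_le_mul_of_nonneg_right b1 (norm_nonneg _))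
    rw [← h1, abs_mul, abs_mul, abs_of_pos (by norm_num : (0 : ℝ) < 2)]
    have a2 : |fderiv ℝ (zz (kap zb)) x v| * |fderiv ℝ ψ (XX (kap zb) x) (fderiv ℝ (XX (kap zb)) x v)| ≤
        |fderiv ℝ (zz (kap zb)) x v| * (B * ‖fderiv ℝ (XX (kap zb)) x v‖) := mul_le_mul_of_nonneg_left a1 (abs_nonneg _)
    have a3 : 2 * (|fderiv ℝ (zz (kap zb)) x v| * ‖fderiv ℝ (XX (kap zb)) x v‖) ≤
        ‖fderiv ℝ (XX (kap zb)) x v‖ ^ 2 + (fderiv ℝ (zz (kap zb)) x v) ^ 2 := by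
      rw [← sq_abs (fderiv ℝ (zz (kap zb)) x v)]
      nlinarith [sq_nonneg (|fderiv ℝ (zz (kap zb)) x v| - ‖fderiv ℝ (XX (kap zb)) x v‖)]
    have a4 := mul_le_mul_of_nonneg_left a3 hB
    nlinarith
  · rw [← Real.norm_eq_abs]
    have a1 := (fderiv ℝ (fderiv ℝ ψ) (XX (kap zb) x)).le_opNorm₂ (fderiv ℝ (XX (kap zb)) x v) (fderiv ℝ (XX (kap zb)) x v)
    have a2 : ‖fderiv ℝ (fderiv ℝ ψ) (XX (kap zb) x)‖ * ‖fderiv ℝ (XX (kap zb)) x v‖ * ‖fderiv ℝ (XX (kap zb)) x v‖ ≤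
        B * ‖fderiv ℝ (XX (kap zb)) x v‖ ^ 2 := by
      rw [mul_assoc, ← pow_two]
      exact mul_le_mul_of_nonneg_right b2 (sq_nonneg _)
    refine a1.trans (a2.trans (mul_le_mul_of_nonneg_left ?_ hB))
    have := sq_nonneg (fderiv ℝ (zz (kap zb)) x v)
    linarith
  · rw [← Real.norm_eq_abs]
    refine (ContinuousLinearMap.le_opNorm _ _).trans ?_
    have := mul_le_mul b1 hX (norm_nonneg _) hB
    linarith

theorem S1_H (h : Par τ B ε zb zn μ μ₁ μ₂ Q Q₁ Q₂ ψ) {x v : E n} (hx : x ∈ M n)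
    (hu : Real.exp (2 * LL (kap zb) μ Q ψ x) * ‖v‖ ^ 2 = 1) :
    |hess (LL (kap zb) μ Q ψ) (zz (kap zb)) x v + Real.exp (2 * LR (kap zb) x) * ‖v‖ ^ 2 * zz (kap zb) x| ≤
      Real.exp (2 * LR (kap zb) x) * ‖v‖ ^ 2 *
        ((|μ₁ (zz (kap zb) x)| + ψ (XX (kap zb) x) * |Q₁ (zz (kap zb) x)|) + 2 * B * Q (zz (kap zb) x)) := by
  have hP := S1_P h hx hu
  obtain ⟨o1, o2, o3, o4, o5⟩ := S1_one h x v
  rw [hess_zz (kap_pos h) h.dat]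
  have := S1_num_H (s := Real.exp (2 * LR (kap zb) x) * ‖v‖ ^ 2) (P := ψ (XX (kap zb) x)) (m1 := μ₁ (zz (kap zb) x))
    (q1 := Q₁ (zz (kap zb) x)) (by positivity) (hP.zb0.le.trans hP.z0) hP.z1 hP.q0 o1 o3 o5 hP.bm
  unfold lamD lamR
  exact this

theorem S1_S (h : Par τ B ε zb zn μ μ₁ μ₂ Q Q₁ Q₂ ψ) {x v w : E n} (hx : x ∈ M n)
    (hu : Real.exp (2 * LL (kap zb) μ Q ψ x) * ‖v‖ ^ 2 = 1) (hw : w ≠ 0) (hvw : ⟪v, w⟫ = 0) :
    sec (LL (kap zb) μ Q ψ) x v w ≤ Real.exp (2 * LR (kap zb) x) * ‖v‖ ^ 2 *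
      (1 + (ε * τ + ψ (XX (kap zb) x) * |Q₂ (zz (kap zb) x)|) + 2 * B * |Q₁ (zz (kap zb) x)| + 4 * B * Q (zz (kap zb) x)
        + 2 * (|μ₁ (zz (kap zb) x)| + ψ (XX (kap zb) x) * |Q₁ (zz (kap zb) x)|) * zz (kap zb) x) := by
  have hP := S1_P h hx hu
  have hv : v ≠ 0 := S1_v_ne hu
  have hκ := kap_pos h
  have hw0 : ‖w‖ ≠ 0 := norm_ne_zero_iff.2 hw
  have hv0 : ‖v‖ ≠ 0 := norm_ne_zero_iff.2 hv
  have ha : ‖v‖ / ‖w‖ ≠ 0 := div_ne_zero hv0 hw0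
  rw [← sec_smul _ x v w (‖v‖ / ‖w‖) ha]
  set w' := (‖v‖ / ‖w‖) • w with hw'
  have hn : ‖w'‖ = ‖v‖ := by
    rw [hw', norm_smul, Real.norm_eq_abs, abs_of_nonneg (by positivity)]
    field_simp
  have hvw' : ⟪v, w'⟫ = 0 := by
    rw [hw', real_inner_smul_right, hvw, mul_zero]
  refine (sec_le hκ h.dat x v w' hv hn hvw' hu).trans ?_
  obtain ⟨o1, o2, o3, o4, o5⟩ := S1_one h x v
  obtain ⟨p1, p2, p3, p4, p5⟩ := S1_one h x w'
  rw [hn] at p1 p2 p3 p4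
  have hs : 0 < Real.exp (2 * LR (kap zb) x) * ‖v‖ ^ 2 := by positivity
  have hbes := S1_bessel hs (round_sphere hκ x) o2 p2 (S1_orth hκ x v) (S1_orth hκ x w')
    (by rw [round_conf hκ, hvw', mul_zero])
  have hz : 0 ≤ zz (kap zb) x := hP.zb0.le.trans hP.z0
  have hbes' : (fderiv ℝ (zz (kap zb)) x v) ^ 2 + (fderiv ℝ (zz (kap zb)) x w') ^ 2 ≤ Real.exp (2 * LR (kap zb) x) * ‖v‖ ^ 2 := by
    refine hbes.trans ?_
    have := mul_nonneg hs.le (sq_nonneg (zz (kap zb) x))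
    nlinarith
  have key := S1_num_S (m1 := μ₁ (zz (kap zb) x)) (q1 := Q₁ (zz (kap zb) x)) (z := zz (kap zb) x) hs.le hz hP.q0 hbes' o3 p3 o4 p4 o5
    hP.bm hP.bk (by have := hP.et0; have := hP.P0; positivity)
  refine le_trans (le_of_eq ?_) key
  unfold lamH lamR
  ring

/-- SN-S1 (b) -/
theorem est_b (h : Par τ B ε zb zn μ μ₁ μ₂ Q Q₁ Q₂ ψ) {x v w : E n} (hx : x ∈ M n)
    (hu : Real.exp (2 * LL (kap zb) μ Q ψ x) * ‖v‖ ^ 2 = 1) (hw : w ≠ 0) (hvw : ⟪v, w⟫ = 0) :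
    hess (LL (kap zb) μ Q ψ) (zz (kap zb)) x v +
      sec (LL (kap zb) μ Q ψ) x v w * (zz (kap zb) x - zb) ≤
      -(ε * (chi ψ (XX (kap zb) x, zz (kap zb) x) - 100 * (1 + B) * τ)) := by
  have hP := S1_P h hx hu
  have h1 := (abs_le.1 (S1_H h hx hu)).2
  have h2 := S1_S h hx hu hw hvw
  exact hP.b (by linarith) h2

/-- SN-S1 (b') -/
theorem est_b' (h : Par τ B ε zb zn μ μ₁ μ₂ Q Q₁ Q₂ ψ) {x v : E n} (hx : x ∈ M n)
    (hu : Real.exp (2 * LL (kap zb) μ Q ψ x) * ‖v‖ ^ 2 = 1) :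
    hess (LL (kap zb) μ Q ψ) (zz (kap zb)) x v + (zz (kap zb) x - zb) ≤
      -(ε * (chi ψ (XX (kap zb) x, zz (kap zb) x) - 100 * (1 + B) * τ)) := by
  have hP := S1_P h hx hu
  have h1 := (abs_le.1 (S1_H h hx hu)).2
  exact hP.b' (by linarith)

/-- SN-S1 (c) -/
theorem est_c (h : Par τ B ε zb zn μ μ₁ μ₂ Q Q₁ Q₂ ψ) {x v w : E n} (hx : x ∈ M n)
    (hu : Real.exp (2 * LL (kap zb) μ Q ψ x) * ‖v‖ ^ 2 = 1) (hw : w ≠ 0) (hvw : ⟪v, w⟫ = 0) :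
    sec (LL (kap zb) μ Q ψ) x v w ≤ 1 + 100 * (1 + B) * τ :=
  (S1_P h hx hu).c (S1_S h hx hu hw hvw)

/-- SN-S1 (d) -/
theorem est_dz (h : Par τ B ε zb zn μ μ₁ μ₂ Q Q₁ Q₂ ψ) {x v : E n} (hx : x ∈ M n)
    (hu : Real.exp (2 * LL (kap zb) μ Q ψ x) * ‖v‖ ^ 2 = 1) :
    |hess (LL (kap zb) μ Q ψ) (zz (kap zb)) x v + zz (kap zb) x| ≤ 20 * ε :=
  (S1_P h hx hu).dz (S1_H h hx hu)

theorem S1_num_X {B s z P m1 q q1 ζ α ρ mm c η δ : ℝ} (hs : 0 ≤ s) (hz0 : 0 ≤ z) (hz1 : z ≤ 1)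
    (hq : 0 ≤ q) (_hB : 0 ≤ B) (h1 : |2 * (ζ * η)| ≤ s) (h2 : |α * η| ≤ B * s) (hρ : |ρ| ≤ B) (hδ : |δ| ≤ B)
    (hc : |c| ≤ 1) (hm : |m1 - P * q1| ≤ mm) :
    |-s * c - 2 * ((m1 - P * q1) * ζ - q * α) * η + s * (-(q * δ) - c * ((m1 - P * q1) * z - q * ρ)) + s * c| ≤
      s * (2 * (mm + 2 * B * q)) := by
  have e : -s * c - 2 * ((m1 - P * q1) * ζ - q * α) * η + s * (-(q * δ) - c * ((m1 - P * q1) * z - q * ρ)) + s * c =
      (-((m1 - P * q1) * (2 * (ζ * η))) + 2 * q * (α * η)) + (-(s * q * δ) + -(s * c * ((m1 - P * q1) * z - q * ρ))) := by ring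
  rw [e]
  have hmm : 0 ≤ mm := (abs_nonneg _).trans hm
  have a1 : |-((m1 - P * q1) * (2 * (ζ * η)))| ≤ mm * s := by
    rw [abs_neg, abs_mul]
    exact mul_le_mul hm h1 (abs_nonneg _) hmm
  have a2 : |2 * q * (α * η)| ≤ 2 * q * (B * s) := by
    rw [abs_mul, abs_of_nonneg (by positivity)]
    exact mul_le_mul_of_nonneg_left h2 (by positivity)
  have a3 : |-(s * q * δ)| ≤ s * q * B := by
    rw [abs_neg, abs_mul, abs_of_nonneg (by positivity)]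
    exact mul_le_mul_of_nonneg_left hδ (by positivity)
  have a4 : |(m1 - P * q1) * z - q * ρ| ≤ mm + q * B := by
    refine (abs_sub _ _).trans ?_
    rw [abs_mul, abs_mul, abs_of_nonneg hz0, abs_of_nonneg hq]
    have b1 : |m1 - P * q1| * z ≤ mm * 1 := mul_le_mul hm hz1 hz0 hmm
    have b2 : q * |ρ| ≤ q * B := mul_le_mul_of_nonneg_left hρ hq
    linarith
  have a5 : |-(s * c * ((m1 - P * q1) * z - q * ρ))| ≤ s * 1 * (mm + q * B) := by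
    rw [abs_neg, abs_mul, abs_mul, abs_of_nonneg hs]
    exact mul_le_mul (mul_le_mul_of_nonneg_left hc hs) a4 (abs_nonneg _) (by positivity)
  have b1 := abs_add_le (-((m1 - P * q1) * (2 * (ζ * η))) + 2 * q * (α * η)) (-(s * q * δ) + -(s * c * ((m1 - P * q1) * z - q * ρ)))
  have b2 := abs_add_le (-((m1 - P * q1) * (2 * (ζ * η)))) (2 * q * (α * η))
  have b3 := abs_add_le (-(s * q * δ)) (-(s * c * ((m1 - P * q1) * z - q * ρ)))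
  nlinarith

theorem est_dX (h : Par τ B ε zb zn μ μ₁ μ₂ Q Q₁ Q₂ ψ) {x v b : E n} (hx : x ∈ M n)
    (hu : Real.exp (2 * LL (kap zb) μ Q ψ x) * ‖v‖ ^ 2 = 1) (hb : ‖b‖ ≤ 1) :
    |hess (LL (kap zb) μ Q ψ) (fun y => ⟪XX (kap zb) y, b⟫) x v + ⟪XX (kap zb) x, b⟫| ≤
      20 * ε := by
  have hP := S1_P h hx hu
  have hκ := kap_pos h
  obtain ⟨o1, o2, o3, o4, o5⟩ := S1_one h x v
  have hB : 0 ≤ B := by have := h.psi.one_le; linarith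
  have hX := S1_norm_X hκ x
  have b1 := h.psi.b1 _ hX
  have hη : |⟪fderiv ℝ (XX (kap zb)) x v, b⟫| ≤ ‖fderiv ℝ (XX (kap zb)) x v‖ := by
    refine (abs_real_inner_le_norm _ _).trans ?_
    have := mul_le_mul_of_nonneg_left hb (norm_nonneg (fderiv ℝ (XX (kap zb)) x v))
    linarith
  have h1 : |2 * (fderiv ℝ (zz (kap zb)) x v * ⟪fderiv ℝ (XX (kap zb)) x v, b⟫)| ≤ Real.exp (2 * LR (kap zb) x) * ‖v‖ ^ 2 := by
    rw [abs_mul, abs_mul, abs_of_pos (by norm_num : (0 : ℝ) < 2)]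
    have a2 := mul_le_mul_of_nonneg_left hη (abs_nonneg (fderiv ℝ (zz (kap zb)) x v))
    have a3 : 2 * (|fderiv ℝ (zz (kap zb)) x v| * ‖fderiv ℝ (XX (kap zb)) x v‖) ≤
        ‖fderiv ℝ (XX (kap zb)) x v‖ ^ 2 + (fderiv ℝ (zz (kap zb)) x v) ^ 2 := by
      rw [← sq_abs (fderiv ℝ (zz (kap zb)) x v)]
      nlinarith [sq_nonneg (|fderiv ℝ (zz (kap zb)) x v| - ‖fderiv ℝ (XX (kap zb)) x v‖)]
    linarith
  have h2 : |fderiv ℝ ψ (XX (kap zb) x) (fderiv ℝ (XX (kap zb)) x v) * ⟪fderiv ℝ (XX (kap zb)) x v, b⟫| ≤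
      B * (Real.exp (2 * LR (kap zb) x) * ‖v‖ ^ 2) := by
    have a1 : |fderiv ℝ ψ (XX (kap zb) x) (fderiv ℝ (XX (kap zb)) x v)| ≤ B * ‖fderiv ℝ (XX (kap zb)) x v‖ := by
      rw [← Real.norm_eq_abs]
      exact (ContinuousLinearMap.le_opNorm _ _).trans (mul_le_mul_of_nonneg_right b1 (norm_nonneg _))
    rw [abs_mul]
    have a2 := mul_le_mul a1 hη (abs_nonneg _) (by positivity)
    have a3 : ‖fderiv ℝ (XX (kap zb)) x v‖ ^ 2 ≤ Real.exp (2 * LR (kap zb) x) * ‖v‖ ^ 2 := by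
      have := sq_nonneg (fderiv ℝ (zz (kap zb)) x v)
      linarith
    have a4 := mul_le_mul_of_nonneg_left a3 hB
    nlinarith
  have hδ : |fderiv ℝ ψ (XX (kap zb) x) b| ≤ B := by
    rw [← Real.norm_eq_abs]
    refine (ContinuousLinearMap.le_opNorm _ _).trans ?_
    have := mul_le_mul b1 hb (norm_nonneg _) hB
    linarith
  have hc : |⟪XX (kap zb) x, b⟫| ≤ 1 := by
    refine (abs_real_inner_le_norm _ _).trans ?_
    have := mul_le_mul hX hb (norm_nonneg _) (by norm_num)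
    linarith
  have hz : 0 ≤ zz (kap zb) x := hP.zb0.le.trans hP.z0
  have key := S1_num_X (s := Real.exp (2 * LR (kap zb) x) * ‖v‖ ^ 2) (P := ψ (XX (kap zb) x)) (m1 := μ₁ (zz (kap zb) x))
    (q1 := Q₁ (zz (kap zb) x)) (z := zz (kap zb) x) (by positivity) hz hP.z1 hP.q0 hB h1 h2 o5 hδ hc hP.bm
  have hH : |hess (LL (kap zb) μ Q ψ) (fun y => ⟪XX (kap zb) y, b⟫) x v +
      Real.exp (2 * LR (kap zb) x) * ‖v‖ ^ 2 * ⟪XX (kap zb) x, b⟫| ≤ Real.exp (2 * LR (kap zb) x) * ‖v‖ ^ 2 *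
        (2 * ((|μ₁ (zz (kap zb) x)| + ψ (XX (kap zb) x) * |Q₁ (zz (kap zb) x)|) + 2 * B * Q (zz (kap zb) x))) := by
    rw [hess_XX hκ h.dat]
    unfold lamD lamR
    exact key
  have e : hess (LL (kap zb) μ Q ψ) (fun y => ⟪XX (kap zb) y, b⟫) x v + ⟪XX (kap zb) x, b⟫ =
      (hess (LL (kap zb) μ Q ψ) (fun y => ⟪XX (kap zb) y, b⟫) x v + Real.exp (2 * LR (kap zb) x) * ‖v‖ ^ 2 * ⟪XX (kap zb) x, b⟫) +
        -((Real.exp (2 * LR (kap zb) x) * ‖v‖ ^ 2 - 1) * ⟪XX (kap zb) x, b⟫) := by ring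
  rw [e]
  refine (abs_add_le _ _).trans ?_
  have h3 : |-((Real.exp (2 * LR (kap zb) x) * ‖v‖ ^ 2 - 1) * ⟪XX (kap zb) x, b⟫)| ≤ 8 * (ε * τ) * 1 := by
    rw [abs_neg, abs_mul]
    exact mul_le_mul hP.bs hc (abs_nonneg _) (by have := hP.et0; positivity)
  have h4 := mul_le_mul hP.s2 (mul_le_mul_of_nonneg_left hP.mm2 (by norm_num : (0 : ℝ) ≤ 2))
    (by have := hP.P0; have := hP.q0; positivity) (by norm_num)
  have a6 : ε * τ ≤ ε * (1 / 200) := mul_le_mul_of_nonneg_left hP.τs hP.ε0.le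
  have e0 := hP.ε0
  linarith

/-- SN-S1 (e): the boundary is strictly convex -/
theorem est_bd (h : Par τ B ε zb zn μ μ₁ μ₂ Q Q₁ Q₂ ψ) {x : E n} (hx : ‖x‖ = 1) :
    0 < 1 + fderiv ℝ (LL (kap zb) μ Q ψ) x x := by
  have hκ := kap_pos h
  have hB : 0 ≤ B := by have := h.psi.one_le; linarith
  have h0 := h.prof.zb_pos
  have h1 : zb ≤ 1 := by
    have a1 := h.prof.zb_lt
    have a2 := h.prof.zn_lt
    linarith
  rw [fderiv_LL hκ h.dat]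
  unfold lamD
  rw [round_rad_z hκ, round_rad_X hκ, map_smul, smul_eq_mul]
  have e := round_rad_L (n := n) hκ x
  rw [S1_zz_one h hx] at e ⊢
  have hz : zb ∈ Icc zb 1 := ⟨le_refl _, h1⟩
  have hX := S1_norm_X hκ x
  have b1 := h.psi.b1 _ hX
  have b2 : fderiv ℝ ψ (XX (kap zb) x) (XX (kap zb) x) ≤ B := by
    refine (le_abs_self _).trans ?_
    rw [← Real.norm_eq_abs]
    refine (ContinuousLinearMap.le_opNorm _ _).trans ?_
    have := mul_le_mul b1 hX (norm_nonneg _) hB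
    linarith
  have q0 := h.prof.bQ0 zb hz
  have bd := h.prof.bd
  have bd1 := h.prof.bd₁
  have P1 := h.psi.le_one (XX (kap zb) x) (S1_nX (kap_pos h) x)
  have c1 : Q zb * (zb * fderiv ℝ ψ (XX (kap zb) x) (XX (kap zb) x)) ≤ B * Q zb := by
    have a1 : zb * fderiv ℝ ψ (XX (kap zb) x) (XX (kap zb) x) ≤ B := by
      have a2 : zb * fderiv ℝ ψ (XX (kap zb) x) (XX (kap zb) x) ≤ zb * B := mul_le_mul_of_nonneg_left b2 h0.le
      have a3 : zb * B ≤ 1 * B := mul_le_mul_of_nonneg_right h1 hB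
      linarith
    have := mul_le_mul_of_nonneg_left a1 q0
    linarith
  have c2 : Q₁ zb ≤ ψ (XX (kap zb) x) * Q₁ zb := by
    have := mul_le_mul_of_nonpos_right P1 bd1
    linarith
  have c3 : 0 ≤ 1 - zb ^ 2 := by nlinarith
  have c4 : (1 - zb ^ 2) * Q₁ zb ≤ (1 - zb ^ 2) * (ψ (XX (kap zb) x) * Q₁ zb) := mul_le_mul_of_nonneg_left c2 c3
  nlinarith

end SW
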